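import Pool.Agent.Helper22.Mall.Ops

/-! Construction of `J = (1+N)⁻¹` and `T = div A ∇ (1+N)⁻²` and their algebra. -/

namespace Pool.Agent.Helper22.Mall

open MeasureTheory ProbabilityTheory Real Filter
open scoped ENNReal NNReal Topology InnerProductSpace

set_option linter.unusedSectionVars false
set_option linter.unusedVariables false

variable {H : Type*} [NormedAddCommGroup H] [InnerProductSpace ℝ H]
variable {Ω : Type*} [MeasurableSpace Ω]
variable {P : Measure Ω} {W : H → Ω → ℝ}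

/-- the `L^q` norm of a combination -/
lemma eLpNorm_comb (f : H → Ω → ℝ) (hf : ∀ h, MemLp (f h) 2 P) (c : H →₀ ℝ) {q : ℝ} (hq : 0 < q) :
    eLpNorm (comb (fun h => (hf h).toLp (f h)) c) (ENNReal.ofReal q) P =
      (∫⁻ x, ‖∑ h ∈ c.support, c h * f h x‖ₑ ^ q ∂P) ^ (1 / q) := by
  rw [eLpNorm_congr_ae (comb_coe f hf c),
    eLpNorm_eq_lintegral_rpow_enorm_toReal (by simpa using hq) (by simp),
    ENNReal.toReal_ofReal hq.le]

/-- the constant in the `L^q` bound of `T` -/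
noncomputable def Tc (A : H →L[ℝ] H) (q : ℝ) : ℝ≥0∞ :=
  (gmom q * ‖A‖ₑ ^ q * gmom (q / (q - 1)) ^ (q / (q / (q - 1)))) ^ (1 / q)

lemma Tc_lt_top (A : H →L[ℝ] H) {q : ℝ} (hq : 1 < q) : Tc A q < ∞ := by
  have h0 : 0 < q := by linarith
  have h1 : 0 < q / (q - 1) := div_pos h0 (by linarith)
  refine ENNReal.rpow_lt_top_of_nonneg (by positivity) (ne_of_lt ?_)
  refine ENNReal.mul_lt_top (ENNReal.mul_lt_top (gmom_lt_top h0) ?_) ?_
  · exact ENNReal.rpow_lt_top_of_nonneg h0.le (by simp)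
  · exact ENNReal.rpow_lt_top_of_nonneg (by positivity) (gmom_lt_top h1).ne

namespace IsIsonormal

lemma tcomb_bound (hW : IsIsonormal P W) (A : H →L[ℝ] H) (hA : ∀ h, ⟪A h, h⟫_ℝ = 0)
    {q : ℝ} (hq : 1 < q) (c : H →₀ ℝ) :
    eLpNorm (comb (hW.tL A) c) (ENNReal.ofReal q) P ≤
      Tc A q * eLpNorm (comb hW.expL c) (ENNReal.ofReal q) P := by
  have h0 : 0 < q := by linarith
  have hc : (q / (q - 1)).HolderConjugate q := (Real.HolderConjugate.conjExponent hq).symm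
  have h1 := hW.tf_bound A hA c.support (fun h => c h) hc
  have e1 := eLpNorm_comb (P := P) (tf W A) (fun h => (hW.allLp_tf A h).memLp_two) c h0
  have e2 := eLpNorm_comb (P := P) (ex W 1) (fun h => (hW.allLp_ex 1 h).memLp_two) c h0
  have e1' : eLpNorm (comb (hW.tL A) c) (ENNReal.ofReal q) P = _ := e1
  have e2' : eLpNorm (comb hW.expL c) (ENNReal.ofReal q) P = _ := e2
  rw [e1', e2', Tc, ← ENNReal.mul_rpow_of_nonneg _ _ (by positivity)]
  exact ENNReal.rpow_le_rpow h1 (by positivity)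

lemma jcomb_bound (hW : IsIsonormal P W) {q : ℝ} (hq : 1 ≤ q) (c : H →₀ ℝ) :
    eLpNorm (comb hW.jL c) (ENNReal.ofReal q) P ≤
      eLpNorm (comb hW.expL c) (ENNReal.ofReal q) P := by
  have h0 : 0 < q := by linarith
  have h1 := hW.jf_bound c.support (fun h => c h) hq
  have e1 := eLpNorm_comb (P := P) (jf W) (fun h => (hW.allLp_jf h).memLp_two) c h0
  have e2 := eLpNorm_comb (P := P) (ex W 1) (fun h => (hW.allLp_ex 1 h).memLp_two) c h0
  have e1' : eLpNorm (comb hW.jL c) (ENNReal.ofReal q) P = _ := e1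
  have e2' : eLpNorm (comb hW.expL c) (ENNReal.ofReal q) P = _ := e2
  rw [e1', e2']
  exact ENNReal.rpow_le_rpow h1 (by positivity)

lemma tcomb_norm (hW : IsIsonormal P W) (A : H →L[ℝ] H) (hA : ∀ h, ⟪A h, h⟫_ℝ = 0)
    (c : H →₀ ℝ) : ‖comb (hW.tL A) c‖ ≤ (Tc A 2).toReal * ‖comb hW.expL c‖ := by
  have h1 := hW.tcomb_bound A hA (q := 2) (by norm_num) c
  rw [show ENNReal.ofReal 2 = 2 by simp] at h1
  rw [Lp.norm_def, Lp.norm_def, ← ENNReal.toReal_mul]
  exact ENNReal.toReal_mono (ENNReal.mul_ne_top (Tc_lt_top A (by norm_num)).ne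
    (Lp.eLpNorm_ne_top _)) h1

lemma jcomb_norm (hW : IsIsonormal P W) (c : H →₀ ℝ) :
    ‖comb hW.jL c‖ ≤ 1 * ‖comb hW.expL c‖ := by
  have h1 := hW.jcomb_bound (q := 2) (by norm_num) c
  rw [show ENNReal.ofReal 2 = 2 by simp] at h1
  rw [Lp.norm_def, Lp.norm_def, one_mul]
  exact ENNReal.toReal_mono (Lp.eLpNorm_ne_top _) h1

/-- `J = (1+N)⁻¹` -/
noncomputable def J (hW : IsIsonormal P W) : Lp ℝ 2 P →L[ℝ] Lp ℝ 2 P :=
  (comb hW.jL).extendOfNorm (comb hW.expL)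

/-- `T = div A ∇ (1+N)⁻²` -/
noncomputable def T (hW : IsIsonormal P W) (A : H →L[ℝ] H) : Lp ℝ 2 P →L[ℝ] Lp ℝ 2 P :=
  (comb (hW.tL A)).extendOfNorm (comb hW.expL)

lemma J_comb (hW : IsIsonormal P W) (hgen : Generates P W) (c : H →₀ ℝ) :
    hW.J (comb hW.expL c) = comb hW.jL c :=
  LinearMap.extendOfNorm_eq (hW.denseRange_expL hgen) ⟨1, hW.jcomb_norm⟩ c

lemma T_comb (hW : IsIsonormal P W) (hgen : Generates P W) (A : H →L[ℝ] H)
    (hA : ∀ h, ⟪A h, h⟫_ℝ = 0) (c : H →₀ ℝ) :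
    hW.T A (comb hW.expL c) = comb (hW.tL A) c :=
  LinearMap.extendOfNorm_eq (hW.denseRange_expL hgen) ⟨_, hW.tcomb_norm A hA⟩ c

lemma J_expL (hW : IsIsonormal P W) (hgen : Generates P W) (h : H) :
    hW.J (hW.expL h) = hW.jL h := by
  have := hW.J_comb hgen (Finsupp.single h 1)
  simpa [comb] using this

lemma T_expL (hW : IsIsonormal P W) (hgen : Generates P W) (A : H →L[ℝ] H)
    (hA : ∀ h, ⟪A h, h⟫_ℝ = 0) (h : H) : hW.T A (hW.expL h) = hW.tL A h := by
  have := hW.T_comb hgen A hA (Finsupp.single h 1)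
  simpa [comb] using this

/-! ### two-sided density -/

lemma bilin_ext (hW : IsIsonormal P W) (hgen : Generates P W)
    {B C : Lp ℝ 2 P →L[ℝ] Lp ℝ 2 P →L[ℝ] ℝ}
    (h : ∀ h k, B (hW.expL h) (hW.expL k) = C (hW.expL h) (hW.expL k)) : B = C :=
  hW.clm_ext hgen fun h' => hW.clm_ext hgen fun k => h h' k

lemma J_symm (hW : IsIsonormal P W) (hgen : Generates P W) (F G : Lp ℝ 2 P) :
    ⟪hW.J F, G⟫_ℝ = ⟪F, hW.J G⟫_ℝ := by
  have h1 : (innerSL ℝ (E := Lp ℝ 2 P)).comp hW.J =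
      ((innerSL ℝ (E := Lp ℝ 2 P)).flip.comp hW.J).flip := by
    refine hW.bilin_ext hgen fun h k => ?_
    simp only [ContinuousLinearMap.comp_apply, innerSL_apply_apply,
      ContinuousLinearMap.flip_apply]
    rw [hW.J_expL hgen, hW.J_expL hgen, real_inner_comm, hW.inner_jL, hW.inner_jL]
    refine integral_congr_ae (Filter.Eventually.of_forall fun θ => ?_)
    simp only [hW.inner_expL_expL, real_inner_smul_right]
    rw [real_inner_comm]
  exact congrArg (fun L => L F G) h1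

/-- the kernel of `T` -/
lemma inner_tL_expL (hW : IsIsonormal P W) (A : H →L[ℝ] H) (hA : ∀ h, ⟪A h, h⟫_ℝ = 0) (h k : H) :
    ⟪hW.expL k, hW.tL A h⟫_ℝ =
      ⟪A h, k⟫_ℝ * ∫ θ, ∫ φ, cos θ * cos φ * exp (cos θ * cos φ * ⟪h, k⟫_ℝ) ∂νs ∂νs := by
  rw [hW.inner_tL, ← integral_const_mul]
  refine integral_congr_ae (Filter.Eventually.of_forall fun θ => ?_)
  simp only
  rw [← integral_const_mul]
  refine integral_congr_ae (Filter.Eventually.of_forall fun φ => ?_)
  simp only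
  rw [real_inner_comm, hW.inner_wL_expL A hA, map_smul, real_inner_smul_left,
    real_inner_smul_left]
  ring

lemma antisymm {A : H →L[ℝ] H} (hA : ∀ h, ⟪A h, h⟫_ℝ = 0) (h k : H) :
    ⟪A h, k⟫_ℝ = -⟪A k, h⟫_ℝ := by
  have h1 := hA (h + k)
  rw [map_add, inner_add_left, inner_add_right, inner_add_right, hA, hA] at h1
  linarith

lemma T_antisymm (hW : IsIsonormal P W) (hgen : Generates P W) (A : H →L[ℝ] H)
    (hA : ∀ h, ⟪A h, h⟫_ℝ = 0) (F G : Lp ℝ 2 P) :
    ⟪hW.T A F, G⟫_ℝ = -⟪F, hW.T A G⟫_ℝ := by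
  have h1 : (innerSL ℝ (E := Lp ℝ 2 P)).comp (hW.T A) =
      -((innerSL ℝ (E := Lp ℝ 2 P)).flip.comp (hW.T A)).flip := by
    refine hW.bilin_ext hgen fun h k => ?_
    simp only [ContinuousLinearMap.comp_apply, innerSL_apply_apply,
      ContinuousLinearMap.flip_apply, neg_apply]
    rw [hW.T_expL hgen A hA, hW.T_expL hgen A hA, real_inner_comm, hW.inner_tL_expL A hA,
      hW.inner_tL_expL A hA, antisymm hA, real_inner_comm h k]
    ring
  exact congrArg (fun L => L F G) h1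

lemma inner_J_expL (hW : IsIsonormal P W) (hgen : Generates P W) (Q : Lp ℝ 2 P) (h : H) :
    ⟪hW.J Q, hW.expL h⟫_ℝ = ∫ θ, ⟪Q, hW.expL (cos θ • h)⟫_ℝ ∂νs := by
  rw [hW.J_symm hgen, hW.J_expL hgen, hW.inner_jL]

lemma inner_JJ_expL (hW : IsIsonormal P W) (hgen : Generates P W) (Q : Lp ℝ 2 P) (h : H) :
    ⟪hW.J (hW.J Q), hW.expL h⟫_ℝ =
      ∫ θ, ∫ φ, ⟪Q, hW.expL ((cos θ * cos φ) • h)⟫_ℝ ∂νs ∂νs := by
  rw [hW.inner_J_expL hgen]
  refine integral_congr_ae (Filter.Eventually.of_forall fun θ => ?_)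
  simp only
  rw [hW.inner_J_expL hgen]
  refine integral_congr_ae (Filter.Eventually.of_forall fun φ => ?_)
  simp only
  rw [smul_smul, mul_comm (cos φ)]

/-- `J² (div A ∇ ε(h)) = T ε(h)` -/
lemma JJ_wL (hW : IsIsonormal P W) (hgen : Generates P W) (A : H →L[ℝ] H)
    (hA : ∀ h, ⟪A h, h⟫_ℝ = 0) (h : H) : hW.J (hW.J (hW.wL A h)) = hW.tL A h := by
  refine hW.ext_inner hgen fun k => ?_
  rw [hW.inner_JJ_expL hgen, real_inner_comm, hW.inner_tL]
  refine integral_congr_ae (Filter.Eventually.of_forall fun θ => ?_)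
  refine integral_congr_ae (Filter.Eventually.of_forall fun φ => ?_)
  simp only
  rw [hW.inner_wL_expL A hA, real_inner_comm (hW.wL A _), hW.inner_wL_expL A hA, map_smul,
    real_inner_smul_left, real_inner_smul_left, real_inner_smul_right, real_inner_smul_right]

lemma T_J (hW : IsIsonormal P W) (hgen : Generates P W) (A : H →L[ℝ] H)
    (hA : ∀ h, ⟪A h, h⟫_ℝ = 0) (F : Lp ℝ 2 P) : hW.T A (hW.J F) = hW.J (hW.T A F) := by
  have h1 : (hW.T A).comp hW.J = hW.J.comp (hW.T A) := by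
    refine hW.clm_ext hgen fun h => ?_
    simp only [ContinuousLinearMap.comp_apply]
    refine hW.ext_inner hgen fun k => ?_
    rw [hW.T_antisymm hgen A hA, hW.J_symm hgen (hW.T A (hW.expL h)), hW.J_expL hgen,
      hW.J_expL hgen,
      hW.T_expL hgen A hA, hW.T_expL hgen A hA, real_inner_comm, hW.inner_jL, hW.inner_jL,
      ← integral_neg]
    refine integral_congr_ae (Filter.Eventually.of_forall fun θ => ?_)
    simp only
    rw [real_inner_comm (hW.expL _), hW.inner_tL_expL A hA, real_inner_comm (hW.expL _),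
      hW.inner_tL_expL A hA, real_inner_smul_right, real_inner_smul_right,
      real_inner_smul_right, real_inner_smul_right, antisymm hA, real_inner_comm h k]
    ring
  exact congrArg (fun L => L F) h1

/-- the defining property of the derivation -/
lemma inner_T_expL (hW : IsIsonormal P W) (hgen : Generates P W) (A : H →L[ℝ] H)
    (hA : ∀ h, ⟪A h, h⟫_ℝ = 0) (G : Lp ℝ 2 P) (h : H) :
    ⟪hW.T A G, hW.expL h⟫_ℝ = -⟪hW.J (hW.J G), hW.wL A h⟫_ℝ := by
  rw [hW.T_antisymm hgen A hA, hW.T_expL hgen A hA, ← hW.JJ_wL hgen A hA h,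
    hW.J_symm hgen, hW.J_symm hgen]

end IsIsonormal

end Pool.Agent.Helper22.Mall
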