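import Mathlib

/-! Isonormal Gaussian processes: moments, exponential vectors, integration by parts. -/

namespace Pool.Agent.Helper22.Mall

open MeasureTheory ProbabilityTheory Real Filter
open scoped ENNReal NNReal Topology InnerProductSpace

set_option linter.unusedSectionVars false
set_option linter.unusedVariables false

variable {H : Type*} [NormedAddCommGroup H] [InnerProductSpace ℝ H]
variable {Ω : Type*} [MeasurableSpace Ω]

/-- `W` is an isonormal Gaussian process over `H` on `(Ω, P)`. -/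
structure IsIsonormal (P : Measure Ω) (W : H → Ω → ℝ) : Prop where
  measurable : ∀ h, Measurable (W h)
  add : ∀ h k, W (h + k) =ᵐ[P] W h + W k
  smul : ∀ (c : ℝ) (h : H), W (c • h) =ᵐ[P] c • W h
  law : ∀ h, P.map (W h) = gaussianReal 0 (Real.toNNReal (‖h‖ ^ 2))

variable {P : Measure Ω} {W : H → Ω → ℝ}

namespace IsIsonormal

lemma isProbabilityMeasure (hW : IsIsonormal P W) : IsProbabilityMeasure P := by
  have h := hW.law 0
  have : IsProbabilityMeasure (P.map (W 0)) := by rw [h]; infer_instance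
  exact P.isProbabilityMeasure_of_map (W 0)

lemma mgf_eq (hW : IsIsonormal P W) (h : H) (t : ℝ) :
    ∫ ω, exp (t * W h ω) ∂P = exp (t ^ 2 * ‖h‖ ^ 2 / 2) := by
  have h1 := mgf_gaussianReal (hW.law h) t
  rw [mgf] at h1
  rw [h1, Real.coe_toNNReal _ (by positivity)]
  congr 1
  ring

lemma integrable_exp (hW : IsIsonormal P W) (h : H) (t : ℝ) :
    Integrable (fun ω => exp (t * W h ω)) P := by
  by_contra hc
  have h1 := hW.mgf_eq h t
  rw [integral_undef hc] at h1
  exact (exp_pos _).ne h1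

lemma integrableExpSet_eq (hW : IsIsonormal P W) (h : H) :
    integrableExpSet (W h) P = Set.univ := by
  ext t
  simp only [integrableExpSet, Set.mem_ofPred_eq, Set.mem_univ, iff_true]
  exact hW.integrable_exp h t

lemma memLp_W (hW : IsIsonormal P W) (h : H) (p : ℝ≥0) : MemLp (W h) p P :=
  memLp_of_mem_interior_integrableExpSet (by rw [hW.integrableExpSet_eq]; simp) p

/-- exponentials of absolute values are in all `L^p` -/
lemma memLp_exp_abs (hW : IsIsonormal P W) (h : H) (p : ℝ≥0) :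
    MemLp (fun ω => exp |W h ω|) p P := by
  have hp := hW.isProbabilityMeasure
  have hm : AEStronglyMeasurable (fun ω => exp |W h ω|) P :=
    (((hW.measurable h).abs).exp).aestronglyMeasurable
  by_cases hp0 : p = 0
  · subst hp0
    simpa using hm
  have key : Integrable (fun ω => ‖exp |W h ω|‖ ^ (p : ℝ)) P := by
    have h1 : Integrable (fun ω => exp ((p : ℝ) * W h ω) + exp (-(p : ℝ) * W h ω)) P :=
      (hW.integrable_exp h _).add (hW.integrable_exp h _)
    refine h1.mono' ?_ (Filter.Eventually.of_forall fun ω => ?_)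
    · exact ((((hW.measurable h).abs).exp).norm.pow_const _).aestronglyMeasurable
    · rw [Real.norm_of_nonneg (by positivity), Real.norm_of_nonneg (exp_pos _).le,
        ← Real.exp_mul]
      rcases abs_cases (W h ω) with ⟨ha, -⟩ | ⟨ha, -⟩
      · rw [ha, mul_comm]
        linarith [exp_pos (-(p : ℝ) * W h ω)]
      · rw [ha, show -W h ω * (p : ℝ) = -(p : ℝ) * W h ω by ring]
        linarith [exp_pos ((p : ℝ) * W h ω)]
  have h2 := (integrable_norm_rpow_iff hm (p := (p : ℝ≥0∞)) (by exact_mod_cast hp0)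
    ENNReal.coe_ne_top).1
  exact h2 (by simpa using key)

end IsIsonormal

/-- All finite `L^p` norms are finite. -/
def AllLp (P : Measure Ω) (f : Ω → ℝ) : Prop := ∀ p : ℝ≥0, MemLp f p P

lemma AllLp.add {f g : Ω → ℝ} (hf : AllLp P f) (hg : AllLp P g) :
    AllLp P (fun ω => f ω + g ω) := fun p => (hf p).add (hg p)

lemma AllLp.const_mul {f : Ω → ℝ} (hf : AllLp P f) (c : ℝ) : AllLp P (fun ω => c * f ω) :=
  fun p => (hf p).const_mul c

lemma AllLp.neg {f : Ω → ℝ} (hf : AllLp P f) : AllLp P (fun ω => -f ω) := fun p => (hf p).neg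

lemma AllLp.congr {f g : Ω → ℝ} (hf : AllLp P f) (h : f =ᵐ[P] g) : AllLp P g :=
  fun p => (hf p).ae_eq h

lemma AllLp.mul [IsFiniteMeasure P] {f g : Ω → ℝ} (hf : AllLp P f) (hg : AllLp P g) :
    AllLp P (fun ω => f ω * g ω) := by
  intro p
  have h1 := (hf (2 * p))
  have h2 := (hg (2 * p))
  by_cases hp : p = 0
  · subst hp
    have h3 : AEStronglyMeasurable (fun ω => f ω * g ω) P :=
      (hf 0).aestronglyMeasurable.mul (hg 0).aestronglyMeasurable
    simpa using h3
  have hr : ENNReal.HolderTriple ((2 * p : ℝ≥0) : ℝ≥0∞) ((2 * p : ℝ≥0) : ℝ≥0∞) (p : ℝ≥0∞) := by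
    constructor
    rw [ENNReal.coe_mul, ENNReal.mul_inv (by simp) (by simp), ← add_mul]
    rw [show ((2 : ℝ≥0) : ℝ≥0∞) = 2 by norm_num, ENNReal.inv_two_add_inv_two, one_mul]
  exact h2.mul' h1

lemma AllLp.sum {ι : Type*} (s : Finset ι) {f : ι → Ω → ℝ} (hf : ∀ i ∈ s, AllLp P (f i)) :
    AllLp P (fun ω => ∑ i ∈ s, f i ω) := fun p => memLp_finsetSum s fun i hi => hf i hi p

lemma AllLp.memLp_two {f : Ω → ℝ} (hf : AllLp P f) : MemLp f 2 P := by
  simpa using hf 2

lemma AllLp.integrable {f : Ω → ℝ} (hf : AllLp P f) : Integrable f P := by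
  have := hf 1
  rw [ENNReal.coe_one] at this
  exact memLp_one_iff_integrable.1 this

lemma AllLp.of_ne_top {f : Ω → ℝ} (hf : AllLp P f) {p : ℝ≥0∞} (hp : p ≠ ∞) : MemLp f p P := by
  lift p to ℝ≥0 using hp
  exact hf p

lemma AllLp.mono {f g : Ω → ℝ} (hf : AllLp P f) (hg : AEStronglyMeasurable g P)
    (h : ∀ ω, |g ω| ≤ |f ω|) : AllLp P g :=
  fun p => (hf p).mono hg (Filter.Eventually.of_forall h)

lemma AllLp.const [IsFiniteMeasure P] (c : ℝ) : AllLp P (fun _ => c) := fun p => memLp_const c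

lemma AllLp.pow [IsFiniteMeasure P] {f : Ω → ℝ} (hf : AllLp P f) (n : ℕ) :
    AllLp P (fun ω => f ω ^ n) := by
  induction n with
  | zero => simpa using AllLp.const (P := P) 1
  | succ n ih => simpa [pow_succ] using ih.mul hf

namespace IsIsonormal

lemma allLp_W (hW : IsIsonormal P W) (h : H) : AllLp P (W h) := fun p => hW.memLp_W h p

lemma allLp_exp_abs (hW : IsIsonormal P W) (h : H) : AllLp P (fun ω => exp |W h ω|) :=
  fun p => hW.memLp_exp_abs h p

end IsIsonormal

/-- the exponential functionals with a parameter: `exp (r W(h) - r² ‖h‖² / 2)` -/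
noncomputable def ex (W : H → Ω → ℝ) (r : ℝ) (h : H) (ω : Ω) : ℝ :=
  exp (r * W h ω - r ^ 2 * ‖h‖ ^ 2 / 2)

lemma ex_le {r : ℝ} (hr : |r| ≤ 1) (h : H) (ω : Ω) : ex W r h ω ≤ exp |W h ω| := by
  apply exp_le_exp.2
  have h1 : r * W h ω ≤ |W h ω| := by
    calc r * W h ω ≤ |r * W h ω| := le_abs_self _
      _ = |r| * |W h ω| := abs_mul _ _
      _ ≤ 1 * |W h ω| := mul_le_mul_of_nonneg_right hr (abs_nonneg _)
      _ = _ := one_mul _
  have : 0 ≤ r ^ 2 * ‖h‖ ^ 2 / 2 := by positivity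
  linarith

lemma ex_pos (r : ℝ) (h : H) (ω : Ω) : 0 < ex W r h ω := exp_pos _

namespace IsIsonormal

lemma measurable_ex (hW : IsIsonormal P W) (r : ℝ) (h : H) : Measurable (ex W r h) := by
  unfold ex
  exact (((hW.measurable h).const_mul r).sub_const _).exp

lemma allLp_exp (hW : IsIsonormal P W) (h : H) : AllLp P (fun ω => exp (W h ω)) :=
  (hW.allLp_exp_abs h).mono ((hW.measurable h).exp).aestronglyMeasurable fun ω => by
    rw [abs_of_pos (exp_pos _), abs_of_pos (exp_pos _)]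
    exact exp_le_exp.2 (le_abs_self _)

lemma ex_smul_ae (hW : IsIsonormal P W) (r : ℝ) (h : H) :
    ex W 1 (r • h) =ᵐ[P] ex W r h := by
  filter_upwards [hW.smul r h] with ω h1
  simp only [ex, h1, norm_smul, Pi.smul_apply, smul_eq_mul]
  congr 1
  rw [mul_pow, Real.norm_eq_abs, sq_abs]
  ring

lemma allLp_ex (hW : IsIsonormal P W) (r : ℝ) (h : H) : AllLp P (ex W r h) := by
  refine AllLp.congr ?_ (hW.ex_smul_ae r h)
  have h1 := (hW.allLp_exp (r • h)).const_mul (exp (-(‖r • h‖ ^ 2 / 2)))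
  refine h1.congr (Filter.Eventually.of_forall fun ω => ?_)
  simp only [ex]
  rw [← Real.exp_add]
  congr 1
  ring

/-- products of exponentials -/
lemma ex_mul_ex (hW : IsIsonormal P W) (h k : H) :
    (fun ω => ex W 1 h ω * ex W 1 k ω) =ᵐ[P] fun ω => exp ⟪h, k⟫_ℝ * ex W 1 (h + k) ω := by
  filter_upwards [hW.add h k] with ω h1
  simp only [ex, h1, Pi.add_apply]
  rw [← Real.exp_add, ← Real.exp_add]
  congr 1
  rw [@norm_add_sq_real]
  ring

lemma integral_ex (hW : IsIsonormal P W) (r : ℝ) (h : H) : ∫ ω, ex W r h ω ∂P = 1 := by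
  simp only [ex]
  simp_rw [Real.exp_sub]
  rw [integral_div, hW.mgf_eq, div_self (exp_pos _).ne']

/-- moments of `W g` under an exponential change of measure, as functions of a parameter -/
lemma hasDerivAt_moment (hW : IsIsonormal P W) (g k : H) (n : ℕ) (t : ℝ) :
    HasDerivAt (fun t => ∫ ω, W g ω ^ n * exp (t * W g ω) * ex W 1 k ω ∂P)
      (∫ ω, W g ω ^ (n + 1) * exp (t * W g ω) * ex W 1 k ω ∂P) t := by
  have hp := hW.isProbabilityMeasure
  set μ : Measure Ω := P.withDensity (fun ω => ENNReal.ofReal (ex W 1 k ω)) with hμ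
  have hconv : ∀ f : Ω → ℝ, ∫ ω, f ω ∂μ = ∫ ω, f ω * ex W 1 k ω ∂P := by
    intro f
    rw [hμ, integral_withDensity_eq_integral_toReal_smul
      ((hW.measurable_ex 1 k).ennreal_ofReal) (Filter.Eventually.of_forall fun _ => by simp)]
    refine integral_congr_ae (Filter.Eventually.of_forall fun ω => ?_)
    simp only [smul_eq_mul]
    rw [ENNReal.toReal_ofReal (ex_pos 1 k ω).le, mul_comm]
  have hset : integrableExpSet (W g) μ = Set.univ := by
    ext t
    simp only [integrableExpSet, Set.mem_ofPred_eq, Set.mem_univ, iff_true]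
    rw [hμ, integrable_withDensity_iff_integrable_smul'
      ((hW.measurable_ex 1 k).ennreal_ofReal) (Filter.Eventually.of_forall fun _ => by simp)]
    have h1 : AllLp P (fun ω => exp (W (t • g) ω) * ex W 1 k ω) :=
      (hW.allLp_exp (t • g)).mul (hW.allLp_ex 1 k)
    refine h1.integrable.congr ?_
    filter_upwards [hW.smul t g] with ω h2
    rw [h2, ENNReal.toReal_ofReal (ex_pos 1 k ω).le]
    simp [mul_comm]
  have h0 := hasDerivAt_integral_pow_mul_exp_real (X := W g) (μ := μ) (t := t)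
    (by rw [hset]; simp) n
  simp only [hconv] at h0
  exact h0

lemma moment_zero (hW : IsIsonormal P W) (g k : H) (t : ℝ) :
    ∫ ω, W g ω ^ 0 * exp (t * W g ω) * ex W 1 k ω ∂P = exp (t ^ 2 * ‖g‖ ^ 2 / 2 + t * ⟪g, k⟫_ℝ) := by
  have h1 : (fun ω => W g ω ^ 0 * exp (t * W g ω) * ex W 1 k ω) =ᵐ[P]
      fun ω => exp (t ^ 2 * ‖g‖ ^ 2 / 2 + t * ⟪g, k⟫_ℝ) * ex W 1 (t • g + k) ω := by
    filter_upwards [hW.smul t g, hW.add (t • g) k] with ω h1 h2
    simp only [ex, h2, Pi.add_apply, h1, Pi.smul_apply, smul_eq_mul, pow_zero, one_mul]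
    rw [← Real.exp_add, ← Real.exp_add]
    congr 1
    rw [@norm_add_sq_real, norm_smul, mul_pow, Real.norm_eq_abs, sq_abs, real_inner_smul_left]
    ring
  rw [integral_congr_ae h1, integral_const_mul, hW.integral_ex, mul_one]

/-- recurrence for the moments -/
lemma moment_succ (hW : IsIsonormal P W) (g k : H) (n : ℕ) (t : ℝ) :
    ∫ ω, W g ω ^ (n + 1) * exp (t * W g ω) * ex W 1 k ω ∂P =
      (t * ‖g‖ ^ 2 + ⟪g, k⟫_ℝ) * ∫ ω, W g ω ^ n * exp (t * W g ω) * ex W 1 k ω ∂P +
      n * ‖g‖ ^ 2 * ∫ ω, W g ω ^ (n - 1) * exp (t * W g ω) * ex W 1 k ω ∂P := by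
  induction n generalizing t with
  | zero =>
    have h1 := hW.hasDerivAt_moment g k 0 t
    have h2 : HasDerivAt (fun t => ∫ ω, W g ω ^ 0 * exp (t * W g ω) * ex W 1 k ω ∂P)
        (exp (t ^ 2 * ‖g‖ ^ 2 / 2 + t * ⟪g, k⟫_ℝ) * (t * ‖g‖ ^ 2 + ⟪g, k⟫_ℝ)) t := by
      rw [show (fun t => ∫ ω, W g ω ^ 0 * exp (t * W g ω) * ex W 1 k ω ∂P) =
        fun t => exp (t ^ 2 * ‖g‖ ^ 2 / 2 + t * ⟪g, k⟫_ℝ) from funext fun t => hW.moment_zero g k t]
      have h3 : HasDerivAt (fun t : ℝ => t ^ 2 * ‖g‖ ^ 2 / 2 + t * ⟪g, k⟫_ℝ)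
          (t * ‖g‖ ^ 2 + ⟪g, k⟫_ℝ) t := by
        have h4 := (((hasDerivAt_pow 2 t).mul_const (‖g‖ ^ 2)).div_const 2).add
          ((hasDerivAt_id t).mul_const ⟪g, k⟫_ℝ)
        refine h4.congr_deriv ?_
        ring_nf
      exact h3.exp
    rw [h1.unique h2, hW.moment_zero g k]
    simp
    ring
  | succ n ih =>
    have h1 := hW.hasDerivAt_moment g k (n + 1) t
    have h2 : HasDerivAt (fun t => ∫ ω, W g ω ^ (n + 1) * exp (t * W g ω) * ex W 1 k ω ∂P)
        (‖g‖ ^ 2 * ∫ ω, W g ω ^ n * exp (t * W g ω) * ex W 1 k ω ∂P +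
          (t * ‖g‖ ^ 2 + ⟪g, k⟫_ℝ) * ∫ ω, W g ω ^ (n + 1) * exp (t * W g ω) * ex W 1 k ω ∂P +
          n * ‖g‖ ^ 2 * ∫ ω, W g ω ^ n * exp (t * W g ω) * ex W 1 k ω ∂P) t := by
      have h3 : HasDerivAt (fun t : ℝ => t * ‖g‖ ^ 2 + ⟪g, k⟫_ℝ) (‖g‖ ^ 2) t := by
        simpa using ((hasDerivAt_id t).mul_const (‖g‖ ^ 2)).add_const ⟪g, k⟫_ℝ
      have h4 := h3.mul (hW.hasDerivAt_moment g k n t)
      rcases Nat.eq_zero_or_pos n with hn | hn
      · subst hn
        have h5 := h4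
        refine (h5.congr_of_eventuallyEq (Filter.Eventually.of_forall fun s => ?_)).congr_deriv ?_
        · have := ih s
          simp only [Nat.cast_zero, zero_mul, add_zero] at this
          simpa using this
        · simp
      · have h5 := (hW.hasDerivAt_moment g k (n - 1) t).const_mul (n * ‖g‖ ^ 2)
        rw [Nat.sub_add_cancel hn] at h5
        refine ((h4.add h5).congr_of_eventuallyEq
          (Filter.Eventually.of_forall fun s => ih s)).congr_deriv ?_
        ring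
    rw [h1.unique h2]
    simp only [Nat.add_sub_cancel]
    push_cast
    ring

/-- integration by parts for monomials against an exponential -/
lemma ibp_pow (hW : IsIsonormal P W) (g k : H) (n : ℕ) :
    ∫ ω, W g ω ^ (n + 1) * ex W 1 k ω ∂P =
      ⟪g, k⟫_ℝ * ∫ ω, W g ω ^ n * ex W 1 k ω ∂P +
      n * ‖g‖ ^ 2 * ∫ ω, W g ω ^ (n - 1) * ex W 1 k ω ∂P := by
  have h := hW.moment_succ g k n 0
  simpa using h

lemma integral_W_mul_ex (hW : IsIsonormal P W) (g k : H) :
    ∫ ω, W g ω * ex W 1 k ω ∂P = ⟪g, k⟫_ℝ := by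
  have h := hW.ibp_pow g k 0
  simpa [hW.integral_ex] using h

end IsIsonormal

end Pool.Agent.Helper22.Mall
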