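import Pool.Agent.Helper22.Mall.Rotation

/-! `L^q` bounds for the operators `(1+N)⁻¹`, `∇(1+N)⁻¹` and `div A ∇ (1+N)⁻²` on linear
combinations of exponential functionals. -/

namespace Pool.Agent.Helper22.Mall

open MeasureTheory ProbabilityTheory Real Filter
open scoped ENNReal NNReal Topology InnerProductSpace

set_option linter.unusedSectionVars false
set_option linter.unusedVariables false

variable {H : Type*} [NormedAddCommGroup H] [InnerProductSpace ℝ H]
variable {Ω : Type*} [MeasurableSpace Ω]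
variable {P : Measure Ω} {W : H → Ω → ℝ}

/-- `(1+N)⁻¹` of an exponential functional -/
noncomputable def jf (W : H → Ω → ℝ) (h : H) (ω : Ω) : ℝ := ∫ θ, ex W (cos θ) h ω ∂νs

/-- the kernel of `∇(1+N)⁻¹`, as a function of one real variable -/
noncomputable def kr (v t : ℝ) : ℝ :=
  ∫ φ, sin φ * exp (cos φ * t - cos φ ^ 2 * v / 2) ∂νc

/-- `∇(1+N)⁻¹` of an exponential functional is `kf W h ω • h` -/
noncomputable def kf (W : H → Ω → ℝ) (h : H) (ω : Ω) : ℝ := kr (‖h‖ ^ 2) (W h ω)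

/-- `div A ∇ (1+N)⁻²` of an exponential functional -/
noncomputable def tf (W : H → Ω → ℝ) (A : H → H) (h : H) (ω : Ω) : ℝ :=
  W (A h) ω * ∫ θ, sin θ * ∫ φ, sin φ * ex W (cos θ * cos φ) h ω ∂νc ∂νc

lemma kf_eq (h : H) (ω : Ω) : kf W h ω = ∫ φ, sin φ * ex W (cos φ) h ω ∂νc := rfl

lemma kr_measurable (v : ℝ) : Measurable (kr v) := by
  have h : Measurable fun p : ℝ × ℝ => sin p.2 * exp (cos p.2 * p.1 - cos p.2 ^ 2 * v / 2) := by
    fun_prop
  exact (h.stronglyMeasurable.integral_prod_right' (ν := νc)).measurable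

/-- a linear combination of exponential functionals, rotated -/
lemma ex_rot (r θ : ℝ) (h : H) (x y : Ω) :
    exp (r * (cos θ * W h x + sin θ * W h y) - r ^ 2 * ‖h‖ ^ 2 / 2) =
      ex W (r * cos θ) h x * ex W (r * sin θ) h y := by
  simp only [ex]
  rw [← Real.exp_add]
  congr 1
  have := sin_sq_add_cos_sq θ
  have h2 : sin θ ^ 2 = 1 - cos θ ^ 2 := by linarith
  rw [mul_pow, mul_pow, h2]
  ring

namespace IsIsonormal

lemma measurable_ex_uncurry (hW : IsIsonormal P W) (h : H) :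
    Measurable fun p : ℝ × Ω => ex W p.1 h p.2 := by
  have := hW.measurable h
  unfold ex
  fun_prop

lemma integral_W_mul_ex' (hW : IsIsonormal P W) (g : H) (r : ℝ) (h : H) :
    ∫ ω, W g ω * ex W r h ω ∂P = r * ⟪g, h⟫_ℝ := by
  rw [← real_inner_smul_right, ← hW.integral_W_mul_ex g (r • h)]
  refine integral_congr_ae ?_
  filter_upwards [hW.ex_smul_ae r h] with ω h1
  rw [h1]

lemma integrable_W_mul_ex (hW : IsIsonormal P W) (g : H) (r : ℝ) (h : H) :
    Integrable (fun ω => W g ω * ex W r h ω) P := by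
  have := hW.isProbabilityMeasure
  exact ((hW.allLp_W g).mul (hW.allLp_ex r h)).integrable

/-- the mean of the rotated combination -/
lemma integral_rot (hW : IsIsonormal P W) (s : Finset H) (a : H → ℝ) (x : Ω) (θ : ℝ) :
    ∫ y, ∑ h ∈ s, a h * (ex W (cos θ) h x * ex W (sin θ) h y) ∂P =
      ∑ h ∈ s, a h * ex W (cos θ) h x := by
  rw [integral_finsetSum]
  · refine Finset.sum_congr rfl fun h _ => ?_
    rw [integral_const_mul, integral_const_mul, hW.integral_ex, mul_one]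
  · intro h _
    exact (((hW.allLp_ex (sin θ) h).integrable).const_mul _).const_mul _

lemma integral_W_rot (hW : IsIsonormal P W) (s : Finset H) (a : H → ℝ) (k : H) (x : Ω) (θ : ℝ) :
    ∫ y, W k y * ∑ h ∈ s, a h * (ex W (cos θ) h x * ex W (sin θ) h y) ∂P =
      ∑ h ∈ s, a h * ⟪k, h⟫_ℝ * (sin θ * ex W (cos θ) h x) := by
  simp_rw [Finset.mul_sum]
  rw [integral_finsetSum]
  · refine Finset.sum_congr rfl fun h _ => ?_
    have : (fun y => W k y * (a h * (ex W (cos θ) h x * ex W (sin θ) h y))) =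
        fun y => (a h * ex W (cos θ) h x) * (W k y * ex W (sin θ) h y) := by
      funext y; ring
    rw [this, integral_const_mul, hW.integral_W_mul_ex']
    ring
  · intro h _
    have : (fun y => W k y * (a h * (ex W (cos θ) h x * ex W (sin θ) h y))) =
        fun y => (a h * ex W (cos θ) h x) * (W k y * ex W (sin θ) h y) := by
      funext y; ring
    rw [this]
    exact (hW.integrable_W_mul_ex k _ h).const_mul _

/-- rotated combinations have the same `L^q` norm -/
lemma lintegral_rot (hW : IsIsonormal P W) (s : Finset H) (a : H → ℝ) (q θ : ℝ) :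
    ∫⁻ x, ∫⁻ y, ‖∑ h ∈ s, a h * (ex W (cos θ) h x * ex W (sin θ) h y)‖ₑ ^ q ∂P ∂P =
      ∫⁻ x, ‖∑ h ∈ s, a h * ex W 1 h x‖ₑ ^ q ∂P := by
  have hΦ : Measurable fun ξ : s → ℝ =>
      ‖∑ h : s, a h * exp (ξ h - ‖(h : H)‖ ^ 2 / 2)‖ₑ ^ q := by fun_prop
  have h1 := hW.rotation_lintegral_fst (fun h : s => (h : H)) θ hΦ
  have e1 : ∀ x y, ∑ h ∈ s, a h * (ex W (cos θ) h x * ex W (sin θ) h y) =
      ∑ h : s, a h * exp ((cos θ * W (h : H) x + sin θ * W (h : H) y) - ‖(h : H)‖ ^ 2 / 2) := by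
    intro x y
    rw [← Finset.sum_coe_sort s (fun h => a h * (ex W (cos θ) h x * ex W (sin θ) h y))]
    refine Finset.sum_congr rfl fun h _ => ?_
    have := ex_rot (W := W) 1 θ (h : H) x y
    simp only [one_mul, one_pow] at this
    rw [this]
  have e2 : ∀ x, ∑ h ∈ s, a h * ex W 1 h x = ∑ h : s, a h * exp (W (h : H) x - ‖(h : H)‖ ^ 2 / 2) := by
    intro x
    rw [← Finset.sum_coe_sort s (fun h => a h * ex W 1 h x)]
    refine Finset.sum_congr rfl fun h _ => ?_
    simp [ex]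
  simp_rw [e1, e2]
  exact h1

lemma measurable_rot (hW : IsIsonormal P W) (s : Finset H) (a : H → ℝ) :
    Measurable fun z : Ω × Ω × ℝ =>
      ∑ h ∈ s, a h * (ex W (cos z.2.2) h z.1 * ex W (sin z.2.2) h z.2.1) := by
  refine Finset.measurable_sum _ fun h _ => ?_
  have := hW.measurable h
  unfold ex
  fun_prop

lemma measurable_rot' (hW : IsIsonormal P W) (s : Finset H) (a : H → ℝ) {α : Type*}
    [MeasurableSpace α] {u v : α → Ω} {w : α → ℝ} (hu : Measurable u) (hv : Measurable v)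
    (hw : Measurable w) :
    Measurable fun z : α =>
      ∑ h ∈ s, a h * (ex W (cos (w z)) h (u z) * ex W (sin (w z)) h (v z)) := by
  refine Finset.measurable_sum _ fun h _ => ?_
  have h1 := hW.measurable h
  unfold ex
  fun_prop

/-- the integral over `θ` of bounded families -/
lemma integrable_ex_νs (hW : IsIsonormal P W) (h : H) (x : Ω) :
    Integrable (fun θ => ex W (cos θ) h x) νs := by
  refine (integrable_const (exp |W h x|)).mono' ?_ (Filter.Eventually.of_forall fun θ => ?_)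
  · exact ((hW.measurable_ex_uncurry h).comp
      (measurable_cos.prodMk measurable_const)).aestronglyMeasurable
  · rw [Real.norm_of_nonneg (ex_pos _ _ _).le]
    exact ex_le (abs_cos_le_one θ) h x

lemma integrable_ex_νc (hW : IsIsonormal P W) (h : H) (x : Ω) :
    Integrable (fun θ => sin θ * ex W (cos θ) h x) νc := by
  refine (integrable_const (exp |W h x|)).mono' ?_ (Filter.Eventually.of_forall fun θ => ?_)
  · exact (measurable_sin.mul ((hW.measurable_ex_uncurry h).comp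
      (measurable_cos.prodMk measurable_const))).aestronglyMeasurable
  · rw [norm_mul, Real.norm_of_nonneg (ex_pos _ _ _).le, Real.norm_eq_abs]
    calc |sin θ| * ex W (cos θ) h x ≤ 1 * exp |W h x| :=
          mul_le_mul (abs_sin_le_one θ) (ex_le (abs_cos_le_one θ) h x) (ex_pos _ _ _).le
            zero_le_one
      _ = _ := one_mul _

/-- **`(1+N)⁻¹` is a contraction in `L^q`**, on exponential combinations. -/
theorem jf_bound (hW : IsIsonormal P W) (s : Finset H) (a : H → ℝ) {q : ℝ} (hq : 1 ≤ q) :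
    ∫⁻ x, ‖∑ h ∈ s, a h * jf W h x‖ₑ ^ q ∂P ≤ ∫⁻ x, ‖∑ h ∈ s, a h * ex W 1 h x‖ₑ ^ q ∂P := by
  have hp := hW.isProbabilityMeasure
  have h1 := avg_bound (P := P) (ν := νs) (q := q)
    (f := fun x y θ => ∑ h ∈ s, a h * (ex W (cos θ) h x * ex W (sin θ) h y))
    (hW.measurable_rot s a) hq (fun θ => (hW.lintegral_rot s a q θ).le)
  have e : ∀ x, ∫ θ, ∫ y, ∑ h ∈ s, a h * (ex W (cos θ) h x * ex W (sin θ) h y) ∂P ∂νs =
      ∑ h ∈ s, a h * jf W h x := by
    intro x
    simp_rw [hW.integral_rot]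
    rw [integral_finsetSum]
    · exact Finset.sum_congr rfl fun h _ => by rw [integral_const_mul, jf]
    · intro h _
      exact (hW.integrable_ex_νs h x).const_mul _
  simpa only [e] using h1

/-- the vector `∇(1+N)⁻¹ F` -/
noncomputable def Kv (W : H → Ω → ℝ) (s : Finset H) (a : H → ℝ) (x : Ω) : H :=
  ∑ h ∈ s, (a h * kf W h x) • h

lemma Kv_inner (hW : IsIsonormal P W) (s : Finset H) (a : H → ℝ) (x : Ω) (k : H) :
    ⟪k, Kv W s a x⟫_ℝ =
      ∫ θ, ∫ y, W k y * ∑ h ∈ s, a h * (ex W (cos θ) h x * ex W (sin θ) h y) ∂P ∂νc := by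
  simp_rw [hW.integral_W_rot]
  rw [integral_finsetSum]
  · rw [Kv, inner_sum]
    refine Finset.sum_congr rfl fun h _ => ?_
    rw [integral_const_mul, real_inner_smul_right, kf_eq]
    ring
  · intro h _
    exact (hW.integrable_ex_νc h x).const_mul _

/-- **`∇(1+N)⁻¹` is bounded in `L^q`**, on exponential combinations. -/
theorem Kv_bound (hW : IsIsonormal P W) (s : Finset H) (a : H → ℝ) {q q' : ℝ}
    (hq : q'.HolderConjugate q) :
    ∫⁻ x, ‖Kv W s a x‖ₑ ^ q ∂P ≤
      (gmom q') ^ (q / q') * ∫⁻ x, ‖∑ h ∈ s, a h * ex W 1 h x‖ₑ ^ q ∂P := by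
  have hp := hW.isProbabilityMeasure
  have hq1 : 1 < q := hq.symm.lt
  have hq0 : 0 < q := by linarith
  have hq'0 : 0 < q' := hq.pos
  have hmeas := hW.measurable_rot s a
  have key : ∀ x, ‖Kv W s a x‖ₑ ^ q ≤ (gmom q') ^ (q / q') *
      ∫⁻ θ, ∫⁻ y, ‖∑ h ∈ s, a h * (ex W (cos θ) h x * ex W (sin θ) h y)‖ₑ ^ q ∂P ∂νc := by
    intro x
    set u := Kv W s a x with hu
    by_cases hu0 : u = 0
    · rw [hu0]
      simp [hq0]
    have hun : ‖u‖ ≠ 0 := norm_ne_zero_iff.2 hu0
    set k : H := (‖u‖⁻¹ : ℝ) • u with hk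
    have hkn : ‖k‖ = 1 := by
      rw [hk, norm_smul, norm_inv, norm_norm, inv_mul_cancel₀ hun]
    have hku : ⟪k, u⟫_ℝ = ‖u‖ := by
      rw [hk, real_inner_smul_left, real_inner_self_eq_norm_sq]
      field_simp
    have h1 : ‖u‖ₑ ≤ ∫⁻ z : ℝ × Ω, ‖W k z.2‖ₑ *
        ‖∑ h ∈ s, a h * (ex W (cos z.1) h x * ex W (sin z.1) h z.2)‖ₑ ∂(νc.prod P) := by
      have h2 : ‖u‖ₑ = ‖⟪k, u⟫_ℝ‖ₑ := by rw [hku]; simp
      rw [h2, hu, hW.Kv_inner]
      refine (enorm_integral_le_lintegral_enorm _).trans ?_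
      rw [lintegral_prod]
      · refine lintegral_mono fun θ => ?_
        refine (enorm_integral_le_lintegral_enorm _).trans ?_
        exact lintegral_mono fun y => by rw [enorm_mul]
      · have h3 : Measurable fun z : ℝ × Ω =>
            ∑ h ∈ s, a h * (ex W (cos z.1) h x * ex W (sin z.1) h z.2) :=
          hW.measurable_rot' s a measurable_const measurable_snd measurable_fst
        exact (((hW.measurable k).comp measurable_snd).enorm.mul h3.enorm).aemeasurable
    have h3 : Measurable fun z : ℝ × Ω =>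
        ∑ h ∈ s, a h * (ex W (cos z.1) h x * ex W (sin z.1) h z.2) :=
      hW.measurable_rot' s a measurable_const measurable_snd measurable_fst
    have h4 := ENNReal.lintegral_mul_le_Lp_mul_Lq (νc.prod P) hq
      (f := fun z => ‖W k z.2‖ₑ)
      (g := fun z => ‖∑ h ∈ s, a h * (ex W (cos z.1) h x * ex W (sin z.1) h z.2)‖ₑ)
      ((hW.measurable k).comp measurable_snd).enorm.aemeasurable h3.enorm.aemeasurable
    have h5 : ∫⁻ z : ℝ × Ω, ‖W k z.2‖ₑ ^ q' ∂(νc.prod P) = gmom q' := by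
      rw [lintegral_prod (fun z : ℝ × Ω => ‖W k z.2‖ₑ ^ q')
        (((hW.measurable k).comp measurable_snd).enorm.pow_const _).aemeasurable]
      simp only [lintegral_const, measure_univ, mul_one]
      rw [hW.lintegral_W_rpow k hq'0.le, gmom]
      have : ‖k‖ₑ = 1 := by
        rw [← ofReal_norm, hkn, ENNReal.ofReal_one]
      rw [this, ENNReal.one_rpow, one_mul]
    have h6 : ∫⁻ z : ℝ × Ω,
        ‖∑ h ∈ s, a h * (ex W (cos z.1) h x * ex W (sin z.1) h z.2)‖ₑ ^ q ∂(νc.prod P) =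
        ∫⁻ θ, ∫⁻ y, ‖∑ h ∈ s, a h * (ex W (cos θ) h x * ex W (sin θ) h y)‖ₑ ^ q ∂P ∂νc := by
      rw [lintegral_prod _ (h3.enorm.pow_const _).aemeasurable]
    simp only [Pi.mul_apply] at h4
    rw [h5, h6] at h4
    calc ‖u‖ₑ ^ q ≤ (gmom q' ^ (1 / q') * (∫⁻ θ, ∫⁻ y,
          ‖∑ h ∈ s, a h * (ex W (cos θ) h x * ex W (sin θ) h y)‖ₑ ^ q ∂P ∂νc) ^ (1 / q)) ^ q :=
          ENNReal.rpow_le_rpow (h1.trans h4) hq0.le
      _ = _ := by
          rw [ENNReal.mul_rpow_of_nonneg _ _ hq0.le, ← ENNReal.rpow_mul, ← ENNReal.rpow_mul,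
            one_div_mul_cancel hq0.ne', ENNReal.rpow_one]
          congr 2
          ring
  calc ∫⁻ x, ‖Kv W s a x‖ₑ ^ q ∂P ≤ ∫⁻ x, (gmom q') ^ (q / q') *
      ∫⁻ θ, ∫⁻ y, ‖∑ h ∈ s, a h * (ex W (cos θ) h x * ex W (sin θ) h y)‖ₑ ^ q ∂P ∂νc ∂P :=
        lintegral_mono key
    _ = (gmom q') ^ (q / q') * ∫⁻ x,
      ∫⁻ θ, ∫⁻ y, ‖∑ h ∈ s, a h * (ex W (cos θ) h x * ex W (sin θ) h y)‖ₑ ^ q ∂P ∂νc ∂P := by
        rw [lintegral_const_mul']
        exact ENNReal.rpow_ne_top_of_nonneg (by positivity) (gmom_lt_top hq'0).ne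
    _ = (gmom q') ^ (q / q') * ∫⁻ θ, ∫⁻ x, ∫⁻ y,
      ‖∑ h ∈ s, a h * (ex W (cos θ) h x * ex W (sin θ) h y)‖ₑ ^ q ∂P ∂P ∂νc := by
        congr 1
        rw [lintegral_lintegral_swap]
        have h3 : Measurable fun p : (Ω × ℝ) × Ω =>
            ‖∑ h ∈ s, a h * (ex W (cos p.1.2) h p.1.1 * ex W (sin p.1.2) h p.2)‖ₑ ^ q :=
          (hW.measurable_rot' s a measurable_fst.fst measurable_snd
            measurable_fst.snd).enorm.pow_const q
        exact h3.lintegral_prod_right'.aemeasurable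
    _ = _ := by
        simp_rw [hW.lintegral_rot]
        simp

end IsIsonormal

end Pool.Agent.Helper22.Mall
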