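import Pool.Agent.Helper22.Mall.Hermite

/-! The space `𝔻^∞` and the derivation `div A ∇` for a constant antisymmetric operator `A`. -/

namespace Pool.Agent.Helper22.Mall

open MeasureTheory ProbabilityTheory Real Filter
open scoped ENNReal NNReal Topology InnerProductSpace

set_option linter.unusedSectionVars false
set_option linter.unusedVariables false

variable {H : Type*} [NormedAddCommGroup H] [InnerProductSpace ℝ H]
variable {Ω : Type*} [MeasurableSpace Ω]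
variable {P : Measure Ω} {W : H → Ω → ℝ}

/-- `G = (1 - L)^k F`, where the Ornstein-Uhlenbeck operator `L` multiplies the `m`-th Wiener chaos
(the closed span of the Hermite functionals `He_m(W(h))`, `‖h‖ = 1`) by `-m`. -/
def IsPow (P : Measure Ω) (W : H → Ω → ℝ) (k : ℕ) (F G : Ω → ℝ) : Prop :=
  ∀ (m : ℕ) (h : H), ‖h‖ = 1 →
    ∫ ω, G ω * He W m h ω ∂P = ((m : ℝ) + 1) ^ k * ∫ ω, F ω * He W m h ω ∂P

lemma IsIsonormal.integrable_mul_He (hW : IsIsonormal P W) (F : Lp ℝ 2 P) (m : ℕ) (h : H) :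
    Integrable (fun ω => F ω * He W m h ω) P :=
  (Lp.memLp F).integrable_mul (hW.allLp_He m h).memLp_two

lemma IsPow.add (hW : IsIsonormal P W) {k : ℕ} {F G F' G' : Lp ℝ 2 P} (h : IsPow P W k F G)
    (h' : IsPow P W k F' G') : IsPow P W k (F + F' : Lp ℝ 2 P) (G + G' : Lp ℝ 2 P) := by
  intro m v hv
  have e : ∀ F F' : Lp ℝ 2 P, ∫ ω, (F + F' : Lp ℝ 2 P) ω * He W m v ω ∂P =
      ∫ ω, F ω * He W m v ω ∂P + ∫ ω, F' ω * He W m v ω ∂P := by
    intro F F'
    rw [← integral_add (hW.integrable_mul_He F m v) (hW.integrable_mul_He F' m v)]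
    refine integral_congr_ae ?_
    filter_upwards [Lp.coeFn_add F F'] with ω h1
    rw [h1, Pi.add_apply, add_mul]
  rw [e, e, h m v hv, h' m v hv]
  ring

lemma IsPow.smul (hW : IsIsonormal P W) {k : ℕ} (c : ℝ) {F G : Lp ℝ 2 P} (h : IsPow P W k F G) :
    IsPow P W k (c • F : Lp ℝ 2 P) (c • G : Lp ℝ 2 P) := by
  intro m v hv
  have e : ∀ F : Lp ℝ 2 P, ∫ ω, (c • F : Lp ℝ 2 P) ω * He W m v ω ∂P =
      c * ∫ ω, F ω * He W m v ω ∂P := by
    intro F
    rw [← integral_const_mul]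
    refine integral_congr_ae ?_
    filter_upwards [Lp.coeFn_smul c F] with ω h1
    rw [h1, Pi.smul_apply, smul_eq_mul, mul_assoc]
  rw [e, e, h m v hv]
  ring

/-- `F ∈ 𝔻^∞`: all `(1 - L)^k F` exist and belong to all `L^p`, `p < ∞`. -/
def IsSmooth (P : Measure Ω) (W : H → Ω → ℝ) (F : Lp ℝ 2 P) : Prop :=
  ∀ k : ℕ, ∃ G : Lp ℝ 2 P, AllLp P G ∧ IsPow P W k F G

lemma IsSmooth.add (hW : IsIsonormal P W) {F F' : Lp ℝ 2 P} (h : IsSmooth P W F)
    (h' : IsSmooth P W F') : IsSmooth P W (F + F') := by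
  intro k
  obtain ⟨G, h1, h2⟩ := h k
  obtain ⟨G', h1', h2'⟩ := h' k
  refine ⟨G + G', ?_, h2.add hW h2'⟩
  exact (h1.add h1').congr (by
    filter_upwards [Lp.coeFn_add G G'] with ω h3
    rw [h3, Pi.add_apply])

lemma IsSmooth.zero : IsSmooth P W 0 := by
  intro k
  refine ⟨0, fun p => ?_, ?_⟩
  · have h0 : MemLp (fun _ : Ω => (0 : ℝ)) p P := MemLp.zero'
    exact h0.ae_eq (Lp.coeFn_zero ℝ 2 P).symm
  · intro m v hv
    have e : ∫ ω, (0 : Lp ℝ 2 P) ω * He W m v ω ∂P = 0 := by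
      rw [← integral_zero Ω ℝ (μ := P)]
      refine integral_congr_ae ?_
      filter_upwards [Lp.coeFn_zero ℝ 2 P] with ω h1
      rw [h1]
      simp
    rw [e]
    simp

lemma IsSmooth.smul (hW : IsIsonormal P W) (c : ℝ) {F : Lp ℝ 2 P} (h : IsSmooth P W F) :
    IsSmooth P W (c • F) := by
  intro k
  obtain ⟨G, h1, h2⟩ := h k
  refine ⟨c • G, ?_, h2.smul hW c⟩
  exact (h1.const_mul c).congr (by
    filter_upwards [Lp.coeFn_smul c G] with ω h3
    rw [h3, Pi.smul_apply, smul_eq_mul])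

/-- The space `𝔻^∞` of smooth functionals: all `(1 - L)^k F` exist and belong to all `L^p`,
`p < ∞`. -/
def Dinf (hW : IsIsonormal P W) : Submodule ℝ (Lp ℝ 2 P) where
  carrier := {F | IsSmooth P W F}
  add_mem' := fun h h' => h.add hW h'
  zero_mem' := IsSmooth.zero
  smul_mem' := fun c _ h => h.smul hW c

/-- A `𝔻^∞`-derivation: a linear map `𝔻^∞ → 𝔻^∞` which is continuous for the topology defined by
the norms `‖(1 - L)^k F‖_{L^p}` and satisfies the Leibniz rule. -/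
structure IsDerivation (hW : IsIsonormal P W) (δ : Dinf hW → Dinf hW) : Prop where
  /-- `δ` is additive -/
  map_add : ∀ f g : Dinf hW, δ (f + g) = δ f + δ g
  /-- `δ` is homogeneous -/
  map_smul : ∀ (c : ℝ) (f : Dinf hW), δ (c • f) = c • δ f
  /-- every norm of `δ F` is bounded by a multiple of a norm of `F` -/
  continuous : ∀ (k : ℕ) (p : ℝ≥0), 1 ≤ p → ∃ (m : ℕ) (q C : ℝ≥0), 1 ≤ q ∧
    ∀ (F : Dinf hW) (G G' : Lp ℝ 2 P), IsPow P W k (δ F).1 G → IsPow P W m F.1 G' →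
      eLpNorm G p P ≤ C * eLpNorm G' q P
  /-- the Leibniz rule -/
  leibniz : ∀ f g u : Dinf hW, (u.1 : Ω → ℝ) =ᵐ[P] (fun ω => f.1 ω * g.1 ω) →
    ((δ u).1 : Ω → ℝ) =ᵐ[P] fun ω => f.1 ω * (δ g).1 ω + g.1 ω * (δ f).1 ω

namespace IsIsonormal

lemma integral_mul_He (hW : IsIsonormal P W) (F : Lp ℝ 2 P) (m : ℕ) (h : H) :
    ∫ ω, F ω * He W m h ω ∂P = ⟪F, hW.HeL m h⟫_ℝ := by
  rw [HeL, inner_toLp_right]

lemma ext_He (hW : IsIsonormal P W) (hgen : Generates P W) [Nontrivial H] {F G : Lp ℝ 2 P}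
    (h : ∀ (m : ℕ) (v : H), ‖v‖ = 1 → ⟪F, hW.HeL m v⟫_ℝ = ⟪G, hW.HeL m v⟫_ℝ) : F = G := by
  rw [← sub_eq_zero]
  refine hW.He_total hgen fun m v hv => ?_
  rw [hW.integral_mul_He, inner_sub_left, h m v hv, sub_self]

lemma pow_unique (hW : IsIsonormal P W) (hgen : Generates P W) [Nontrivial H] {k : ℕ}
    {F G G' : Lp ℝ 2 P} (h : IsPow P W k F G) (h' : IsPow P W k F G') : G = G' := by
  refine hW.ext_He hgen fun m v hv => ?_
  rw [← hW.integral_mul_He, ← hW.integral_mul_He, h m v hv, h' m v hv]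

lemma inner_J_HeL (hW : IsIsonormal P W) (hgen : Generates P W) (Q : Lp ℝ 2 P) (m : ℕ) {v : H}
    (hv : ‖v‖ = 1) : ((m : ℝ) + 1) * ⟪hW.J Q, hW.HeL m v⟫_ℝ = ⟪Q, hW.HeL m v⟫_ℝ := by
  rw [hW.J_symm hgen, hW.J_HeL hgen hv, real_inner_smul_right, ← mul_assoc]
  have : (m : ℝ) + 1 ≠ 0 := by positivity
  rw [mul_one_div_cancel this, one_mul]

lemma J_pow (hW : IsIsonormal P W) (hgen : Generates P W) [Nontrivial H] {k : ℕ}
    {F G G' : Lp ℝ 2 P} (h : IsPow P W k F G) (h' : IsPow P W (k + 1) F G') : hW.J G' = G := by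
  refine hW.ext_He hgen fun m v hv => ?_
  have h1 := hW.inner_J_HeL hgen G' m hv
  have h2 := h m v hv
  have h3 := h' m v hv
  rw [hW.integral_mul_He, hW.integral_mul_He] at h2 h3
  have h4 : (m : ℝ) + 1 ≠ 0 := by positivity
  rw [h3] at h1
  rw [h2]
  have h5 : ((m : ℝ) + 1) * ⟪hW.J G', hW.HeL m v⟫_ℝ =
      ((m : ℝ) + 1) * (((m : ℝ) + 1) ^ k * ⟪F, hW.HeL m v⟫_ℝ) := by
    rw [h1]; ring
  exact mul_left_cancel₀ h4 h5

/-- `(1 - L)^k F` for `F ∈ 𝔻^∞` -/
noncomputable def pw (hW : IsIsonormal P W) (k : ℕ) (F : Dinf hW) : Lp ℝ 2 P :=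
  Classical.choose (F.2 k)

lemma pw_allLp (hW : IsIsonormal P W) (k : ℕ) (F : Dinf hW) : AllLp P (hW.pw k F) :=
  (Classical.choose_spec (F.2 k)).1

lemma pw_isPow (hW : IsIsonormal P W) (k : ℕ) (F : Dinf hW) : IsPow P W k F.1 (hW.pw k F) :=
  (Classical.choose_spec (F.2 k)).2

lemma isPow_zero (F : Ω → ℝ) : IsPow P W 0 F F := fun m v hv => by simp

lemma pw_zero (hW : IsIsonormal P W) (hgen : Generates P W) [Nontrivial H] (F : Dinf hW) :
    hW.pw 0 F = F.1 :=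
  hW.pow_unique hgen (hW.pw_isPow 0 F) (isPow_zero _)

lemma allLp_Dinf (hW : IsIsonormal P W) (hgen : Generates P W) [Nontrivial H] (F : Dinf hW) :
    AllLp P F.1 := by
  rw [← hW.pw_zero hgen F]
  exact hW.pw_allLp 0 F

lemma J_pw (hW : IsIsonormal P W) (hgen : Generates P W) [Nontrivial H] (k : ℕ) (F : Dinf hW) :
    hW.J (hW.pw (k + 1) F) = hW.pw k F :=
  hW.J_pow hgen (hW.pw_isPow k F) (hW.pw_isPow (k + 1) F)

lemma JJ_pw (hW : IsIsonormal P W) (hgen : Generates P W) [Nontrivial H] (F : Dinf hW) :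
    hW.J (hW.J (hW.pw 2 F)) = F.1 := by
  rw [hW.J_pw hgen 1 F, hW.J_pw hgen 0 F, hW.pw_zero hgen]

lemma pw_add (hW : IsIsonormal P W) (hgen : Generates P W) [Nontrivial H] (k : ℕ)
    (F F' : Dinf hW) : hW.pw k (F + F') = hW.pw k F + hW.pw k F' :=
  hW.pow_unique hgen (hW.pw_isPow k (F + F')) ((hW.pw_isPow k F).add hW (hW.pw_isPow k F'))

lemma pw_smul (hW : IsIsonormal P W) (hgen : Generates P W) [Nontrivial H] (k : ℕ) (c : ℝ)
    (F : Dinf hW) : hW.pw k (c • F) = c • hW.pw k F :=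
  hW.pow_unique hgen (hW.pw_isPow k (c • F)) ((hW.pw_isPow k F).smul hW c)

lemma T_allLp (hW : IsIsonormal P W) (hgen : Generates P W) (A : H →L[ℝ] H)
    (hA : ∀ h, ⟪A h, h⟫_ℝ = 0) {G : Lp ℝ 2 P} (hG : AllLp P G) : AllLp P (hW.T A G) := by
  have hp := hW.isProbabilityMeasure
  intro p
  have h2 : (2 : ℝ) ≤ max 2 (p : ℝ) := le_max_left _ _
  have h1 := hW.T_bound hgen A hA h2 G (hG.of_ne_top (by simp)).eLpNorm_ne_top
  have h3 : MemLp (hW.T A G) (ENNReal.ofReal (max 2 (p : ℝ))) P := by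
    refine ⟨Lp.aestronglyMeasurable _, lt_of_le_of_lt h1 ?_⟩
    refine ENNReal.mul_lt_top (Tc_lt_top A ?_) (hG.of_ne_top (by simp)).2
    rw [lt_div_iff₀ (by linarith)]
    linarith
  refine h3.mono_exponent ?_
  rw [show ((p : ℝ≥0∞)) = ENNReal.ofReal (p : ℝ) by simp]
  exact ENNReal.ofReal_le_ofReal (le_max_right _ _)

lemma T_isPow (hW : IsIsonormal P W) (hgen : Generates P W) [Nontrivial H] (A : H →L[ℝ] H)
    (hA : ∀ h, ⟪A h, h⟫_ℝ = 0) (k : ℕ) (F : Dinf hW) :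
    IsPow P W k (hW.T A (hW.pw 2 F)) (hW.T A (hW.pw (k + 2) F)) := by
  induction k with
  | zero => exact isPow_zero _
  | succ k ih =>
    intro m v hv
    have h1 := ih m v hv
    rw [hW.integral_mul_He, hW.integral_mul_He] at h1 ⊢
    have h2 := hW.inner_J_HeL hgen (hW.T A (hW.pw (k + 1 + 2) F)) m hv
    rw [← h2, ← hW.T_J hgen A hA, show k + 1 + 2 = (k + 2) + 1 by ring, hW.J_pw hgen, h1]
    ring

/-- the derivation `div A ∇` on `𝔻^∞` -/
noncomputable def der (hW : IsIsonormal P W) (hgen : Generates P W) [Nontrivial H]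
    (A : H →L[ℝ] H) (hA : ∀ h, ⟪A h, h⟫_ℝ = 0) : Dinf hW →ₗ[ℝ] Dinf hW where
  toFun F := ⟨hW.T A (hW.pw 2 F), fun k => ⟨hW.T A (hW.pw (k + 2) F),
    hW.T_allLp hgen A hA (hW.pw_allLp _ F), hW.T_isPow hgen A hA k F⟩⟩
  map_add' F F' := by
    ext1
    simp only [Submodule.coe_add]
    rw [hW.pw_add hgen, map_add]
  map_smul' c F := by
    ext1
    simp only [Submodule.coe_smul, RingHom.id_apply]
    rw [hW.pw_smul hgen, map_smul]

lemma der_coe (hW : IsIsonormal P W) (hgen : Generates P W) [Nontrivial H]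
    (A : H →L[ℝ] H) (hA : ∀ h, ⟪A h, h⟫_ℝ = 0) (F : Dinf hW) :
    (hW.der hgen A hA F).1 = hW.T A (hW.pw 2 F) := rfl

/-- the weak characterisation -/
lemma inner_der (hW : IsIsonormal P W) (hgen : Generates P W) [Nontrivial H]
    (A : H →L[ℝ] H) (hA : ∀ h, ⟪A h, h⟫_ℝ = 0) (F : Dinf hW) (h : H) :
    ⟪(hW.der hgen A hA F).1, hW.expL h⟫_ℝ = -⟪F.1, hW.wL A h⟫_ℝ := by
  rw [der_coe, hW.inner_T_expL hgen A hA, hW.JJ_pw hgen]

/-- the weak Leibniz rule -/
lemma weak_leibniz (hW : IsIsonormal P W) (hgen : Generates P W) [Nontrivial H]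
    (A : H →L[ℝ] H) (hA : ∀ h, ⟪A h, h⟫_ℝ = 0) (f g : Dinf hW) (h : H) :
    ∫ ω, (f.1 ω * (hW.der hgen A hA g).1 ω + g.1 ω * (hW.der hgen A hA f).1 ω) * ex W 1 h ω ∂P =
      -∫ ω, (f.1 ω * g.1 ω) * (W (A h) ω * ex W 1 h ω) ∂P := by
  have hp := hW.isProbabilityMeasure
  set a := f.1 with ha
  set a' := (hW.der hgen A hA f).1 with ha'
  have hfa : AllLp P a := hW.allLp_Dinf hgen f
  have hfa' : AllLp P a' := hW.allLp_Dinf hgen _
  have hga : AllLp P g.1 := hW.allLp_Dinf hgen g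
  have hga' : AllLp P (hW.der hgen A hA g).1 := hW.allLp_Dinf hgen _
  have hα : AllLp P (fun ω => a ω * (W (A h) ω * ex W 1 h ω) + a' ω * ex W 1 h ω) :=
    (hfa.mul (hW.allLp_wf A h)).add (hfa'.mul (hW.allLp_ex 1 h))
  have hβ : AllLp P (fun ω => a ω * ex W 1 h ω) := hfa.mul (hW.allLp_ex 1 h)
  set α : Lp ℝ 2 P := hα.memLp_two.toLp _ with hαdef
  set β : Lp ℝ 2 P := hβ.memLp_two.toLp _ with hβdef
  have key : ∀ G : Lp ℝ 2 P, ⟪α, hW.J (hW.J G)⟫_ℝ = -⟪β, hW.T A G⟫_ℝ := by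
    have h1 : (innerSL ℝ α).comp (hW.J.comp hW.J) = -(innerSL ℝ β).comp (hW.T A) := by
      refine hW.clm_ext hgen fun k => ?_
      simp only [ContinuousLinearMap.comp_apply, innerSL_apply_apply, neg_apply]
      rw [← hW.J_symm hgen, ← hW.J_symm hgen, hW.inner_JJ_expL hgen, hW.T_expL hgen A hA,
        hW.inner_tL, ← integral_neg]
      refine integral_congr_ae (Filter.Eventually.of_forall fun θ => ?_)
      simp only
      rw [← integral_neg]
      refine integral_congr_ae (Filter.Eventually.of_forall fun φ => ?_)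
      simp only
      set k' : H := (cos θ * cos φ) • k with hk'
      -- the relation for `h + k'`
      have h2 := hW.inner_der hgen A hA f (h + k')
      rw [← ha, ← ha', expL, wL, inner_toLp_right, inner_toLp_right] at h2
      rw [expL, wL, hαdef, hβdef, inner_toLp, inner_toLp]
      have i1 : Integrable (fun ω => a ω * (W (A (h + k')) ω * ex W 1 (h + k') ω)) P :=
        (hfa.mul (hW.allLp_wf A (h + k'))).integrable
      have i2 : Integrable (fun ω => a' ω * ex W 1 (h + k') ω) P :=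
        (hfa'.mul (hW.allLp_ex 1 (h + k'))).integrable
      have i3 : Integrable (fun ω => (a ω * (W (A h) ω * ex W 1 h ω) + a' ω * ex W 1 h ω) *
          ex W 1 k' ω) P := (hα.mul (hW.allLp_ex 1 k')).integrable
      have i4 : Integrable (fun ω => a ω * ex W 1 h ω * (W (A k') ω * ex W 1 k' ω)) P :=
        (hβ.mul (hW.allLp_wf A k')).integrable
      rw [← sub_eq_zero, sub_neg_eq_add, ← integral_add i3 i4]
      have e : (fun ω => (a ω * (W (A h) ω * ex W 1 h ω) + a' ω * ex W 1 h ω) * ex W 1 k' ω +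
          a ω * ex W 1 h ω * (W (A k') ω * ex W 1 k' ω)) =ᵐ[P] fun ω =>
          exp ⟪h, k'⟫_ℝ * (a ω * (W (A (h + k')) ω * ex W 1 (h + k') ω) +
            a' ω * ex W 1 (h + k') ω) := by
        filter_upwards [hW.ex_mul_ex h k', hW.add (A h) (A k')] with ω e1 e2
        rw [map_add, e2, Pi.add_apply]
        linear_combination (a ω * (W (A h) ω + W (A k') ω) + a' ω) * e1
      rw [integral_congr_ae e, integral_const_mul, integral_add i1 i2, h2]
      ring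
    intro G
    exact congrArg (fun L => L G) h1
  have h3 := key (hW.pw 2 g)
  rw [hW.JJ_pw hgen, ← hW.der_coe hgen A hA g, hαdef, hβdef, real_inner_comm,
    inner_toLp_right, real_inner_comm, inner_toLp_right] at h3
  have i5 : Integrable (fun ω => g.1 ω * (a ω * (W (A h) ω * ex W 1 h ω) + a' ω * ex W 1 h ω)) P :=
    (hga.mul hα).integrable
  have i6 : Integrable (fun ω => (f.1 ω * (hW.der hgen A hA g).1 ω + g.1 ω *
      (hW.der hgen A hA f).1 ω) * ex W 1 h ω) P :=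
    (((hfa.mul hga').add (hga.mul hfa')).mul (hW.allLp_ex 1 h)).integrable
  have i7 : Integrable (fun ω => (f.1 ω * g.1 ω) * (W (A h) ω * ex W 1 h ω)) P :=
    ((hfa.mul hga).mul (hW.allLp_wf A h)).integrable
  have i8 : Integrable (fun ω => (hW.der hgen A hA g).1 ω * (a ω * ex W 1 h ω)) P :=
    (hga'.mul hβ).integrable
  rw [← sub_eq_zero, sub_neg_eq_add, ← integral_add i6 i7]
  rw [← sub_eq_zero, sub_neg_eq_add, ← integral_add i5 i8] at h3
  rw [← h3]
  refine integral_congr_ae (Filter.Eventually.of_forall fun ω => ?_)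
  simp only
  rw [← ha, ← ha']
  ring

theorem der_isDerivation (hW : IsIsonormal P W) (hgen : Generates P W) [Nontrivial H]
    (A : H →L[ℝ] H) (hA : ∀ h, ⟪A h, h⟫_ℝ = 0) : IsDerivation hW (hW.der hgen A hA) := by
  have hp := hW.isProbabilityMeasure
  refine ⟨fun f g => map_add (hW.der hgen A hA) f g,
    fun c f => map_smul (hW.der hgen A hA) c f, ?_, ?_⟩
  · intro k p hp1
    have h2 : (2 : ℝ) ≤ max 2 (p : ℝ) := le_max_left _ _
    have hc : Tc A (max 2 (p : ℝ) / (max 2 (p : ℝ) - 1)) < ∞ := by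
      refine Tc_lt_top A ?_
      rw [lt_div_iff₀ (by linarith)]
      linarith
    refine ⟨k + 2, max 2 p, (Tc A (max 2 (p : ℝ) / (max 2 (p : ℝ) - 1))).toNNReal,
      le_trans hp1 (le_max_right _ _), fun F G G' hG hG' => ?_⟩
    have e1 : G = hW.T A (hW.pw (k + 2) F) :=
      hW.pow_unique hgen hG (hW.T_isPow hgen A hA k F)
    have e2 : G' = hW.pw (k + 2) F := hW.pow_unique hgen hG' (hW.pw_isPow _ F)
    rw [ENNReal.coe_toNNReal hc.ne, e1, e2]
    have e3 : ((max 2 p : ℝ≥0) : ℝ≥0∞) = ENNReal.ofReal (max 2 (p : ℝ)) := by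
      rw [← ENNReal.ofReal_coe_nnreal]
      simp
    rw [e3]
    refine le_trans ?_ (hW.T_bound hgen A hA h2 _
      ((hW.pw_allLp _ F).of_ne_top (by simp)).eLpNorm_ne_top)
    refine eLpNorm_le_eLpNorm_of_exponent_le ?_ (Lp.aestronglyMeasurable _)
    rw [← e3]
    exact_mod_cast le_max_right _ _
  · intro f g u hu
    have hfa : AllLp P f.1 := hW.allLp_Dinf hgen f
    have hga : AllLp P g.1 := hW.allLp_Dinf hgen g
    have hfa' : AllLp P (hW.der hgen A hA f).1 := hW.allLp_Dinf hgen _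
    have hga' : AllLp P (hW.der hgen A hA g).1 := hW.allLp_Dinf hgen _
    have hR : AllLp P (fun ω => f.1 ω * (hW.der hgen A hA g).1 ω +
        g.1 ω * (hW.der hgen A hA f).1 ω) := (hfa.mul hga').add (hga.mul hfa')
    have e : (hW.der hgen A hA u).1 = hR.memLp_two.toLp _ := by
      refine hW.ext_inner hgen fun h => ?_
      rw [hW.inner_der hgen A hA u h, wL, expL, inner_toLp_right, inner_toLp,
        hW.weak_leibniz hgen A hA f g h]
      congr 1
      refine integral_congr_ae ?_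
      filter_upwards [hu] with ω h1
      rw [h1]
    rw [e]
    exact hR.memLp_two.coeFn_toLp

/-! ### first chaos -/

noncomputable def WL (hW : IsIsonormal P W) (h : H) : Lp ℝ 2 P :=
  (hW.allLp_W h).memLp_two.toLp _

lemma inner_WL_expL (hW : IsIsonormal P W) (h k : H) : ⟪hW.WL h, hW.expL k⟫_ℝ = ⟪h, k⟫_ℝ := by
  rw [WL, expL, inner_toLp, hW.integral_W_mul_ex]

lemma J_WL (hW : IsIsonormal P W) (hgen : Generates P W) (h : H) :
    hW.J (hW.WL h) = (1 / 2 : ℝ) • hW.WL h := by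
  refine hW.ext_inner hgen fun k => ?_
  rw [hW.inner_J_expL hgen, real_inner_smul_left, hW.inner_WL_expL]
  simp_rw [hW.inner_WL_expL, real_inner_smul_right]
  rw [integral_mul_const]
  have := integral_cos_pow_νs 1
  simp only [pow_one, Nat.cast_one] at this
  rw [this]
  norm_num

lemma WL_isPow (hW : IsIsonormal P W) (hgen : Generates P W) (h : H) (k : ℕ) :
    IsPow P W k (hW.WL h) ((2 ^ k : ℝ) • hW.WL h : Lp ℝ 2 P) := by
  intro m v hv
  rw [hW.integral_mul_He, hW.integral_mul_He, real_inner_smul_left]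
  have h1 := hW.inner_J_HeL hgen (hW.WL h) m hv
  rw [hW.J_WL hgen, real_inner_smul_left] at h1
  have h2 : ((m : ℝ) + 1) * ⟪hW.WL h, hW.HeL m v⟫_ℝ = 2 * ⟪hW.WL h, hW.HeL m v⟫_ℝ := by
    linarith
  induction k with
  | zero => simp
  | succ k ih =>
    rw [pow_succ, pow_succ, mul_assoc, ← h2, ← mul_assoc, mul_comm ((2 : ℝ) ^ k), mul_assoc, ih]
    ring

lemma WL_mem (hW : IsIsonormal P W) (hgen : Generates P W) (h : H) : hW.WL h ∈ Dinf hW := by
  intro k
  refine ⟨(2 ^ k : ℝ) • hW.WL h, ?_, hW.WL_isPow hgen h k⟩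
  refine ((hW.allLp_W h).const_mul (2 ^ k)).congr ?_
  filter_upwards [Lp.coeFn_smul ((2 : ℝ) ^ k) (hW.WL h),
    (hW.allLp_W h).memLp_two.coeFn_toLp] with ω h1 h2
  rw [h1, Pi.smul_apply, WL, h2, smul_eq_mul]

lemma integral_W_W_ex (hW : IsIsonormal P W) (h g k : H) :
    ∫ ω, W h ω * (W g ω * ex W 1 k ω) ∂P = ⟪h, g⟫_ℝ + ⟪h, k⟫_ℝ * ⟪g, k⟫_ℝ := by
  have hp := hW.isProbabilityMeasure
  have sq : ∀ u : H, ∫ ω, W u ω ^ 2 * ex W 1 k ω ∂P = ‖u‖ ^ 2 + ⟪u, k⟫_ℝ ^ 2 := by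
    intro u
    have h1 := hW.ibp_pow u k 1
    simp only [pow_one, Nat.sub_self, pow_zero, one_mul, Nat.cast_one] at h1
    rw [show (1 : ℕ) + 1 = 2 by norm_num] at h1
    rw [h1, hW.integral_W_mul_ex, hW.integral_ex]
    ring
  have i : ∀ u : H, Integrable (fun ω => W u ω ^ 2 * ex W 1 k ω) P := fun u =>
    (((hW.allLp_W u).pow 2).mul (hW.allLp_ex 1 k)).integrable
  have e : (fun ω => W h ω * (W g ω * ex W 1 k ω)) =ᵐ[P] fun ω =>
      (1 / 2 : ℝ) * (W (h + g) ω ^ 2 * ex W 1 k ω - W h ω ^ 2 * ex W 1 k ω -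
        W g ω ^ 2 * ex W 1 k ω) := by
    filter_upwards [hW.add h g] with ω h1
    rw [h1, Pi.add_apply]
    ring
  have i' : Integrable (fun ω => W (h + g) ω ^ 2 * ex W 1 k ω - W h ω ^ 2 * ex W 1 k ω) P :=
    (i _).sub (i _)
  rw [integral_congr_ae e, integral_const_mul, integral_sub i' (i _),
    integral_sub (i _) (i _), sq, sq, sq, @norm_add_sq_real, inner_add_left]
  ring

/-- `δ W(h) = W(A h)` -/
theorem der_WL (hW : IsIsonormal P W) (hgen : Generates P W) [Nontrivial H]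
    (A : H →L[ℝ] H) (hA : ∀ h, ⟪A h, h⟫_ℝ = 0) (h : H) :
    (hW.der hgen A hA ⟨hW.WL h, hW.WL_mem hgen h⟩).1 = hW.WL (A h) := by
  refine hW.ext_inner hgen fun k => ?_
  rw [hW.inner_der hgen A hA, hW.inner_WL_expL]
  simp only
  rw [WL, wL, inner_toLp, hW.integral_W_W_ex, hA]
  rw [antisymm hA h k, real_inner_comm]
  ring

end IsIsonormal

end Pool.Agent.Helper22.Mall
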