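import Pool.Agent.Helper22.Mall.Alg

/-! `L^p` bounds, `p ≥ 2`, by duality. -/

namespace Pool.Agent.Helper22.Mall

open MeasureTheory ProbabilityTheory Real Filter
open scoped ENNReal NNReal Topology InnerProductSpace

set_option linter.unusedSectionVars false
set_option linter.unusedVariables false

variable {H : Type*} [NormedAddCommGroup H] [InnerProductSpace ℝ H]
variable {Ω : Type*} [MeasurableSpace Ω]
variable {P : Measure Ω} {W : H → Ω → ℝ}

lemma continuous_eLpNorm [IsProbabilityMeasure P] {q : ℝ≥0∞} (h1 : 1 ≤ q) (h2 : q ≤ 2) :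
    Continuous fun Q : Lp ℝ 2 P => (eLpNorm Q q P).toReal := by
  have hfin : ∀ Q : Lp ℝ 2 P, eLpNorm Q q P ≠ ∞ := fun Q =>
    ((Lp.memLp Q).mono_exponent h2).eLpNorm_ne_top
  have key : ∀ Q R : Lp ℝ 2 P, (eLpNorm Q q P).toReal ≤ (eLpNorm R q P).toReal + ‖Q - R‖ := by
    intro Q R
    have e1 : eLpNorm Q q P ≤ eLpNorm R q P + eLpNorm (⇑(Q - R)) q P := by
      have h3 : (Q : Ω → ℝ) =ᵐ[P] (R : Ω → ℝ) + ⇑(Q - R) := by
        filter_upwards [Lp.coeFn_sub Q R] with x hx
        rw [Pi.add_apply, hx, Pi.sub_apply]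
        ring
      rw [eLpNorm_congr_ae h3]
      exact eLpNorm_add_le (Lp.aestronglyMeasurable R) (Lp.aestronglyMeasurable _) h1
    have e2 : eLpNorm (⇑(Q - R)) q P ≤ eLpNorm (⇑(Q - R)) 2 P :=
      eLpNorm_le_eLpNorm_of_exponent_le h2 (Lp.aestronglyMeasurable _)
    rw [Lp.norm_def, ← ENNReal.toReal_add (hfin R) (Lp.eLpNorm_ne_top _)]
    exact ENNReal.toReal_mono (ENNReal.add_ne_top.2 ⟨hfin R, Lp.eLpNorm_ne_top _⟩)
      (e1.trans (add_le_add le_rfl e2))
  refine LipschitzWith.continuous (K := 1) (LipschitzWith.of_dist_le_mul fun Q R => ?_)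
  rw [NNReal.coe_one, one_mul, Real.dist_eq, dist_eq_norm, abs_le]
  constructor
  · have := key R Q
    rw [norm_sub_rev] at this
    linarith
  · have := key Q R
    linarith

/-- duality: a functional bound on `L^q`, `q ≤ 2`, gives membership in `L^p` -/
theorem eLpNorm_le_of_dual [IsProbabilityMeasure P] {p q : ℝ} (hpq : p.HolderConjugate q)
    (hp : 2 ≤ p) (D : Lp ℝ 2 P) {M : ℝ} (hM0 : 0 ≤ M)
    (hM : ∀ Q : Lp ℝ 2 P, |⟪D, Q⟫_ℝ| ≤ M * (eLpNorm Q (ENNReal.ofReal q) P).toReal) :
    eLpNorm D (ENNReal.ofReal p) P ≤ ENNReal.ofReal M := by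
  have hp0 : 0 < p := by linarith
  have hq0 : 0 < q := hpq.symm.pos
  set Dm : Ω → ℝ := (Lp.aestronglyMeasurable D).mk D with hDm
  have hDD : (D : Ω → ℝ) =ᵐ[P] Dm := (Lp.aestronglyMeasurable D).ae_eq_mk
  have hm : Measurable Dm := (Lp.aestronglyMeasurable D).stronglyMeasurable_mk.measurable
  -- truncated moments
  have key : ∀ N : ℕ, ∫⁻ x, ({x | |Dm x| ≤ N}.indicator (fun x => ‖Dm x‖ₑ ^ p)) x ∂P ≤
      ENNReal.ofReal (M ^ p) := by
    intro N
    set S : Set Ω := {x | |Dm x| ≤ N} with hS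
    have hSm : MeasurableSet S := measurableSet_le hm.abs measurable_const
    set φ : Ω → ℝ := S.indicator (fun x => SignType.sign (Dm x) * |Dm x| ^ (p - 1)) with hφ
    have hφm : Measurable φ := by
      refine Measurable.indicator ?_ hSm
      refine Measurable.mul ?_ (hm.abs.pow_const _)
      have h1 : (fun x => ((SignType.sign (Dm x) : SignType) : ℝ)) =
          fun x => if 0 < Dm x then 1 else if Dm x < 0 then -1 else 0 := by
        funext x
        rcases lt_trichotomy (Dm x) 0 with h | h | h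
        · simp [h, h.not_gt]
        · simp [h]
        · simp [h]
      rw [h1]
      exact Measurable.ite (measurableSet_lt measurable_const hm) measurable_const
        (Measurable.ite (measurableSet_lt hm measurable_const) measurable_const measurable_const)
    have habs : ∀ x, |φ x| = S.indicator (fun x => |Dm x| ^ (p - 1)) x := by
      intro x
      by_cases hx : x ∈ S
      · rw [hφ, Set.indicator_of_mem hx, Set.indicator_of_mem hx, abs_mul,
          abs_of_nonneg (rpow_nonneg (abs_nonneg _) _)]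
        rcases lt_trichotomy (Dm x) 0 with h | h | h
        · simp [h]
        · rw [h, abs_zero, zero_rpow (by linarith)]
          simp
        · simp [h]
      · rw [hφ, Set.indicator_of_notMem hx, Set.indicator_of_notMem hx, abs_zero]
    have hbd : ∀ x, |φ x| ≤ (N : ℝ) ^ (p - 1) := by
      intro x
      rw [habs]
      by_cases hx : x ∈ S
      · rw [Set.indicator_of_mem hx]
        exact rpow_le_rpow (abs_nonneg _) hx (by linarith)
      · rw [Set.indicator_of_notMem hx]
        positivity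
    have hφL : MemLp φ 2 P := (memLp_const ((N : ℝ) ^ (p - 1))).mono hφm.aestronglyMeasurable
      (Filter.Eventually.of_forall fun x => by
        rw [Real.norm_eq_abs, Real.norm_of_nonneg (by positivity)]
        exact hbd x)
    set ψ : Ω → ℝ := S.indicator (fun x => |Dm x| ^ p) with hψ
    have hψm : Measurable ψ := (hm.abs.pow_const _).indicator hSm
    have hψ0 : ∀ x, 0 ≤ ψ x := fun x => Set.indicator_nonneg (fun _ _ => by positivity) x
    have hψb : ∀ x, ψ x ≤ (N : ℝ) ^ p := by
      intro x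
      by_cases hx : x ∈ S
      · rw [hψ, Set.indicator_of_mem hx]
        exact rpow_le_rpow (abs_nonneg _) hx hp0.le
      · rw [hψ, Set.indicator_of_notMem hx]
        positivity
    have hψi : Integrable ψ P := (integrable_const ((N : ℝ) ^ p)).mono' hψm.aestronglyMeasurable
      (Filter.Eventually.of_forall fun x => by
        rw [Real.norm_of_nonneg (hψ0 x)]; exact hψb x)
    have hDφ : ∀ x, Dm x * φ x = ψ x := by
      intro x
      by_cases hx : x ∈ S
      · rw [hφ, hψ, Set.indicator_of_mem hx, Set.indicator_of_mem hx]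
        have h3 : Dm x * (((SignType.sign (Dm x) : SignType) : ℝ) * |Dm x| ^ (p - 1)) =
            |Dm x| * |Dm x| ^ (p - 1) := by
          rw [← mul_assoc]
          congr 1
          rcases lt_trichotomy (Dm x) 0 with h | h | h
          · simp [h, abs_of_neg h]
          · simp [h]
          · simp [h, abs_of_pos h]
        rw [h3]
        rcases (abs_nonneg (Dm x)).eq_or_lt with h | h
        · rw [← h, zero_rpow hp0.ne', zero_mul]
        · rw [← rpow_one_add' h.le (by linarith)]
          congr 1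
          ring
      · rw [hφ, hψ, Set.indicator_of_notMem hx, Set.indicator_of_notMem hx, mul_zero]
    set I : ℝ := ∫ x, ψ x ∂P with hI
    have hI0 : 0 ≤ I := integral_nonneg hψ0
    have h1 : ⟪D, hφL.toLp φ⟫_ℝ = I := by
      rw [inner_toLp_right, hI]
      refine integral_congr_ae ?_
      filter_upwards [hDD] with x hx
      rw [hx, hDφ]
    have h2 : eLpNorm (hφL.toLp φ) (ENNReal.ofReal q) P = ENNReal.ofReal (I ^ (1 / q)) := by
      rw [eLpNorm_congr_ae hφL.coeFn_toLp,
        eLpNorm_eq_lintegral_rpow_enorm_toReal (by simpa using hq0) (by simp),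
        ENNReal.toReal_ofReal hq0.le]
      have h3 : ∀ x, ‖φ x‖ₑ ^ q = ENNReal.ofReal (ψ x) := by
        intro x
        rw [← ofReal_norm, Real.norm_eq_abs, ENNReal.ofReal_rpow_of_nonneg (abs_nonneg _) hq0.le,
          habs]
        congr 1
        by_cases hx : x ∈ S
        · rw [hψ, Set.indicator_of_mem hx, Set.indicator_of_mem hx,
            ← rpow_mul (abs_nonneg _)]
          congr 1
          have := hpq.mul_eq_add
          nlinarith
        · rw [hψ, Set.indicator_of_notMem hx, Set.indicator_of_notMem hx, zero_rpow hq0.ne']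
      simp_rw [h3]
      rw [← ofReal_integral_eq_lintegral_ofReal hψi (Filter.Eventually.of_forall hψ0),
        ENNReal.ofReal_rpow_of_nonneg hI0 (by positivity)]
    have h4 := hM (hφL.toLp φ)
    rw [h1, h2, abs_of_nonneg hI0, ENNReal.toReal_ofReal (by positivity)] at h4
    have h5 : I ≤ M ^ p := by
      rcases hI0.eq_or_lt with h | h
      · rw [← h]; positivity
      · have h6 : I ^ (1 / p) ≤ M := by
          have h7 : I = I ^ (1 / p) * I ^ (1 / q) := by
            rw [← rpow_add h, one_div, one_div, hpq.inv_add_inv_eq_one, rpow_one]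
          have h8 : 0 < I ^ (1 / q) := rpow_pos_of_pos h _
          rw [h7] at h4
          have h9 : (I ^ (1 / p) * I ^ (1 / q)) ^ (1 / q) = I ^ (1 / q) := by rw [← h7]
          rw [h9] at h4
          exact le_of_mul_le_mul_right h4 h8
        calc I = (I ^ (1 / p)) ^ p := by
              rw [← rpow_mul h.le, one_div, inv_mul_cancel₀ hp0.ne', rpow_one]
          _ ≤ M ^ p := rpow_le_rpow (by positivity) h6 hp0.le
    have h6 : ∀ x, (S.indicator (fun x => ‖Dm x‖ₑ ^ p)) x = ENNReal.ofReal (ψ x) := by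
      intro x
      by_cases hx : x ∈ S
      · rw [hψ, Set.indicator_of_mem hx, Set.indicator_of_mem hx, ← ofReal_norm,
          Real.norm_eq_abs, ENNReal.ofReal_rpow_of_nonneg (abs_nonneg _) hp0.le]
      · rw [hψ, Set.indicator_of_notMem hx, Set.indicator_of_notMem hx, ENNReal.ofReal_zero]
    simp_rw [h6]
    rw [← ofReal_integral_eq_lintegral_ofReal hψi (Filter.Eventually.of_forall hψ0)]
    exact ENNReal.ofReal_le_ofReal h5
  have hlim : ∫⁻ x, ‖Dm x‖ₑ ^ p ∂P ≤ ENNReal.ofReal (M ^ p) := by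
    have h1 : ∀ x, ‖Dm x‖ₑ ^ p ≤ liminf (fun N : ℕ =>
        ({x | |Dm x| ≤ N}.indicator (fun x => ‖Dm x‖ₑ ^ p)) x) atTop := by
      intro x
      refine le_liminf_of_le (by isBoundedDefault) ?_
      obtain ⟨N, hN⟩ := exists_nat_ge |Dm x|
      filter_upwards [eventually_ge_atTop N] with n hn
      rw [Set.indicator_of_mem]
      exact hN.trans (by exact_mod_cast hn)
    calc ∫⁻ x, ‖Dm x‖ₑ ^ p ∂P ≤ ∫⁻ x, liminf (fun N : ℕ =>
        ({x | |Dm x| ≤ N}.indicator (fun x => ‖Dm x‖ₑ ^ p)) x) atTop ∂P := lintegral_mono h1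
      _ ≤ liminf (fun N : ℕ => ∫⁻ x, ({x | |Dm x| ≤ N}.indicator
          (fun x => ‖Dm x‖ₑ ^ p)) x ∂P) atTop := by
          refine lintegral_liminf_le fun N => ?_
          exact (hm.enorm.pow_const _).indicator (measurableSet_le hm.abs measurable_const)
      _ ≤ ENNReal.ofReal (M ^ p) :=
          (liminf_le_liminf (Filter.Eventually.of_forall key)).trans (by simp)
  rw [eLpNorm_congr_ae hDD, eLpNorm_eq_lintegral_rpow_enorm_toReal (by simpa using hp0) (by simp),
    ENNReal.toReal_ofReal hp0.le]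
  calc (∫⁻ x, ‖Dm x‖ₑ ^ p ∂P) ^ (1 / p) ≤ (ENNReal.ofReal (M ^ p)) ^ (1 / p) :=
        ENNReal.rpow_le_rpow hlim (by positivity)
    _ = ENNReal.ofReal M := by
        rw [ENNReal.ofReal_rpow_of_nonneg (by positivity) (by positivity), ← rpow_mul hM0,
          mul_one_div_cancel hp0.ne', rpow_one]

lemma abs_inner_le {p q : ℝ} (hpq : p.HolderConjugate q) (F G : Lp ℝ 2 P)
    (hF : eLpNorm F (ENNReal.ofReal p) P ≠ ∞) (hG : eLpNorm G (ENNReal.ofReal q) P ≠ ∞) :
    |⟪F, G⟫_ℝ| ≤ (eLpNorm F (ENNReal.ofReal p) P).toReal *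
      (eLpNorm G (ENNReal.ofReal q) P).toReal := by
  have hp0 : 0 < p := hpq.pos
  have hq0 : 0 < q := hpq.symm.pos
  have h1 : ‖⟪F, G⟫_ℝ‖ₑ ≤ eLpNorm F (ENNReal.ofReal p) P * eLpNorm G (ENNReal.ofReal q) P := by
    rw [inner_L2]
    refine (enorm_integral_le_lintegral_enorm _).trans ?_
    have h2 := ENNReal.lintegral_mul_le_Lp_mul_Lq P hpq (f := fun x => ‖F x‖ₑ)
      (g := fun x => ‖G x‖ₑ) (Lp.aestronglyMeasurable F).enorm (Lp.aestronglyMeasurable G).enorm
    rw [eLpNorm_eq_lintegral_rpow_enorm_toReal (by simpa using hp0) (by simp),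
      eLpNorm_eq_lintegral_rpow_enorm_toReal (by simpa using hq0) (by simp),
      ENNReal.toReal_ofReal hp0.le, ENNReal.toReal_ofReal hq0.le]
    refine le_trans (le_of_eq ?_) h2
    refine lintegral_congr fun x => ?_
    rw [Pi.mul_apply, enorm_mul]
  rw [← ENNReal.toReal_mul, ← Real.norm_eq_abs, ← toReal_enorm]
  exact ENNReal.toReal_mono (ENNReal.mul_ne_top hF hG) h1

namespace IsIsonormal

/-- **`T` is bounded in `L^p`, `p ≥ 2`.** -/
theorem T_bound (hW : IsIsonormal P W) (hgen : Generates P W) (A : H →L[ℝ] H)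
    (hA : ∀ h, ⟪A h, h⟫_ℝ = 0) {p : ℝ} (hp : 2 ≤ p) (G : Lp ℝ 2 P)
    (hG : eLpNorm G (ENNReal.ofReal p) P ≠ ∞) :
    eLpNorm (hW.T A G) (ENNReal.ofReal p) P ≤
      Tc A (p / (p - 1)) * eLpNorm G (ENNReal.ofReal p) P := by
  have hprob := hW.isProbabilityMeasure
  have hp1 : 1 < p := by linarith
  have hpq : p.HolderConjugate (p / (p - 1)) := Real.HolderConjugate.conjExponent hp1
  set q : ℝ := p / (p - 1) with hq
  have hq1 : 1 < q := hpq.symm.lt
  have hq2 : q ≤ 2 := by
    rw [hq, div_le_iff₀ (by linarith)]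
    linarith
  have hqE : ENNReal.ofReal q ≤ 2 := by
    rw [show (2 : ℝ≥0∞) = ENNReal.ofReal 2 by simp]
    exact ENNReal.ofReal_le_ofReal hq2
  have hq1E : 1 ≤ ENNReal.ofReal q := by
    rw [show (1 : ℝ≥0∞) = ENNReal.ofReal 1 by simp]
    exact ENNReal.ofReal_le_ofReal hq1.le
  have hfin : ∀ Q : Lp ℝ 2 P, eLpNorm Q (ENNReal.ofReal q) P ≠ ∞ := fun Q =>
    ((Lp.memLp Q).mono_exponent hqE).eLpNorm_ne_top
  set M : ℝ := (Tc A q).toReal * (eLpNorm G (ENNReal.ofReal p) P).toReal with hM
  have hM0 : 0 ≤ M := by positivity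
  have hQ : ∀ Q : Lp ℝ 2 P, |⟪hW.T A G, Q⟫_ℝ| ≤ M * (eLpNorm Q (ENNReal.ofReal q) P).toReal := by
    intro Q
    refine (hW.denseRange_expL hgen).induction_on (p := fun Q : Lp ℝ 2 P =>
      |⟪hW.T A G, Q⟫_ℝ| ≤ M * (eLpNorm Q (ENNReal.ofReal q) P).toReal) Q ?_ ?_
    · refine isClosed_le ?_ ?_
      · exact (continuous_const.inner continuous_id).abs
      · exact continuous_const.mul (continuous_eLpNorm hq1E hqE)
    · intro c
      rw [hW.T_antisymm hgen A hA, abs_neg, hW.T_comb hgen A hA]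
      refine (abs_inner_le hpq _ _ hG (hfin _)).trans ?_
      have h1 := hW.tcomb_bound A hA hq1 c
      have h2 : (eLpNorm (comb (hW.tL A) c) (ENNReal.ofReal q) P).toReal ≤
          (Tc A q).toReal * (eLpNorm (comb hW.expL c) (ENNReal.ofReal q) P).toReal := by
        rw [← ENNReal.toReal_mul]
        exact ENNReal.toReal_mono (ENNReal.mul_ne_top (Tc_lt_top A hq1).ne (hfin _)) h1
      calc (eLpNorm G (ENNReal.ofReal p) P).toReal *
            (eLpNorm (comb (hW.tL A) c) (ENNReal.ofReal q) P).toReal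
          ≤ (eLpNorm G (ENNReal.ofReal p) P).toReal *
            ((Tc A q).toReal * (eLpNorm (comb hW.expL c) (ENNReal.ofReal q) P).toReal) :=
            mul_le_mul_of_nonneg_left h2 ENNReal.toReal_nonneg
        _ = _ := by rw [hM]; ring
  refine (eLpNorm_le_of_dual hpq hp _ hM0 hQ).trans (le_of_eq ?_)
  rw [hM, ENNReal.ofReal_mul ENNReal.toReal_nonneg, ENNReal.ofReal_toReal (Tc_lt_top A hq1).ne,
    ENNReal.ofReal_toReal hG]

end IsIsonormal

end Pool.Agent.Helper22.Mall
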