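import Pool.Agent.Helper22.Mall.Dual

/-! Hermite functionals and the operator `J = (1+N)⁻¹`. -/

namespace Pool.Agent.Helper22.Mall

open MeasureTheory ProbabilityTheory Real Filter
open scoped ENNReal NNReal Topology InnerProductSpace

set_option linter.unusedSectionVars false
set_option linter.unusedVariables false

variable {H : Type*} [NormedAddCommGroup H] [InnerProductSpace ℝ H]
variable {Ω : Type*} [MeasurableSpace Ω]
variable {P : Measure Ω} {W : H → Ω → ℝ}

/-- the Hermite functional `He_m(W(h))` -/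
noncomputable def He (W : H → Ω → ℝ) (m : ℕ) (h : H) (ω : Ω) : ℝ :=
  Polynomial.aeval (W h ω) (Polynomial.hermite m)

lemma He_eq (m : ℕ) (h : H) (ω : Ω) :
    He W m h ω = ((Polynomial.hermite m).map (Int.castRingHom ℝ)).eval (W h ω) := by
  rw [He, Polynomial.aeval_def, Polynomial.eval_map]
  rfl

lemma hasSum_exp_real (x : ℝ) : HasSum (fun n : ℕ => x ^ n / n.factorial) (Real.exp x) := by
  rw [Real.exp_eq_exp_ℝ]
  exact NormedSpace.expSeries_div_hasSum_exp x

namespace IsIsonormal

lemma allLp_poly (hW : IsIsonormal P W) (h : H) (φ : Polynomial ℝ) :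
    AllLp P (fun ω => φ.eval (W h ω)) := by
  have := hW.isProbabilityMeasure
  have e : (fun ω => φ.eval (W h ω)) = fun ω => ∑ i ∈ φ.support, φ.coeff i * W h ω ^ i := by
    funext ω
    rw [Polynomial.eval_eq_sum, Polynomial.sum]
  rw [e]
  exact AllLp.sum _ fun i _ => ((hW.allLp_W h).pow i).const_mul _

lemma allLp_He (hW : IsIsonormal P W) (m : ℕ) (h : H) : AllLp P (He W m h) := by
  have : He W m h = fun ω => ((Polynomial.hermite m).map (Int.castRingHom ℝ)).eval (W h ω) :=
    funext fun ω => He_eq m h ω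
  rw [this]
  exact hW.allLp_poly h _

/-- integration by parts for polynomials -/
lemma ibp_poly (hW : IsIsonormal P W) {h : H} (hh : ‖h‖ = 1) (k : H) (φ : Polynomial ℝ) :
    ∫ ω, (W h ω * φ.eval (W h ω)) * ex W 1 k ω ∂P =
      ⟪h, k⟫_ℝ * ∫ ω, φ.eval (W h ω) * ex W 1 k ω ∂P +
        ∫ ω, (Polynomial.derivative φ).eval (W h ω) * ex W 1 k ω ∂P := by
  have hp := hW.isProbabilityMeasure
  have hi : ∀ φ : Polynomial ℝ, Integrable (fun ω => φ.eval (W h ω) * ex W 1 k ω) P := fun φ =>
    ((hW.allLp_poly h φ).mul (hW.allLp_ex 1 k)).integrable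
  have hi' : ∀ φ : Polynomial ℝ,
      Integrable (fun ω => (W h ω * φ.eval (W h ω)) * ex W 1 k ω) P := fun φ =>
    (((hW.allLp_W h).mul (hW.allLp_poly h φ)).mul (hW.allLp_ex 1 k)).integrable
  induction φ using Polynomial.induction_on' with
  | add p q hp' hq' =>
    have e1 : (fun ω => (W h ω * (p + q).eval (W h ω)) * ex W 1 k ω) = fun ω =>
        (W h ω * p.eval (W h ω)) * ex W 1 k ω + (W h ω * q.eval (W h ω)) * ex W 1 k ω := by
      funext ω
      rw [Polynomial.eval_add]
      ring
    have e2 : (fun ω => (p + q).eval (W h ω) * ex W 1 k ω) = fun ω =>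
        p.eval (W h ω) * ex W 1 k ω + q.eval (W h ω) * ex W 1 k ω := by
      funext ω
      rw [Polynomial.eval_add]
      ring
    have e3 : (fun ω => (Polynomial.derivative (p + q)).eval (W h ω) * ex W 1 k ω) = fun ω =>
        (Polynomial.derivative p).eval (W h ω) * ex W 1 k ω +
          (Polynomial.derivative q).eval (W h ω) * ex W 1 k ω := by
      funext ω
      rw [Polynomial.derivative_add, Polynomial.eval_add]
      ring
    rw [e1, e2, e3, integral_add (hi' p) (hi' q), integral_add (hi p) (hi q),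
      integral_add (hi _) (hi _), hp', hq']
    ring
  | monomial n a =>
    have h1 := hW.ibp_pow h k n
    rw [hh] at h1
    have e1 : (fun ω => (W h ω * (Polynomial.monomial n a).eval (W h ω)) * ex W 1 k ω) =
        fun ω => a * (W h ω ^ (n + 1) * ex W 1 k ω) := by
      funext ω
      rw [Polynomial.eval_monomial]
      ring
    have e2 : (fun ω => (Polynomial.monomial n a).eval (W h ω) * ex W 1 k ω) =
        fun ω => a * (W h ω ^ n * ex W 1 k ω) := by
      funext ω
      rw [Polynomial.eval_monomial]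
      ring
    have e3 : (fun ω => (Polynomial.derivative (Polynomial.monomial n a)).eval (W h ω) *
        ex W 1 k ω) = fun ω => a * n * (W h ω ^ (n - 1) * ex W 1 k ω) := by
      funext ω
      rw [Polynomial.derivative_monomial, Polynomial.eval_monomial]
      ring
    rw [e1, e2, e3, integral_const_mul, integral_const_mul, integral_const_mul, h1]
    ring

lemma integral_He_ex (hW : IsIsonormal P W) {h : H} (hh : ‖h‖ = 1) (k : H) (m : ℕ) :
    ∫ ω, He W m h ω * ex W 1 k ω ∂P = ⟪h, k⟫_ℝ ^ m := by
  have hp := hW.isProbabilityMeasure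
  induction m with
  | zero => simp [He, hW.integral_ex]
  | succ m ih =>
    have h1 := hW.ibp_poly hh k ((Polynomial.hermite m).map (Int.castRingHom ℝ))
    simp only [← He_eq] at h1
    have e : (fun ω => He W (m + 1) h ω * ex W 1 k ω) = fun ω =>
        (W h ω * He W m h ω) * ex W 1 k ω -
        (Polynomial.derivative ((Polynomial.hermite m).map (Int.castRingHom ℝ))).eval (W h ω) *
          ex W 1 k ω := by
      funext ω
      rw [← sub_mul]
      congr 1
      rw [He_eq, Polynomial.hermite_succ, Polynomial.map_sub, Polynomial.map_mul, Polynomial.map_X,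
        Polynomial.eval_sub, Polynomial.eval_mul, Polynomial.eval_X, ← He_eq,
        Polynomial.derivative_map]
    rw [e, integral_sub, h1, ih]
    · ring
    · exact (((hW.allLp_W h).mul (hW.allLp_He m h)).mul (hW.allLp_ex 1 k)).integrable
    · exact ((hW.allLp_poly h _).mul (hW.allLp_ex 1 k)).integrable

noncomputable def HeL (hW : IsIsonormal P W) (m : ℕ) (h : H) : Lp ℝ 2 P :=
  (hW.allLp_He m h).memLp_two.toLp _

lemma inner_HeL_expL (hW : IsIsonormal P W) {h : H} (hh : ‖h‖ = 1) (k : H) (m : ℕ) :
    ⟪hW.HeL m h, hW.expL k⟫_ℝ = ⟪h, k⟫_ℝ ^ m := by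
  rw [HeL, expL, inner_toLp, hW.integral_He_ex hh]

/-- Hermite functionals are eigenvectors of `J` -/
lemma J_HeL (hW : IsIsonormal P W) (hgen : Generates P W) {h : H} (hh : ‖h‖ = 1) (m : ℕ) :
    hW.J (hW.HeL m h) = (1 / ((m : ℝ) + 1)) • hW.HeL m h := by
  refine hW.ext_inner hgen fun k => ?_
  rw [hW.inner_J_expL hgen, real_inner_smul_left, hW.inner_HeL_expL hh]
  simp_rw [hW.inner_HeL_expL hh, real_inner_smul_right, mul_pow]
  rw [integral_mul_const, integral_cos_pow_νs]

/-- the Hermite functionals are total -/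
lemma He_total (hW : IsIsonormal P W) (hgen : Generates P W) [Nontrivial H] {F : Lp ℝ 2 P}
    (hF : ∀ (m : ℕ) (h : H), ‖h‖ = 1 → ∫ ω, F ω * He W m h ω ∂P = 0) : F = 0 := by
  have hp := hW.isProbabilityMeasure
  have hFm := Lp.memLp F
  have hint : ∀ {g : Ω → ℝ}, AllLp P g → Integrable (fun ω => F ω * g ω) P := fun hg =>
    hFm.integrable_mul hg.memLp_two
  -- polynomials
  have hpoly : ∀ h : H, ‖h‖ = 1 → ∀ (n : ℕ) (φ : Polynomial ℝ), φ.natDegree ≤ n →
      ∫ ω, F ω * φ.eval (W h ω) ∂P = 0 := by
    intro h hh n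
    induction n with
    | zero =>
      intro φ hφ
      obtain ⟨a, rfl⟩ : ∃ a, φ = Polynomial.C a :=
        ⟨_, Polynomial.eq_C_of_natDegree_le_zero hφ⟩
      have h0 := hF 0 h hh
      simp only [He, Polynomial.hermite_zero, map_one, mul_one] at h0
      simp only [Polynomial.eval_C]
      rw [integral_mul_const, h0, zero_mul]
    | succ n ih =>
      intro φ hφ
      set p : Polynomial ℝ := (Polynomial.hermite (n + 1)).map (Int.castRingHom ℝ) with hp'
      set ψ : Polynomial ℝ := φ - Polynomial.C (φ.coeff (n + 1)) * p with hψ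
      have hψd : ψ.natDegree ≤ n := by
        rw [Polynomial.natDegree_le_iff_coeff_eq_zero]
        intro N hN
        rw [hψ, Polynomial.coeff_sub, Polynomial.coeff_C_mul, hp', Polynomial.coeff_map]
        rcases Nat.lt_or_ge (n + 1) N with h1 | h1
        · rw [Polynomial.coeff_eq_zero_of_natDegree_lt (lt_of_le_of_lt hφ h1),
            Polynomial.coeff_hermite_of_lt h1]
          simp
        · have : N = n + 1 := by omega
          subst this
          rw [Polynomial.coeff_hermite_self]
          simp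
      have h1 := ih ψ hψd
      have e : (fun ω => F ω * φ.eval (W h ω)) = fun ω =>
          F ω * ψ.eval (W h ω) + φ.coeff (n + 1) * (F ω * He W (n + 1) h ω) := by
        funext ω
        rw [hψ, Polynomial.eval_sub, Polynomial.eval_mul, Polynomial.eval_C, He_eq]
        ring
      rw [e, integral_add (hint (hW.allLp_poly h ψ))
        ((hint (hW.allLp_He (n + 1) h)).const_mul _), h1, integral_const_mul, hF _ h hh]
      simp
  have hpow : ∀ h : H, ‖h‖ = 1 → ∀ n : ℕ, ∫ ω, F ω * W h ω ^ n ∂P = 0 := by
    intro h hh n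
    have := hpoly h hh _ (Polynomial.X ^ n) le_rfl
    simpa using this
  -- exponentials of unit vectors
  have hexp : ∀ h : H, ‖h‖ = 1 → ∀ t : ℝ, ∫ ω, F ω * exp (t * W h ω) ∂P = 0 := by
    intro h hh t
    have hb : Integrable (fun ω => |F ω| * exp |t * W h ω|) P := by
      have h1 : AllLp P (fun ω => exp |t * W h ω|) := by
        refine (hW.allLp_exp_abs (t • h)).congr ?_
        filter_upwards [hW.smul t h] with ω h2
        rw [h2]
        simp
      exact hFm.abs.integrable_mul h1.memLp_two
    have hs : HasSum (fun n : ℕ => ∫ ω, F ω * ((t * W h ω) ^ n / n.factorial) ∂P)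
        (∫ ω, F ω * exp (t * W h ω) ∂P) := by
      have h2 : ∀ ω, HasSum (fun n : ℕ => F ω * ((t * W h ω) ^ n / n.factorial))
          (F ω * exp (t * W h ω)) := fun ω =>
        (hasSum_exp_real (t * W h ω)).mul_left _
      refine hasSum_integral_of_dominated_convergence
        (bound := fun n ω => |F ω| * (|t * W h ω| ^ n / n.factorial)) ?_ ?_ ?_ ?_ ?_
      · intro n
        have hm : Measurable fun ω => (t * W h ω) ^ n / (n.factorial : ℝ) :=
          (((hW.measurable h).const_mul t).pow_const n).div_const _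
        exact (Lp.aestronglyMeasurable F).mul hm.aestronglyMeasurable
      · intro n
        refine Filter.Eventually.of_forall fun ω => ?_
        rw [norm_mul, norm_div, norm_pow, Real.norm_eq_abs, Real.norm_eq_abs]
        simp
      · refine Filter.Eventually.of_forall fun ω => ?_
        exact ((hasSum_exp_real |t * W h ω|).mul_left _).summable
      · refine hb.congr (Filter.Eventually.of_forall fun ω => ?_)
        simp only
        rw [tsum_mul_left, (hasSum_exp_real |t * W h ω|).tsum_eq]
      · exact Filter.Eventually.of_forall h2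
    have hz : ∀ n : ℕ, ∫ ω, F ω * ((t * W h ω) ^ n / n.factorial) ∂P = 0 := by
      intro n
      have e : (fun ω => F ω * ((t * W h ω) ^ n / n.factorial)) =
          fun ω => (t ^ n / n.factorial) * (F ω * W h ω ^ n) := by
        funext ω
        rw [mul_pow]
        ring
      rw [e, integral_const_mul, hpow h hh, mul_zero]
    simp_rw [hz] at hs
    exact hs.unique hasSum_zero |>.symm ▸ rfl
  -- conclusion
  have hall : ∀ h : H, ∫ ω, F ω * exp (W h ω) ∂P = 0 := by
    intro h
    by_cases h0 : h = 0
    · obtain ⟨v, hv⟩ := exists_ne (0 : H)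
      have hvn : ‖v‖ ≠ 0 := norm_ne_zero_iff.2 hv
      have h1 := hexp ((‖v‖⁻¹ : ℝ) • v)
        (by rw [norm_smul, norm_inv, norm_norm, inv_mul_cancel₀ hvn]) 0
      rw [← h1]
      refine integral_congr_ae ?_
      filter_upwards [hW.smul 0 (0 : H)] with ω h2
      rw [zero_smul] at h2
      rw [h0, h2]
      simp
    · have hvn : ‖h‖ ≠ 0 := norm_ne_zero_iff.2 h0
      have h1 := hexp ((‖h‖⁻¹ : ℝ) • h)
        (by rw [norm_smul, norm_inv, norm_norm, inv_mul_cancel₀ hvn]) ‖h‖
      rw [← h1]
      refine integral_congr_ae ?_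
      filter_upwards [hW.smul (‖h‖⁻¹) h] with ω h2
      rw [h2, Pi.smul_apply, smul_eq_mul, ← mul_assoc, mul_inv_cancel₀ hvn, one_mul]
  exact (Lp.eq_zero_iff_ae_eq_zero).2 (separation hW hgen hFm hall)

end IsIsonormal

end Pool.Agent.Helper22.Mall
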