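import Pool.Agent.Helper22.Mall.Operator

/-! Vector fields plus `div A grad` do not give all derivations. -/

namespace Pool.Agent.Helper22.Mall

open MeasureTheory ProbabilityTheory Real Filter
open scoped ENNReal NNReal Topology InnerProductSpace

set_option linter.unusedSectionVars false
set_option linter.unusedVariables false

section defs

variable {H : Type*} [NormedAddCommGroup H] [InnerProductSpace ℝ H]
variable {Ω : Type*} [MeasurableSpace Ω]

/-- `G = grad F` (the Malliavin derivative), in the weak form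
`E[⟨G, k⟩ Φ] = E[F (W(k) Φ - ⟨grad Φ, k⟩)]` for all `k ∈ H` and all functionals `Φ = φ(W(h))`,
`h ∈ H`, `φ` a polynomial, for which `grad Φ = φ'(W(h)) h`. -/
def IsGrad (P : Measure Ω) (W : H → Ω → ℝ) (F : Ω → ℝ) (G : Ω → H) : Prop :=
  ∀ (k h : H) (φ : Polynomial ℝ),
    ∫ ω, ⟪G ω, k⟫_ℝ * φ.eval (W h ω) ∂P =
      ∫ ω, F ω * (W k ω * φ.eval (W h ω) -
        ⟪h, k⟫_ℝ * (Polynomial.derivative φ).eval (W h ω)) ∂P

end defs

variable {Ω : Type*} [MeasurableSpace Ω] {n : ℕ}

/-- `D = div (A G)`: the process `A` with values in the `n × n` matrices acts pointwise on the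
`H`-valued random variable `G`, and `div` is the adjoint of the gradient, that is
`E[D Φ] = E[⟨A G, grad Φ⟩_H]` for all functionals `Φ = φ(W(h))`, `h ∈ H`, `φ` a polynomial, where
`grad Φ = φ'(W(h)) h` and `⟨A G, h⟩_H = ∫₀¹ ⟨A(t) G(t), h(t)⟩ dt`. -/
def IsDivMat (P : Measure Ω) (W : CM n → Ω → ℝ) (A : Ω → ℝ → Matrix (Fin n) (Fin n) ℝ)
    (G : Ω → CM n) (D : Ω → ℝ) : Prop :=
  ∀ (h : CM n) (φ : Polynomial ℝ),
    ∫ ω, D ω * φ.eval (W h ω) ∂P =
      ∫ ω, (∫ t in Set.Icc (0 : ℝ) 1, ∑ i,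
        (A ω t).mulVec (fun j => (G ω : ℝ → EuclideanSpace ℝ (Fin n)) t j) i *
          (h : ℝ → EuclideanSpace ℝ (Fin n)) t i) *
        (Polynomial.derivative φ).eval (W h ω) ∂P

namespace IsIsonormal

variable {P : Measure Ω}

section uniq

variable {H : Type*} [NormedAddCommGroup H] [InnerProductSpace ℝ H] {W : H → Ω → ℝ}

lemma allLp_exp_smul (hW : IsIsonormal P W) (v : H) (c : ℝ) :
    AllLp P (fun ω => exp (c * |W v ω|)) := by
  refine ((hW.allLp_exp_abs (c • v)).congr (g := fun ω => exp (|c| * |W v ω|)) ?_).mono ?_ ?_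
  · filter_upwards [hW.smul c v] with ω h
    rw [h, Pi.smul_apply, smul_eq_mul, abs_mul]
  · exact ((hW.measurable v).abs.const_mul c).exp.aestronglyMeasurable
  · intro ω
    rw [abs_of_pos (exp_pos _), abs_of_pos (exp_pos _)]
    exact exp_le_exp.2 (mul_le_mul_of_nonneg_right (le_abs_self c) (abs_nonneg _))

lemma hasDerivAt_weighted (hW : IsIsonormal P W) {Q : Ω → ℝ} (hQ : AllLp P Q) (v : H) (n : ℕ)
    (t : ℝ) :
    HasDerivAt (fun t => ∫ ω, Q ω * (W v ω ^ n * exp (t * W v ω)) ∂P)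
      (∫ ω, Q ω * (W v ω ^ (n + 1) * exp (t * W v ω)) ∂P) t := by
  have hp := hW.isProbabilityMeasure
  have hm : ∀ (n : ℕ) (t : ℝ), AEStronglyMeasurable
      (fun ω => Q ω * (W v ω ^ n * exp (t * W v ω))) P := by
    intro n t
    exact (hQ 1).aestronglyMeasurable.mul (((hW.measurable v).pow_const n).mul
      ((hW.measurable v).const_mul t).exp).aestronglyMeasurable
  have hbd : ∀ (n : ℕ) (t : ℝ), AllLp P
      (fun ω => |Q ω| * (|W v ω| ^ n * exp (t * |W v ω|))) := by
    intro n t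
    have h1 : AllLp P (fun ω => |Q ω|) := fun p => (hQ p).abs
    have h2 : AllLp P (fun ω => |W v ω|) := fun p => (hW.allLp_W v p).abs
    exact h1.mul ((h2.pow n).mul (hW.allLp_exp_smul v t))
  have hle : ∀ (n : ℕ) (t s : ℝ) (ω : Ω), |t| ≤ s →
      ‖Q ω * (W v ω ^ n * exp (t * W v ω))‖ ≤ |Q ω| * (|W v ω| ^ n * exp (s * |W v ω|)) := by
    intro n t s ω hts
    rw [norm_mul, norm_mul, norm_pow, Real.norm_eq_abs, Real.norm_eq_abs, Real.norm_eq_abs,
      abs_of_pos (exp_pos _)]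
    refine mul_le_mul_of_nonneg_left (mul_le_mul_of_nonneg_left (exp_le_exp.2 ?_)
      (pow_nonneg (abs_nonneg _) _)) (abs_nonneg _)
    calc t * W v ω ≤ |t * W v ω| := le_abs_self _
      _ = |t| * |W v ω| := abs_mul _ _
      _ ≤ s * |W v ω| := mul_le_mul_of_nonneg_right hts (abs_nonneg _)
  refine (hasDerivAt_integral_of_dominated_loc_of_deriv_le
    (F := fun t ω => Q ω * (W v ω ^ n * exp (t * W v ω)))
    (F' := fun t ω => Q ω * (W v ω ^ (n + 1) * exp (t * W v ω)))
    (bound := fun ω => |Q ω| * (|W v ω| ^ (n + 1) * exp ((|t| + 1) * |W v ω|)))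
    (Metric.ball_mem_nhds t one_pos) (Filter.Eventually.of_forall fun s => hm n s) ?_
    (hm (n + 1) t) ?_ (hbd (n + 1) (|t| + 1)).integrable ?_).2
  · exact (hbd n |t|).integrable.mono' (hm n t)
      (Filter.Eventually.of_forall fun ω => hle n t |t| ω le_rfl)
  · refine Filter.Eventually.of_forall fun ω s hs => hle (n + 1) s (|t| + 1) ω ?_
    rw [Metric.mem_ball, Real.dist_eq] at hs
    have := abs_sub_abs_le_abs_sub s t
    linarith
  · refine Filter.Eventually.of_forall fun ω s _ => ?_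
    have h1 : HasDerivAt (fun s : ℝ => exp (s * W v ω)) (exp (s * W v ω) * W v ω) s := by
      have := ((hasDerivAt_id s).mul_const (W v ω)).exp
      simpa using this
    have h2 := (h1.const_mul (W v ω ^ n)).const_mul (Q ω)
    refine h2.congr_deriv ?_
    ring

/-- integration by parts against a polynomial -/
lemma ibp_two (hW : IsIsonormal P W) (a k : H) {v : H} (hv : ‖v‖ = 1) (n : ℕ) (t : ℝ) :
    ∫ ω, (W a ω * W k ω) * (W v ω ^ n * exp (t * W v ω)) ∂P =
      ⟪a, k⟫_ℝ * ∫ ω, 1 * (W v ω ^ n * exp (t * W v ω)) ∂P +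
      ⟪v, k⟫_ℝ * (t * ∫ ω, W a ω * (W v ω ^ n * exp (t * W v ω)) ∂P +
        n * ∫ ω, W a ω * (W v ω ^ (n - 1) * exp (t * W v ω)) ∂P) := by
  have hp := hW.isProbabilityMeasure
  have q1 : AllLp P (fun ω => W a ω * W k ω) := (hW.allLp_W a).mul (hW.allLp_W k)
  have q2 : AllLp P (fun _ : Ω => (1 : ℝ)) := AllLp.const 1
  have q3 : AllLp P (W a) := hW.allLp_W a
  induction n generalizing t with
  | zero =>
    have e0 : ∀ (Q : Ω → ℝ), ∫ ω, Q ω * (W v ω ^ 0 * exp (t * W v ω)) ∂P =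
        exp (t ^ 2 / 2) * ∫ ω, Q ω * ex W 1 (t • v) ω ∂P := by
      intro Q
      rw [← integral_const_mul]
      refine integral_congr_ae ?_
      filter_upwards [hW.smul t v] with ω h1
      simp only [ex, h1, Pi.smul_apply, smul_eq_mul, pow_zero, one_mul, norm_smul, hv, mul_one]
      rw [show exp (t ^ 2 / 2) * (Q ω * exp (t * W v ω - 1 ^ 2 * ‖t‖ ^ 2 / 2)) =
        Q ω * (exp (t ^ 2 / 2) * exp (t * W v ω - 1 ^ 2 * ‖t‖ ^ 2 / 2)) by ring, ← Real.exp_add,
        Real.norm_eq_abs, sq_abs]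
      congr 2
      ring
    rw [e0, e0 (fun _ => 1), e0]
    have e1 : ∫ ω, (W a ω * W k ω) * ex W 1 (t • v) ω ∂P =
        ⟪a, k⟫_ℝ + ⟪a, t • v⟫_ℝ * ⟪k, t • v⟫_ℝ := by
      rw [← hW.integral_W_W_ex]
      refine integral_congr_ae (Filter.Eventually.of_forall fun ω => ?_)
      simp only
      ring
    simp only [one_mul]
    rw [e1, hW.integral_ex, hW.integral_W_mul_ex, real_inner_smul_right, real_inner_smul_right,
      real_inner_comm v k]
    simp
    ring
  | succ n ih =>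
    have h1 := hW.hasDerivAt_weighted q1 v n t
    have h2 := (hW.hasDerivAt_weighted q2 v n t).const_mul ⟪a, k⟫_ℝ
    have h3 := (hasDerivAt_id t).mul (hW.hasDerivAt_weighted q3 v n t)
    have h4 : HasDerivAt (fun t : ℝ => (n : ℝ) * ∫ ω, W a ω * (W v ω ^ (n - 1) *
        exp (t * W v ω)) ∂P) (n * ∫ ω, W a ω * (W v ω ^ n * exp (t * W v ω)) ∂P) t := by
      rcases Nat.eq_zero_or_pos n with hn | hn
      · subst hn
        simpa using hasDerivAt_const t (0 : ℝ)
      · have h5 := (hW.hasDerivAt_weighted q3 v (n - 1) t).const_mul (n : ℝ)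
        rwa [Nat.sub_add_cancel hn] at h5
    have h5 := h2.add ((h3.add h4).const_mul ⟪v, k⟫_ℝ)
    have h6 := h1.congr_of_eventuallyEq (f₁ := fun t =>
      ⟪a, k⟫_ℝ * ∫ ω, 1 * (W v ω ^ n * exp (t * W v ω)) ∂P +
      ⟪v, k⟫_ℝ * (t * ∫ ω, W a ω * (W v ω ^ n * exp (t * W v ω)) ∂P +
        n * ∫ ω, W a ω * (W v ω ^ (n - 1) * exp (t * W v ω)) ∂P))
      (Filter.Eventually.of_forall fun s => (ih s).symm)
    have h7 := h6.unique h5
    rw [h7]
    simp only [Nat.add_sub_cancel, id_eq]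
    push_cast
    ring

lemma ibp_two_poly (hW : IsIsonormal P W) (a k : H) {v : H} (hv : ‖v‖ = 1)
    (φ : Polynomial ℝ) :
    ∫ ω, W a ω * (W k ω * φ.eval (W v ω) -
        ⟪v, k⟫_ℝ * (Polynomial.derivative φ).eval (W v ω)) ∂P =
      ⟪a, k⟫_ℝ * ∫ ω, φ.eval (W v ω) ∂P := by
  have hp := hW.isProbabilityMeasure
  have i1 : ∀ φ : Polynomial ℝ, Integrable (fun ω => W a ω * (W k ω * φ.eval (W v ω) -
      ⟪v, k⟫_ℝ * (Polynomial.derivative φ).eval (W v ω))) P := by
    intro φ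
    have h1 : AllLp P (fun ω => W k ω * φ.eval (W v ω) -
        ⟪v, k⟫_ℝ * (Polynomial.derivative φ).eval (W v ω)) := by
      have h2 := ((hW.allLp_W k).mul (hW.allLp_poly v φ)).add
        (((hW.allLp_poly v (Polynomial.derivative φ)).const_mul ⟪v, k⟫_ℝ).neg)
      refine h2.congr (Filter.Eventually.of_forall fun ω => ?_)
      ring
    exact ((hW.allLp_W a).mul h1).integrable
  induction φ using Polynomial.induction_on' with
  | add p q hp' hq' =>
    have e1 : (fun ω => W a ω * (W k ω * (p + q).eval (W v ω) -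
        ⟪v, k⟫_ℝ * (Polynomial.derivative (p + q)).eval (W v ω))) = fun ω =>
        W a ω * (W k ω * p.eval (W v ω) - ⟪v, k⟫_ℝ * (Polynomial.derivative p).eval (W v ω)) +
        W a ω * (W k ω * q.eval (W v ω) -
          ⟪v, k⟫_ℝ * (Polynomial.derivative q).eval (W v ω)) := by
      funext ω
      rw [Polynomial.derivative_add, Polynomial.eval_add, Polynomial.eval_add]
      ring
    have e2 : (fun ω => (p + q).eval (W v ω)) = fun ω => p.eval (W v ω) + q.eval (W v ω) := by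
      funext ω
      rw [Polynomial.eval_add]
    rw [e1, e2, integral_add (i1 p) (i1 q), integral_add (hW.allLp_poly v p).integrable
      (hW.allLp_poly v q).integrable, hp', hq']
    ring
  | monomial n c =>
    have h1 := hW.ibp_two a k hv n 0
    simp only [zero_mul, exp_zero, mul_one, one_mul, zero_add] at h1
    have i2 : Integrable (fun ω => (W a ω * W k ω) * W v ω ^ n) P :=
      (((hW.allLp_W a).mul (hW.allLp_W k)).mul ((hW.allLp_W v).pow n)).integrable
    have i3 : Integrable (fun ω => W a ω * W v ω ^ (n - 1)) P :=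
      ((hW.allLp_W a).mul ((hW.allLp_W v).pow (n - 1))).integrable
    have e1 : (fun ω => W a ω * (W k ω * (Polynomial.monomial n c).eval (W v ω) -
        ⟪v, k⟫_ℝ * (Polynomial.derivative (Polynomial.monomial n c)).eval (W v ω))) = fun ω =>
        c * ((W a ω * W k ω) * W v ω ^ n) - (c * ⟪v, k⟫_ℝ * n) * (W a ω * W v ω ^ (n - 1)) := by
      funext ω
      rw [Polynomial.derivative_monomial, Polynomial.eval_monomial, Polynomial.eval_monomial]
      ring
    have e2 : (fun ω => (Polynomial.monomial n c).eval (W v ω)) = fun ω => c * W v ω ^ n := by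
      funext ω
      rw [Polynomial.eval_monomial]
    rw [e1, e2, integral_sub (i2.const_mul c) (i3.const_mul _), integral_const_mul,
      integral_const_mul, integral_const_mul, h1]
    ring

/-- the weak gradient of `W(a)` is `a` -/
lemma grad_W (hW : IsIsonormal P W) (hgen : Generates P W) [Nontrivial H]
    [SecondCountableTopology H] {a : H} {F : Ω → ℝ} (hF : F =ᵐ[P] W a) {G : Ω → H}
    (hG : ∀ k, MemLp (fun ω => ⟪G ω, k⟫_ℝ) 2 P) (h : IsGrad P W F G) :
    G =ᵐ[P] fun _ => a := by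
  have hp := hW.isProbabilityMeasure
  have h1 : ∀ k : H, (fun ω => ⟪k, G ω - a⟫_ℝ) =ᵐ[P] 0 := by
    intro k
    have hm : MemLp (fun ω => ⟪k, G ω - a⟫_ℝ) 2 P := by
      refine ((hG k).sub (memLp_const ⟪a, k⟫_ℝ)).ae_eq
        (Filter.Eventually.of_forall fun ω => ?_)
      simp only [Pi.sub_apply, inner_sub_right]
      rw [real_inner_comm, real_inner_comm k a]
    have h2 : hm.toLp _ = 0 := by
      refine hW.He_total hgen fun m v hv => ?_
      have h3 := h k v ((Polynomial.hermite m).map (Int.castRingHom ℝ))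
      have h4 : ∫ ω, F ω * (W k ω *
          ((Polynomial.hermite m).map (Int.castRingHom ℝ)).eval (W v ω) - ⟪v, k⟫_ℝ *
          (Polynomial.derivative ((Polynomial.hermite m).map (Int.castRingHom ℝ))).eval
            (W v ω)) ∂P =
          ⟪a, k⟫_ℝ * ∫ ω, ((Polynomial.hermite m).map (Int.castRingHom ℝ)).eval (W v ω) ∂P := by
        rw [← hW.ibp_two_poly a k hv]
        refine integral_congr_ae ?_
        filter_upwards [hF] with ω h5
        rw [h5]
      rw [h4] at h3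
      simp only [← He_eq] at h3
      have e1 : ∫ ω, (hm.toLp _ : Ω → ℝ) ω * He W m v ω ∂P =
          ∫ ω, (⟪G ω, k⟫_ℝ * He W m v ω - ⟪a, k⟫_ℝ * He W m v ω) ∂P := by
        refine integral_congr_ae ?_
        filter_upwards [hm.coeFn_toLp] with ω h4
        rw [h4, inner_sub_right, real_inner_comm, real_inner_comm k a]
        ring
      rw [e1, integral_sub, h3, integral_const_mul, sub_self]
      · have h6 : MemLp (fun ω => ⟪G ω, k⟫_ℝ) 2 P := hG k
        exact h6.integrable_mul (hW.allLp_He m v).memLp_two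
      · exact ((hW.allLp_He m v).integrable).const_mul _
    have h3 := hm.coeFn_toLp
    rw [h2] at h3
    exact h3.symm.trans (Lp.coeFn_zero _ _ _)
  have h2 := ae_eq_zero_of_forall_inner (𝕜 := ℝ) h1
  filter_upwards [h2] with ω h3
  exact sub_eq_zero.1 h3

lemma inner_WL_WL (hW : IsIsonormal P W) (g k : H) : ⟪hW.WL g, hW.WL k⟫_ℝ = ⟪g, k⟫_ℝ := by
  rw [WL, WL, inner_toLp]
  have h1 := hW.integral_W_W_ex g k 0
  rw [inner_zero_right, inner_zero_right, mul_zero, add_zero] at h1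
  rw [← h1]
  refine integral_congr_ae ?_
  filter_upwards [hW.smul 0 (0 : H)] with ω h2
  rw [zero_smul] at h2
  have h3 : ex W 1 (0 : H) ω = 1 := by
    rw [ex, h2, norm_zero]
    simp only [zero_smul, Pi.zero_apply]
    norm_num
  rw [h3, mul_one]

end uniq

/-- **The non-local derivation is not decomposable.** -/
theorem not_decomposable (hn : 0 < n) {W : CM n → Ω → ℝ} (hW : IsIsonormal P W)
    (hgen : Generates P W) :
    ∃ δ : Dinf hW →ₗ[ℝ] Dinf hW, IsDerivation hW δ ∧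
      ∀ (X : Ω → CM n) (A : Ω → ℝ → Matrix (Fin n) (Fin n) ℝ),
        (∀ k, MemLp (fun ω => ⟪k, X ω⟫_ℝ) 2 P) →
        (∃ u : Ω → ℝ, Integrable u P ∧ ∀ᵐ ω ∂P, ‖X ω‖ ^ 2 ≤ u ω) →
        (∀ f : Dinf hW, ∃ (G : Ω → CM n) (D : Ω → ℝ),
          (∀ k, MemLp (fun ω => ⟪G ω, k⟫_ℝ) 2 P) ∧ IsGrad P W f.1 G ∧ IsDivMat P W A G D ∧
            ((δ f).1 : Ω → ℝ) =ᵐ[P] fun ω => ⟪G ω, X ω⟫_ℝ + D ω) → False := by
  have hp := hW.isProbabilityMeasure
  have : Nontrivial (CM n) := by
    refine ⟨cv ⟨0, hn⟩ 0, 0, fun h => ?_⟩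
    have := (cv_orthonormal (⟨0, hn⟩ : Fin n)).1 0
    rw [h, norm_zero] at this
    exact zero_ne_one this
  have : SecondCountableTopology (CM n) := by
    have : Fact ((2 : ℝ≥0∞) ≠ ∞) := ⟨by simp⟩
    infer_instance
  set a : ℕ → CM n := fun j => cv ⟨0, hn⟩ (2 * j) with ha
  set b : ℕ → CM n := fun j => cv ⟨0, hn⟩ (2 * j + 1) with hb
  have hao : Orthonormal ℝ a :=
    (cv_orthonormal (⟨0, hn⟩ : Fin n)).comp (fun j => 2 * j) (fun i j h => by simpa using h)
  have hbo : Orthonormal ℝ b :=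
    (cv_orthonormal (⟨0, hn⟩ : Fin n)).comp (fun j => 2 * j + 1) (fun i j h => by simpa using h)
  have hab : ∀ i j, ⟪a i, b j⟫_ℝ = 0 := fun i j =>
    (cv_orthonormal (⟨0, hn⟩ : Fin n)).2 (by omega)
  obtain ⟨A₀, hA0, hA1⟩ := exists_operator hao hbo hab
  refine ⟨hW.der hgen A₀ hA0, hW.der_isDerivation hgen A₀ hA0, ?_⟩
  rintro X A hX ⟨u, hu, hXu⟩ hdec
  -- the vector field would have infinite norm
  have key : ∀ j, 1 ≤ ∫ ω, ⟪a j, X ω⟫_ℝ ^ 2 ∂P := by
    intro j
    obtain ⟨G, D, hG, hGg, hD, hδ⟩ := hdec ⟨hW.WL (a j), hW.WL_mem hgen (a j)⟩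
    have hGa := hW.grad_W hgen (hW.allLp_W (a j)).memLp_two.coeFn_toLp hG hGg
    rw [hW.der_WL hgen] at hδ
    have h1 := hD (b j) Polynomial.X
    simp only [Polynomial.eval_X, Polynomial.derivative_X, Polynomial.eval_one, mul_one] at h1
    have h2 : ∫ ω, (∫ t in Set.Icc (0 : ℝ) 1, ∑ i,
        (A ω t).mulVec (fun j => (G ω : ℝ → EuclideanSpace ℝ (Fin n)) t j) i *
          (b j : ℝ → EuclideanSpace ℝ (Fin n)) t i) ∂P = 0 := by
      have h3 : (fun ω => ∫ t in Set.Icc (0 : ℝ) 1, ∑ i,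
        (A ω t).mulVec (fun j => (G ω : ℝ → EuclideanSpace ℝ (Fin n)) t j) i *
          (b j : ℝ → EuclideanSpace ℝ (Fin n)) t i) =ᵐ[P] fun _ => 0 := by
        filter_upwards [hGa] with ω hω
        rw [hω]
        refine integral_eq_zero_of_ae ?_
        filter_upwards [cv_coe (⟨0, hn⟩ : Fin n) (2 * j), cv_coe (⟨0, hn⟩ : Fin n) (2 * j + 1)]
          with t h4 h5
        by_cases ht : t ∈ Iv (2 * j)
        · have ht' : t ∉ Iv (2 * j + 1) := fun h6 =>
            (Set.disjoint_left.1 (Iv_disjoint (by omega : 2 * j ≠ 2 * j + 1))) ht h6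
          have h7 := h5 ht'
          rw [hb]
          simp only
          rw [h7]
          simp
        · have h7 := h4 ht
          rw [ha]
          simp only
          rw [h7]
          have h8 : (fun j : Fin n => (0 : EuclideanSpace ℝ (Fin n)) j) = 0 := rfl
          rw [h8, Matrix.mulVec_zero]
          simp
      rw [integral_congr_ae h3, integral_zero]
    rw [h2] at h1
    have hXa : MemLp (fun ω => ⟪a j, X ω⟫_ℝ) 2 P := hX (a j)
    have h3 : (fun ω => D ω * W (b j) ω) =ᵐ[P]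
        fun ω => W (A₀ (a j)) ω * W (b j) ω - ⟪a j, X ω⟫_ℝ * W (b j) ω := by
      filter_upwards [hδ, hGa, (hW.allLp_W (A₀ (a j))).memLp_two.coeFn_toLp] with ω e1 e2 e3
      rw [WL, e3, e2] at e1
      rw [e1]
      ring
    have i1 : Integrable (fun ω => W (A₀ (a j)) ω * W (b j) ω) P :=
      ((hW.allLp_W _).mul (hW.allLp_W _)).integrable
    have i2 : Integrable (fun ω => ⟪a j, X ω⟫_ℝ * W (b j) ω) P :=
      hXa.integrable_mul (hW.allLp_W _).memLp_two
    rw [integral_congr_ae h3, integral_sub i1 i2] at h1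
    have h4 : ∫ ω, W (A₀ (a j)) ω * W (b j) ω ∂P = 1 := by
      have h5 := hW.inner_WL_WL (A₀ (a j)) (b j)
      rw [WL, WL, inner_toLp, hA1] at h5
      exact h5
    rw [h4] at h1
    have h5 : ⟪hXa.toLp _, hW.WL (b j)⟫_ℝ = 1 := by
      rw [WL, inner_toLp]
      linarith
    have h6 := abs_real_inner_le_norm (hXa.toLp _) (hW.WL (b j))
    have h7 : ‖hW.WL (b j)‖ = 1 := by
      have h8 := hW.inner_WL_WL (b j) (b j)
      rw [real_inner_self_eq_norm_sq, real_inner_self_eq_norm_sq, hbo.1 j] at h8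
      nlinarith [norm_nonneg (hW.WL (b j))]
    rw [h5, h7, mul_one, abs_one] at h6
    have h8 : ∫ ω, ⟪a j, X ω⟫_ℝ ^ 2 ∂P = ‖hXa.toLp _‖ ^ 2 := by
      rw [← real_inner_self_eq_norm_sq, inner_toLp]
      refine integral_congr_ae (Filter.Eventually.of_forall fun ω => ?_)
      simp only
      ring
    rw [h8]
    nlinarith
  have hN : ∀ N : ℕ, (N : ℝ) ≤ ∫ ω, u ω ∂P := by
    intro N
    have i : ∀ j, Integrable (fun ω => ⟪a j, X ω⟫_ℝ ^ 2) P := fun j => (hX (a j)).integrable_sq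
    calc (N : ℝ) = ∑ _j ∈ Finset.range N, (1 : ℝ) := by simp
      _ ≤ ∑ j ∈ Finset.range N, ∫ ω, ⟪a j, X ω⟫_ℝ ^ 2 ∂P := Finset.sum_le_sum fun j _ => key j
      _ = ∫ ω, ∑ j ∈ Finset.range N, ⟪a j, X ω⟫_ℝ ^ 2 ∂P :=
          (integral_finsetSum _ fun j _ => i j).symm
      _ ≤ ∫ ω, u ω ∂P := by
          refine integral_mono_ae (integrable_finsetSum _ fun j _ => i j) hu ?_
          filter_upwards [hXu] with ω hω
          have := hao.sum_inner_products_le (X ω) (s := Finset.range N)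
          refine le_trans ?_ hω
          simpa using this
  obtain ⟨N, hN1⟩ := exists_nat_gt (∫ ω, u ω ∂P)
  linarith [hN N]

end IsIsonormal

end Pool.Agent.Helper22.Mall
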