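import Pool.Agent.Helper22.Mall.Deriv

/-! A bounded antisymmetric operator which exchanges two orthonormal sequences, and the
Cameron-Martin space. -/

namespace Pool.Agent.Helper22.Mall

open MeasureTheory ProbabilityTheory Real Filter
open scoped ENNReal NNReal Topology InnerProductSpace

set_option linter.unusedSectionVars false
set_option linter.unusedVariables false

variable {H : Type*} [NormedAddCommGroup H] [InnerProductSpace ℝ H]

theorem exists_operator [CompleteSpace H] {a b : ℕ → H} (ha : Orthonormal ℝ a)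
    (hb : Orthonormal ℝ b) (hab : ∀ i j, ⟪a i, b j⟫_ℝ = 0) :
    ∃ A : H →L[ℝ] H, (∀ h, ⟪A h, h⟫_ℝ = 0) ∧ ∀ j, ⟪A (a j), b j⟫_ℝ = 1 := by
  classical
  have hVa := ha.orthogonalFamily
  have hVb := hb.orthogonalFamily
  set Va : lp (fun _ : ℕ => ℝ) 2 →L[ℝ] H := hVa.linearIsometry.toContinuousLinearMap with hVad
  set Vb : lp (fun _ : ℕ => ℝ) 2 →L[ℝ] H := hVb.linearIsometry.toContinuousLinearMap with hVbd
  have sa : ∀ j, Va (lp.single 2 j 1) = a j := by
    intro j
    have := hVa.linearIsometry_apply_single (i := j) (1 : ℝ)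
    rw [hVad]
    simpa using this
  have sb : ∀ j, Vb (lp.single 2 j 1) = b j := by
    intro j
    have := hVb.linearIsometry_apply_single (i := j) (1 : ℝ)
    rw [hVbd]
    simpa using this
  have coord : ∀ x i, (Va.adjoint x : ℕ → ℝ) i = ⟪a i, x⟫_ℝ := by
    intro x i
    rw [← sa i, ← ContinuousLinearMap.adjoint_inner_right, lp.inner_single_left]
    simp
  have h1 : ∀ j, Va.adjoint (a j) = lp.single 2 j 1 := by
    intro j
    ext i
    rw [coord, lp.coeFn_single, Pi.single_apply]
    have := (orthonormal_iff_ite.1 ha) i j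
    simpa using this
  have h2 : ∀ j, Va.adjoint (b j) = 0 := by
    intro j
    ext i
    rw [coord, hab]
    simp
  refine ⟨Vb ∘L Va.adjoint - (Vb ∘L Va.adjoint).adjoint, fun h => ?_, fun j => ?_⟩
  · rw [sub_apply, inner_sub_left, ContinuousLinearMap.adjoint_inner_left,
      real_inner_comm, sub_self]
  · rw [sub_apply, inner_sub_left, ContinuousLinearMap.adjoint_inner_left]
    simp only [ContinuousLinearMap.comp_apply]
    rw [h1, h2, map_zero, inner_zero_right, sub_zero, sb]
    simp [hb.1 j]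

/-- `H = L²([0,1]; ℝⁿ)`, the Cameron-Martin space with `h` represented by its derivative -/
abbrev CM (n : ℕ) : Type :=
  Lp (EuclideanSpace ℝ (Fin n)) 2 (volume.restrict (Set.Icc (0 : ℝ) 1))

noncomputable instance CM.normed (n : ℕ) : NormedAddCommGroup (CM n) := inferInstance

noncomputable instance CM.inner (n : ℕ) : InnerProductSpace ℝ (CM n) := inferInstance

/-- disjoint intervals -/
def Iv (j : ℕ) : Set ℝ := Set.Ioc (1 / ((j : ℝ) + 2)) (1 / ((j : ℝ) + 1))

lemma Iv_meas (j : ℕ) : MeasurableSet (Iv j) := measurableSet_Ioc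

lemma Iv_disjoint {i j : ℕ} (h : i ≠ j) : Disjoint (Iv i) (Iv j) := by
  have key : ∀ i j : ℕ, i < j → Disjoint (Iv i) (Iv j) := by
    intro i j hij
    rw [Set.disjoint_left]
    intro x hx hx'
    have h1 := hx.1
    have h2 := hx'.2
    have h3 : 1 / ((j : ℝ) + 1) ≤ 1 / ((i : ℝ) + 2) := by
      apply one_div_le_one_div_of_le (by positivity)
      have : (i : ℝ) + 1 ≤ j := by exact_mod_cast hij
      linarith
    linarith
  rcases lt_or_gt_of_ne h with h | h
  · exact key i j h
  · exact (key j i h).symm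

lemma Iv_subset (j : ℕ) : Iv j ⊆ Set.Icc 0 1 := by
  intro x hx
  constructor
  · have h1 := hx.1
    have : 0 < 1 / ((j : ℝ) + 2) := by positivity
    linarith
  · have h1 := hx.2
    have : 1 / ((j : ℝ) + 1) ≤ 1 := by
      rw [div_le_one (by positivity)]
      have : (0 : ℝ) ≤ j := Nat.cast_nonneg j
      linarith
    linarith

lemma Iv_real (j : ℕ) : 0 < (volume.restrict (Set.Icc (0 : ℝ) 1)).real (Iv j) := by
  rw [measureReal_restrict_apply (Iv_meas j), Set.inter_eq_left.2 (Iv_subset j), Iv,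
    measureReal_def, Real.volume_Ioc, ENNReal.toReal_ofReal]
  · rw [sub_pos]
    apply one_div_lt_one_div_of_lt (by positivity)
    linarith
  · rw [sub_nonneg]
    apply one_div_le_one_div_of_le (by positivity)
    linarith

/-- normalised indicators -/
noncomputable def cv {n : ℕ} (i₀ : Fin n) (j : ℕ) : CM n :=
  indicatorConstLp 2 (Iv_meas j) (measure_ne_top _ _)
    ((Real.sqrt ((volume.restrict (Set.Icc (0 : ℝ) 1)).real (Iv j)))⁻¹ •
      EuclideanSpace.single i₀ (1 : ℝ))

lemma cv_orthonormal {n : ℕ} (i₀ : Fin n) : Orthonormal ℝ (cv i₀) := by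
  rw [orthonormal_iff_ite]
  intro i j
  rw [cv, cv, L2.inner_indicatorConstLp_indicatorConstLp]
  by_cases h : i = j
  · subst h
    rw [Set.inter_self, if_pos rfl, real_inner_smul_left, real_inner_smul_right,
      real_inner_self_eq_norm_sq, EuclideanSpace.norm_single]
    have h1 := Iv_real i
    have h2 := Real.mul_self_sqrt h1.le
    have h3 : 0 < √((volume.restrict (Set.Icc (0 : ℝ) 1)).real (Iv i)) := Real.sqrt_pos.2 h1
    simp only [smul_eq_mul, norm_one, one_pow, mul_one]
    field_simp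
    nlinarith
  · rw [(Iv_disjoint h).inter_eq, if_neg h]
    simp

lemma cv_coe {n : ℕ} (i₀ : Fin n) (j : ℕ) :
    ∀ᵐ t ∂(volume.restrict (Set.Icc (0 : ℝ) 1)), t ∉ Iv j → (cv i₀ j : ℝ → _) t = 0 := by
  filter_upwards [indicatorConstLp_coeFn (p := 2) (hs := Iv_meas j)
    (hμs := measure_ne_top (volume.restrict (Set.Icc (0 : ℝ) 1)) _)
    (c := (Real.sqrt ((volume.restrict (Set.Icc (0 : ℝ) 1)).real (Iv j)))⁻¹ •
      (EuclideanSpace.single i₀ (1 : ℝ) : EuclideanSpace ℝ (Fin n)))] with t ht hj
  rw [cv, ht, Set.indicator_of_notMem hj]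

end Pool.Agent.Helper22.Mall
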