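import Pool.Agent.Helper22.Mall.TBound

/-! The operators `J = (1+N)⁻¹` and `T = div A ∇ (1+N)⁻²` on `L²`. -/

namespace Pool.Agent.Helper22.Mall

open MeasureTheory ProbabilityTheory Real Filter
open scoped ENNReal NNReal Topology InnerProductSpace

set_option linter.unusedSectionVars false
set_option linter.unusedVariables false

variable {H : Type*} [NormedAddCommGroup H] [InnerProductSpace ℝ H]
variable {Ω : Type*} [MeasurableSpace Ω]
variable {P : Measure Ω} {W : H → Ω → ℝ}

lemma inner_L2 (f g : Lp ℝ 2 P) : ⟪f, g⟫_ℝ = ∫ x, f x * g x ∂P := by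
  rw [L2.inner_def]
  simp [mul_comm]

lemma inner_toLp {f g : Ω → ℝ} (hf : MemLp f 2 P) (hg : MemLp g 2 P) :
    ⟪hf.toLp f, hg.toLp g⟫_ℝ = ∫ x, f x * g x ∂P := by
  rw [inner_L2]
  refine integral_congr_ae ?_
  filter_upwards [hf.coeFn_toLp, hg.coeFn_toLp] with x h1 h2
  rw [h1, h2]

lemma inner_toLp_right (F : Lp ℝ 2 P) {g : Ω → ℝ} (hg : MemLp g 2 P) :
    ⟪F, hg.toLp g⟫_ℝ = ∫ x, F x * g x ∂P := by
  rw [inner_L2]
  refine integral_congr_ae ?_
  filter_upwards [hg.coeFn_toLp] with x h2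
  rw [h2]

/-- linear combinations -/
noncomputable def comb (f : H → Lp ℝ 2 P) : (H →₀ ℝ) →ₗ[ℝ] Lp ℝ 2 P :=
  Finsupp.linearCombination ℝ f

lemma comb_coe (f : H → Ω → ℝ) (hf : ∀ h, MemLp (f h) 2 P) (c : H →₀ ℝ) :
    (comb (fun h => (hf h).toLp (f h)) c : Ω → ℝ) =ᵐ[P] fun ω => ∑ h ∈ c.support, c h * f h ω := by
  rw [comb, Finsupp.linearCombination_apply, Finsupp.sum]
  refine (Lp.coeFn_finsetSum _ _).trans ?_
  have h1 : ∀ h ∈ c.support, (c h • (hf h).toLp (f h) : Lp ℝ 2 P) =ᵐ[P] fun ω => c h * f h ω := by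
    intro h _
    filter_upwards [Lp.coeFn_smul (c h) ((hf h).toLp (f h)), (hf h).coeFn_toLp] with ω e1 e2
    rw [e1, Pi.smul_apply, e2, smul_eq_mul]
  have h2 := (eventually_all_finset c.support).2 h1
  filter_upwards [h2] with ω h3
  rw [Finset.sum_apply]
  exact Finset.sum_congr rfl h3

namespace IsIsonormal

lemma allLp_jf (hW : IsIsonormal P W) (h : H) : AllLp P (jf W h) := by
  refine (hW.allLp_exp_abs h).mono ?_ fun ω => ?_
  · have hm : Measurable fun p : Ω × ℝ => ex W (cos p.2) h p.1 := by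
      have := hW.measurable h
      unfold ex
      fun_prop
    exact (hm.stronglyMeasurable.integral_prod_right' (ν := νs)).aestronglyMeasurable
  · rw [abs_of_pos (exp_pos |W h ω|), jf]
    have := norm_integral_le_of_norm_le_const (μ := νs) (f := fun θ => ex W (cos θ) h ω)
      (C := exp |W h ω|) (Filter.Eventually.of_forall fun θ => by
        rw [Real.norm_of_nonneg (ex_pos _ _ _).le]
        exact ex_le (abs_cos_le_one θ) h ω)
    simpa using this

/-- exchanging the weights -/
lemma tf_eq (A : H → H) (h : H) (ω : Ω) :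
    tf W A h ω = W (A h) ω * ∫ θ, cos θ * ∫ φ, cos φ * ex W (cos θ * cos φ) h ω ∂νs ∂νs := by
  rw [tf, integral_sin_νc]
  simp_rw [integral_sin_νc]

lemma norm_inner_le (h : H) (ω : Ω) (θ : ℝ) :
    ‖∫ φ, cos φ * ex W (cos θ * cos φ) h ω ∂νs‖ ≤ exp |W h ω| := by
  have := norm_integral_le_of_norm_le_const (μ := νs)
    (f := fun φ => cos φ * ex W (cos θ * cos φ) h ω)
    (C := exp |W h ω|) (Filter.Eventually.of_forall fun φ => by
      rw [norm_mul, Real.norm_of_nonneg (ex_pos _ _ _).le, Real.norm_eq_abs]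
      calc |cos φ| * ex W (cos θ * cos φ) h ω ≤ 1 * exp |W h ω| := by
            refine mul_le_mul (abs_cos_le_one φ) (ex_le ?_ h ω) (ex_pos _ _ _).le zero_le_one
            rw [abs_mul]
            exact mul_le_one₀ (abs_cos_le_one _) (abs_nonneg _) (abs_cos_le_one _)
        _ = _ := one_mul _)
  simpa using this

lemma allLp_tf (hW : IsIsonormal P W) (A : H → H) (h : H) : AllLp P (tf W A h) := by
  have hp := hW.isProbabilityMeasure
  refine ((hW.allLp_W (A h)).mul (hW.allLp_exp_abs h)).mono ?_ fun ω => ?_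
  · have hm : Measurable fun p : (Ω × ℝ) × ℝ => cos p.2 * ex W (cos p.1.2 * cos p.2) h p.1.1 := by
      have := hW.measurable h
      unfold ex
      fun_prop
    have h1 := (hm.stronglyMeasurable.integral_prod_right' (ν := νs)).measurable
    have h2 : Measurable fun p : Ω × ℝ =>
        cos p.2 * ∫ φ, cos φ * ex W (cos p.2 * cos φ) h p.1 ∂νs :=
      (measurable_cos.comp measurable_snd).mul h1
    have h3 := (h2.stronglyMeasurable.integral_prod_right' (ν := νs)).measurable
    have h4 : tf W A h = fun ω => W (A h) ω *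
        ∫ θ, cos θ * ∫ φ, cos φ * ex W (cos θ * cos φ) h ω ∂νs ∂νs := by
      funext ω
      rw [tf_eq]
    rw [h4]
    exact ((hW.measurable (A h)).mul h3).aestronglyMeasurable
  · rw [tf_eq, abs_mul, abs_mul, abs_of_pos (exp_pos |W h ω|)]
    refine mul_le_mul_of_nonneg_left ?_ (abs_nonneg _)
    have := norm_integral_le_of_norm_le_const (μ := νs)
      (f := fun θ => cos θ * ∫ φ, cos φ * ex W (cos θ * cos φ) h ω ∂νs)
      (C := exp |W h ω|) (Filter.Eventually.of_forall fun θ => by
        rw [norm_mul, Real.norm_eq_abs]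
        calc |cos θ| * ‖∫ φ, cos φ * ex W (cos θ * cos φ) h ω ∂νs‖ ≤ 1 * exp |W h ω| :=
              mul_le_mul (abs_cos_le_one θ) (norm_inner_le h ω θ) (norm_nonneg _) zero_le_one
          _ = _ := one_mul _)
    simpa using this

/-- exponential vectors in `L²` -/
noncomputable def expL (hW : IsIsonormal P W) (h : H) : Lp ℝ 2 P :=
  (hW.allLp_ex 1 h).memLp_two.toLp _

noncomputable def jL (hW : IsIsonormal P W) (h : H) : Lp ℝ 2 P :=
  (hW.allLp_jf h).memLp_two.toLp _

noncomputable def tL (hW : IsIsonormal P W) (A : H → H) (h : H) : Lp ℝ 2 P :=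
  (hW.allLp_tf A h).memLp_two.toLp _

/-- `W(A h)` times the exponential functional: `div (A ∇ ε(h))` for antisymmetric `A` -/
lemma allLp_wf (hW : IsIsonormal P W) (A : H → H) (h : H) :
    AllLp P (fun ω => W (A h) ω * ex W 1 h ω) := by
  have hp := hW.isProbabilityMeasure
  exact (hW.allLp_W (A h)).mul (hW.allLp_ex 1 h)

noncomputable def wL (hW : IsIsonormal P W) (A : H → H) (h : H) : Lp ℝ 2 P :=
  (hW.allLp_wf A h).memLp_two.toLp _

lemma inner_expL_expL (hW : IsIsonormal P W) (h k : H) :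
    ⟪hW.expL h, hW.expL k⟫_ℝ = exp ⟪h, k⟫_ℝ := by
  rw [expL, expL, inner_toLp, integral_congr_ae (hW.ex_mul_ex h k), integral_const_mul,
    hW.integral_ex, mul_one]

lemma inner_wL_expL (hW : IsIsonormal P W) (A : H → H) (hA : ∀ h, ⟪A h, h⟫_ℝ = 0) (h k : H) :
    ⟪hW.wL A h, hW.expL k⟫_ℝ = ⟪A h, k⟫_ℝ * exp ⟪h, k⟫_ℝ := by
  rw [wL, expL, inner_toLp]
  have : (fun ω => W (A h) ω * ex W 1 h ω * ex W 1 k ω) =ᵐ[P]
      fun ω => exp ⟪h, k⟫_ℝ * (W (A h) ω * ex W 1 (h + k) ω) := by
    filter_upwards [hW.ex_mul_ex h k] with ω h1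
    rw [mul_assoc, h1]
    ring
  rw [integral_congr_ae this, integral_const_mul, hW.integral_W_mul_ex, inner_add_right, hA,
    zero_add, mul_comm]

/-! ### density -/

lemma denseRange_expL (hW : IsIsonormal P W) (hgen : Generates P W) :
    DenseRange (comb hW.expL) := by
  have h1 : (LinearMap.range (comb hW.expL)).topologicalClosure = ⊤ := by
    rw [Submodule.topologicalClosure_eq_top_iff, Submodule.eq_bot_iff]
    intro G hG
    rw [Submodule.mem_orthogonal'] at hG
    have h2 : ∀ h, ∫ ω, G ω * exp (W h ω) ∂P = 0 := by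
      intro h
      have h3 := hG (hW.expL h) ⟨Finsupp.single h 1, by simp [comb]⟩
      rw [expL, inner_toLp_right] at h3
      have h4 : (fun ω => G ω * ex W 1 h ω) =
          fun ω => exp (-(‖h‖ ^ 2 / 2)) * (G ω * exp (W h ω)) := by
        funext ω
        simp only [ex]
        rw [show 1 * W h ω - 1 ^ 2 * ‖h‖ ^ 2 / 2 = -(‖h‖ ^ 2 / 2) + W h ω by ring, Real.exp_add]
        ring
      rw [h4, integral_const_mul] at h3
      exact (mul_eq_zero.1 h3).resolve_left (exp_pos _).ne'
    have h5 := separation hW hgen (Lp.memLp G) h2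
    exact (Lp.eq_zero_iff_ae_eq_zero).2 h5
  have h2 := (Submodule.dense_iff_topologicalClosure_eq_top).2 h1
  rw [LinearMap.coe_range] at h2
  exact h2

lemma expL_eq_comb (hW : IsIsonormal P W) (f : H → Lp ℝ 2 P) (h : H) :
    comb f (Finsupp.single h 1) = f h := by simp [comb]

/-- operators agreeing on the exponential vectors are equal -/
lemma clm_ext (hW : IsIsonormal P W) (hgen : Generates P W) {X : Type*} [NormedAddCommGroup X]
    [NormedSpace ℝ X] {B C : Lp ℝ 2 P →L[ℝ] X} (h : ∀ h, B (hW.expL h) = C (hW.expL h)) : B = C := by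
  have h1 : ∀ c, B (comb hW.expL c) = C (comb hW.expL c) := by
    intro c
    rw [comb, Finsupp.linearCombination_apply, Finsupp.sum, map_sum, map_sum]
    exact Finset.sum_congr rfl fun k _ => by rw [map_smul, map_smul, h]
  ext1 x
  exact congrFun ((hW.denseRange_expL hgen).equalizer B.continuous C.continuous
    (funext fun c => h1 c)) x

lemma ext_inner (hW : IsIsonormal P W) (hgen : Generates P W) {F G : Lp ℝ 2 P}
    (h : ∀ h, ⟪F, hW.expL h⟫_ℝ = ⟪G, hW.expL h⟫_ℝ) : F = G := by
  have h1 : innerSL ℝ F = innerSL ℝ G := hW.clm_ext hgen (fun k => by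
    simpa [innerSL_apply_apply] using h k)
  refine ext_inner_right ℝ fun v => ?_
  have := congrArg (fun L => L v) h1
  simpa [innerSL_apply_apply] using this

/-! ### Fubini -/

lemma inner_jL (hW : IsIsonormal P W) (Q : Lp ℝ 2 P) (h : H) :
    ⟪Q, hW.jL h⟫_ℝ = ∫ θ, ⟪Q, hW.expL (cos θ • h)⟫_ℝ ∂νs := by
  have hp := hW.isProbabilityMeasure
  rw [jL, inner_toLp_right]
  have e1 : ∀ θ, ⟪Q, hW.expL (cos θ • h)⟫_ℝ = ∫ ω, Q ω * ex W (cos θ) h ω ∂P := by
    intro θ
    rw [expL, inner_toLp_right]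
    refine integral_congr_ae ?_
    filter_upwards [hW.ex_smul_ae (cos θ) h] with ω h1
    rw [h1]
  simp_rw [e1, jf, ← integral_const_mul]
  have hint : Integrable (Function.uncurry fun ω θ => Q ω * ex W (cos θ) h ω) (P.prod νs) := by
    have h1 : Integrable (fun ω => ‖Q ω‖ * exp |W h ω|) P :=
      (Lp.memLp Q).norm.integrable_mul (hW.allLp_exp_abs h).memLp_two
    refine (h1.comp_fst νs).mono' ?_ (Filter.Eventually.of_forall fun p => ?_)
    · have hm : Measurable fun p : Ω × ℝ => ex W (cos p.2) h p.1 := by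
        have := hW.measurable h
        unfold ex
        fun_prop
      exact (Lp.aestronglyMeasurable Q).comp_fst.mul hm.aestronglyMeasurable
    · simp only [Function.uncurry]
      rw [norm_mul, Real.norm_of_nonneg (ex_pos _ _ _).le]
      exact mul_le_mul_of_nonneg_left (ex_le (abs_cos_le_one _) h _) (norm_nonneg _)
  rw [integral_integral_swap hint]

lemma wL_smul (hW : IsIsonormal P W) (A : H →L[ℝ] H) (Q : Lp ℝ 2 P) (r : ℝ) (h : H) :
    ⟪Q, hW.wL A (r • h)⟫_ℝ = r * ∫ ω, Q ω * (W (A h) ω * ex W r h ω) ∂P := by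
  rw [wL, inner_toLp_right, ← integral_const_mul]
  refine integral_congr_ae ?_
  filter_upwards [hW.ex_smul_ae r h, hW.smul r (A h)] with ω h1 h2
  rw [h1, map_smul, h2, Pi.smul_apply, smul_eq_mul]
  ring

lemma inner_tL (hW : IsIsonormal P W) (A : H →L[ℝ] H) (Q : Lp ℝ 2 P) (h : H) :
    ⟪Q, hW.tL A h⟫_ℝ = ∫ θ, ∫ φ, ⟪Q, hW.wL A ((cos θ * cos φ) • h)⟫_ℝ ∂νs ∂νs := by
  have hp := hW.isProbabilityMeasure
  simp_rw [hW.wL_smul A Q]
  rw [tL, inner_toLp_right]
  simp_rw [tf_eq]
  have hg : Integrable (fun ω => ‖Q ω‖ * (‖W (A h) ω‖ * exp |W h ω|)) P := by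
    have h2 : AllLp P (fun y => ‖W (A h) y‖) := fun p => (hW.allLp_W (A h) p).norm
    exact (Lp.memLp Q).norm.integrable_mul (h2.mul (hW.allLp_exp_abs h)).memLp_two
  have hm0 : Measurable fun p : (Ω × ℝ) × ℝ => cos p.2 * ex W (cos p.1.2 * cos p.2) h p.1.1 := by
    have := hW.measurable h
    unfold ex
    fun_prop
  have hm1 : Measurable fun p : Ω × ℝ =>
      ∫ φ, cos φ * ex W (cos p.2 * cos φ) h p.1 ∂νs :=
    (hm0.stronglyMeasurable.integral_prod_right' (ν := νs)).measurable
  have e1 : ∀ ω, Q ω * (W (A h) ω * ∫ θ, cos θ * ∫ φ, cos φ * ex W (cos θ * cos φ) h ω ∂νs ∂νs) =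
      ∫ θ, Q ω * (W (A h) ω * (cos θ * ∫ φ, cos φ * ex W (cos θ * cos φ) h ω ∂νs)) ∂νs := by
    intro ω
    rw [integral_const_mul, integral_const_mul]
  simp_rw [e1]
  have hint1 : Integrable (Function.uncurry fun ω θ =>
      Q ω * (W (A h) ω * (cos θ * ∫ φ, cos φ * ex W (cos θ * cos φ) h ω ∂νs))) (P.prod νs) := by
    refine (hg.comp_fst νs).mono' ?_ (Filter.Eventually.of_forall fun p => ?_)
    · refine (Lp.aestronglyMeasurable Q).comp_fst.mul ?_
      exact (((hW.measurable (A h)).comp measurable_fst).mul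
        ((measurable_cos.comp measurable_snd).mul hm1)).aestronglyMeasurable
    · simp only [Function.uncurry]
      rw [norm_mul, norm_mul]
      refine mul_le_mul_of_nonneg_left (mul_le_mul_of_nonneg_left ?_ (norm_nonneg _))
        (norm_nonneg _)
      rw [norm_mul]
      calc ‖cos p.2‖ * ‖∫ φ, cos φ * ex W (cos p.2 * cos φ) h p.1 ∂νs‖ ≤ 1 * exp |W h p.1| :=
            mul_le_mul (abs_cos_le_one _) (norm_inner_le h _ _) (norm_nonneg _) zero_le_one
        _ = _ := one_mul _
  rw [integral_integral_swap hint1]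
  refine integral_congr_ae (Filter.Eventually.of_forall fun θ => ?_)
  simp only
  have e2 : ∀ ω, Q ω * (W (A h) ω * (cos θ * ∫ φ, cos φ * ex W (cos θ * cos φ) h ω ∂νs)) =
      ∫ φ, Q ω * (W (A h) ω * (cos θ * (cos φ * ex W (cos θ * cos φ) h ω))) ∂νs := by
    intro ω
    rw [integral_const_mul, integral_const_mul, integral_const_mul]
  simp_rw [e2]
  have hint2 : Integrable (Function.uncurry fun ω φ =>
      Q ω * (W (A h) ω * (cos θ * (cos φ * ex W (cos θ * cos φ) h ω)))) (P.prod νs) := by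
    refine (hg.comp_fst νs).mono' ?_ (Filter.Eventually.of_forall fun p => ?_)
    · refine (Lp.aestronglyMeasurable Q).comp_fst.mul ?_
      have hm : Measurable fun p : Ω × ℝ => ex W (cos θ * cos p.2) h p.1 := by
        have := hW.measurable h
        unfold ex
        fun_prop
      exact (((hW.measurable (A h)).comp measurable_fst).mul
        (((measurable_cos.comp measurable_snd).mul hm).const_mul _)).aestronglyMeasurable
    · simp only [Function.uncurry]
      rw [norm_mul, norm_mul]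
      refine mul_le_mul_of_nonneg_left (mul_le_mul_of_nonneg_left ?_ (norm_nonneg _))
        (norm_nonneg _)
      rw [norm_mul, norm_mul, Real.norm_of_nonneg (ex_pos _ _ _).le]
      calc ‖cos θ‖ * (‖cos p.2‖ * ex W (cos θ * cos p.2) h p.1) ≤ 1 * (1 * exp |W h p.1|) := by
            refine mul_le_mul (abs_cos_le_one _) (mul_le_mul (abs_cos_le_one _) (ex_le ?_ h _)
              (ex_pos _ _ _).le zero_le_one) (mul_nonneg (norm_nonneg _) (ex_pos _ _ _).le)
              zero_le_one
            rw [abs_mul]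
            exact mul_le_one₀ (abs_cos_le_one _) (abs_nonneg _) (abs_cos_le_one _)
        _ = _ := by ring
  rw [integral_integral_swap hint2]
  refine integral_congr_ae (Filter.Eventually.of_forall fun φ => ?_)
  simp only
  rw [← integral_const_mul]
  refine integral_congr_ae (Filter.Eventually.of_forall fun ω => ?_)
  simp only
  ring

end IsIsonormal

end Pool.Agent.Helper22.Mall
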