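import Pool.Agent.Helper22.Mall.Transfer

/-! Processes as random variables with values in the Cameron-Martin space; main theorem. -/

namespace Pool.Agent.Helper22.Mall.Wiener

open MeasureTheory ProbabilityTheory Real Filter
open scoped ENNReal NNReal Topology InnerProductSpace

set_option linter.unusedSectionVars false
set_option linter.unusedVariables false

variable {n : ℕ} {Ω : Type*} [MeasurableSpace Ω] {P : Measure Ω} {W : (ℝ → Fin n → ℝ) → Ω → ℝ}

lemma sqInt_sec [SFinite P] {X : Ω → ℝ → Fin n → ℝ} (hX : SqIntProcess P X) :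
    ∀ᵐ ω ∂P, SqInt (X ω) := by
  have h1 := hX.aestronglyMeasurable.prodMk_left
  have h2 := (hX.integrable_norm_pow (by norm_num)).prod_right_ae
  filter_upwards [h1, h2] with ω e1 e2
  exact (memLp_two_iff_integrable_sq_norm e1).2 e2

open Classical in
/-- the random variable defined by a process -/
noncomputable def rv (X : Ω → ℝ → Fin n → ℝ) (ω : Ω) : CM n :=
  if h : SqInt (X ω) then ofFn h else 0

lemma rv_eq {X : Ω → ℝ → Fin n → ℝ} {ω : Ω} (h : SqInt (X ω)) : rv X ω = ofFn h := by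
  rw [rv, dif_pos h]

lemma integrable_mul_prod [SFinite P] {X Y : Ω → ℝ → Fin n → ℝ} (hX : SqIntProcess P X)
    (hY : SqIntProcess P Y) : Integrable (fun ω => ip (X ω) (Y ω)) P := by
  have h1 : Integrable (fun p : Ω × ℝ => ∑ i, X p.1 p.2 i * Y p.1 p.2 i)
      (P.prod (volume.restrict (Set.Icc (0 : ℝ) 1))) := by
    refine integrable_finsetSum _ fun i _ => ?_
    have a1 : MemLp (fun p : Ω × ℝ => X p.1 p.2 i) 2
        (P.prod (volume.restrict (Set.Icc (0 : ℝ) 1))) :=
      (ContinuousLinearMap.proj (R := ℝ) (φ := fun _ : Fin n => ℝ) i).comp_memLp' hX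
    have a2 : MemLp (fun p : Ω × ℝ => Y p.1 p.2 i) 2
        (P.prod (volume.restrict (Set.Icc (0 : ℝ) 1))) :=
      (ContinuousLinearMap.proj (R := ℝ) (φ := fun _ : Fin n => ℝ) i).comp_memLp' hY
    exact a1.integrable_mul a2
  exact h1.integral_prod_left

lemma const_process [IsFiniteMeasure P] {k : ℝ → Fin n → ℝ} (hk : SqInt k) :
    SqIntProcess P (fun _ => k) := by
  have := MemLp.comp_snd (μ := P) hk
  exact this

lemma memLp_ip [IsFiniteMeasure P] {X : Ω → ℝ → Fin n → ℝ} (hX : SqIntProcess P X)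
    {k : ℝ → Fin n → ℝ} (hk : SqInt k) : MemLp (fun ω => ip (X ω) k) 2 P := by
  have h1 := integrable_mul_prod hX (const_process (P := P) hk)
  refine (memLp_two_iff_integrable_sq h1.aestronglyMeasurable).2 ?_
  refine ((integrable_mul_prod hX hX).mul_const (ip k k)).mono'
    (h1.aestronglyMeasurable.pow 2) ?_
  filter_upwards [sqInt_sec hX] with ω hω
  rw [← ip_ofFn hω hk, ← ip_ofFn hω hω, ← ip_ofFn hk hk, real_inner_self_eq_norm_sq,
    real_inner_self_eq_norm_sq, Real.norm_eq_abs, abs_pow, ← mul_pow]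
  exact pow_le_pow_left₀ (abs_nonneg _) (abs_real_inner_le_norm _ _) 2

lemma memLp_rv [IsFiniteMeasure P] {X : Ω → ℝ → Fin n → ℝ} (hX : SqIntProcess P X) (k : CM n) :
    MemLp (fun ω => ⟪rv X ω, k⟫_ℝ) 2 P := by
  refine (memLp_ip hX (toFn_sqInt k)).ae_eq ?_
  filter_upwards [sqInt_sec hX] with ω hω
  rw [rv_eq hω, ip_ofFn_left]

/-- **Main theorem.** -/
theorem main (hn : 0 < n) (hW : IsWienerIntegral P W) (hgen : Generates P W) :
    ∃ δ : (Ω → ℝ) → Ω → ℝ, IsDerivation P W δ ∧ ¬ IsDecomposable P W δ := by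
  have hp := (iso hW).isProbabilityMeasure
  obtain ⟨δ, h1, h2⟩ := (iso hW).not_decomposable hn (gen hW hgen)
  refine ⟨low hW δ, low_derivation hW h1, ?_⟩
  rintro ⟨X, A, hX, -, hdec⟩
  refine h2 (rv X) A (fun k => ?_) ⟨fun ω => ip (X ω) (X ω), integrable_mul_prod hX hX, ?_⟩
    fun f => ?_
  · refine (memLp_rv hX k).ae_eq (Filter.Eventually.of_forall fun ω => ?_)
    simp only
    rw [real_inner_comm]
  · filter_upwards [sqInt_sec hX] with ω hω
    rw [rv_eq hω, ← real_inner_self_eq_norm_sq, ip_ofFn]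
  · obtain ⟨G, D, hG, hgrad, hdiv, hδ⟩ := hdec (f.1 : Ω → ℝ) (smooth_of_lp hW f)
    refine ⟨rv G, D, memLp_rv hG, ?_, ?_, ?_⟩
    · intro k h φ
      have h3 := hgrad (toFn k) (toFn h) φ (toFn_sqInt k) (toFn_sqInt h)
      rw [ip_toFn] at h3
      refine Eq.trans ?_ h3
      refine integral_congr_ae ?_
      filter_upwards [sqInt_sec hG] with ω hω
      rw [rv_eq hω, ip_ofFn_left]
      rfl
    · intro h φ
      have h3 := hdiv (toFn h) φ (toFn_sqInt h)
      change ∫ ω, D ω * φ.eval (W (toFn h) ω) ∂P = _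
      rw [h3]
      refine integral_congr_ae ?_
      filter_upwards [sqInt_sec hG] with ω hω
      change ip (fun t => (A ω t).mulVec (G ω t)) (toFn h) * _ = ip (fun t => (A ω t).mulVec
        (toFn (rv G ω) t)) (toFn h) * φ.derivative.eval (W (toFn h) ω)
      congr 1
      refine ip_congr ?_ (Filter.EventuallyEq.refl _ _)
      rw [rv_eq hω]
      filter_upwards [toFn_ofFn hω] with t ht
      rw [ht]
    · rw [low_eq hW δ (smooth_of_lp hW f)] at hδ
      have e : lift hW (smooth_of_lp hW f) = f := by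
        refine Subtype.ext ?_
        exact Lp.toLp_coeFn f.1 (Lp.memLp f.1)
      rw [e] at hδ
      filter_upwards [hδ, sqInt_sec hG, sqInt_sec hX] with ω e1 e2 e3
      rw [e1, rv_eq e2, rv_eq e3, ip_ofFn]

end Pool.Agent.Helper22.Mall.Wiener
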