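import Pool.Agent.Helper22.Mall.Separation

/-! Rotation invariance and averaging inequalities. -/

namespace Pool.Agent.Helper22.Mall

open MeasureTheory ProbabilityTheory Real Filter
open scoped ENNReal NNReal Topology InnerProductSpace

set_option linter.unusedSectionVars false
set_option linter.unusedVariables false

variable {H : Type*} [NormedAddCommGroup H] [InnerProductSpace ℝ H]
variable {Ω : Type*} [MeasurableSpace Ω]
variable {P : Measure Ω} {W : H → Ω → ℝ}

/-! ### the weights -/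

/-- the probability measure `cos θ dθ` on `(0, π/2]` -/
noncomputable def νc : Measure ℝ :=
  (volume.restrict (Set.Ioc 0 (π / 2))).withDensity (fun θ => ENNReal.ofReal (cos θ))

/-- the probability measure `sin θ dθ` on `(0, π/2]` -/
noncomputable def νs : Measure ℝ :=
  (volume.restrict (Set.Ioc 0 (π / 2))).withDensity (fun θ => ENNReal.ofReal (sin θ))

lemma cos_nonneg_ae : ∀ᵐ θ ∂(volume.restrict (Set.Ioc 0 (π / 2))), 0 ≤ cos θ := by
  filter_upwards [ae_restrict_mem measurableSet_Ioc] with θ hθ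
  exact cos_nonneg_of_neg_pi_div_two_le_of_le (by linarith [hθ.1, pi_pos]) hθ.2

lemma sin_nonneg_ae : ∀ᵐ θ ∂(volume.restrict (Set.Ioc 0 (π / 2))), 0 ≤ sin θ := by
  filter_upwards [ae_restrict_mem measurableSet_Ioc] with θ hθ
  exact sin_nonneg_of_nonneg_of_le_pi hθ.1.le (by linarith [hθ.2, pi_pos])

instance : IsProbabilityMeasure νc := by
  constructor
  rw [νc, withDensity_apply _ MeasurableSet.univ, Measure.restrict_univ,
    ← ofReal_integral_eq_lintegral_ofReal]
  · rw [← intervalIntegral.integral_of_le (by positivity), integral_cos]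
    simp
  · exact (continuous_cos.integrableOn_Ioc)
  · exact cos_nonneg_ae

instance : IsProbabilityMeasure νs := by
  constructor
  rw [νs, withDensity_apply _ MeasurableSet.univ, Measure.restrict_univ,
    ← ofReal_integral_eq_lintegral_ofReal]
  · rw [← intervalIntegral.integral_of_le (by positivity), integral_sin]
    simp
  · exact (continuous_sin.integrableOn_Ioc)
  · exact sin_nonneg_ae

lemma integral_νc {E : Type*} [NormedAddCommGroup E] [NormedSpace ℝ E] (f : ℝ → E) :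
    ∫ θ, f θ ∂νc = ∫ θ in Set.Ioc 0 (π / 2), cos θ • f θ := by
  rw [νc, integral_withDensity_eq_integral_toReal_smul (by fun_prop)
    (Filter.Eventually.of_forall fun _ => by simp)]
  refine integral_congr_ae ?_
  filter_upwards [cos_nonneg_ae] with θ hθ
  rw [ENNReal.toReal_ofReal hθ]

lemma integral_νs {E : Type*} [NormedAddCommGroup E] [NormedSpace ℝ E] (f : ℝ → E) :
    ∫ θ, f θ ∂νs = ∫ θ in Set.Ioc 0 (π / 2), sin θ • f θ := by
  rw [νs, integral_withDensity_eq_integral_toReal_smul (by fun_prop)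
    (Filter.Eventually.of_forall fun _ => by simp)]
  refine integral_congr_ae ?_
  filter_upwards [sin_nonneg_ae] with θ hθ
  rw [ENNReal.toReal_ofReal hθ]

/-- exchanging the weights -/
lemma integral_sin_νc (f : ℝ → ℝ) : ∫ θ, sin θ * f θ ∂νc = ∫ θ, cos θ * f θ ∂νs := by
  rw [integral_νc, integral_νs]
  refine integral_congr_ae (Filter.Eventually.of_forall fun θ => ?_)
  simp only [smul_eq_mul]
  ring

lemma integral_cos_pow_νs (m : ℕ) : ∫ θ, cos θ ^ m ∂νs = 1 / (m + 1) := by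
  rw [integral_νs, ← intervalIntegral.integral_of_le (by positivity)]
  have h : ∀ x ∈ Set.uIcc 0 (π / 2), HasDerivAt (fun x => -(cos x ^ (m + 1)) / (m + 1))
      (sin x • cos x ^ m) x := by
    intro x _
    have h1 := ((hasDerivAt_cos x).pow (m + 1)).neg.div_const ((m : ℝ) + 1)
    refine h1.congr_deriv ?_
    have : (m : ℝ) + 1 ≠ 0 := by positivity
    simp only [Nat.add_sub_cancel, smul_eq_mul]
    push_cast
    field_simp
  rw [intervalIntegral.integral_eq_sub_of_hasDerivAt h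
    ((by fun_prop : Continuous fun x => sin x • cos x ^ m).intervalIntegrable _ _)]
  simp [neg_div]

/-! ### Jensen's inequality -/

lemma lintegral_rpow_le {α : Type*} [MeasurableSpace α] {μ : Measure α} [IsProbabilityMeasure μ]
    {f : α → ℝ≥0∞} (hf : AEMeasurable f μ) {q : ℝ} (hq : 1 ≤ q) :
    (∫⁻ x, f x ∂μ) ^ q ≤ ∫⁻ x, f x ^ q ∂μ := by
  rcases hq.eq_or_lt with rfl | hq
  · simp
  have hc : (Real.conjExponent q).HolderConjugate q :=
    (Real.HolderConjugate.conjExponent hq).symm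
  have h1 := ENNReal.lintegral_mul_le_Lp_mul_Lq μ hc (f := fun _ => 1) (g := f)
    aemeasurable_const hf
  simp only [Pi.mul_apply, one_mul, ENNReal.one_rpow, lintegral_const, measure_univ,
    mul_one] at h1
  calc (∫⁻ x, f x ∂μ) ^ q ≤ ((∫⁻ x, f x ^ q ∂μ) ^ (1 / q)) ^ q :=
        ENNReal.rpow_le_rpow h1 (by linarith)
    _ = ∫⁻ x, f x ^ q ∂μ := by
        rw [← ENNReal.rpow_mul, one_div, inv_mul_cancel₀ (by linarith), ENNReal.rpow_one]

/-- averaging does not increase the `L^q` norm -/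
lemma avg_bound [IsProbabilityMeasure P] {ν : Measure ℝ} [IsProbabilityMeasure ν]
    {f : Ω → Ω → ℝ → ℝ} (hf : Measurable fun z : Ω × Ω × ℝ => f z.1 z.2.1 z.2.2)
    {q : ℝ} (hq : 1 ≤ q) {C : ℝ≥0∞} (hC : ∀ θ, ∫⁻ x, ∫⁻ y, ‖f x y θ‖ₑ ^ q ∂P ∂P ≤ C) :
    ∫⁻ x, ‖∫ θ, ∫ y, f x y θ ∂P ∂ν‖ₑ ^ q ∂P ≤ C := by
  have hq0 : 0 ≤ q := by linarith
  have hfe : Measurable fun z : Ω × Ω × ℝ => ‖f z.1 z.2.1 z.2.2‖ₑ := hf.enorm
  have hfq : Measurable fun z : Ω × Ω × ℝ => ‖f z.1 z.2.1 z.2.2‖ₑ ^ q := hfe.pow_const q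
  calc ∫⁻ x, ‖∫ θ, ∫ y, f x y θ ∂P ∂ν‖ₑ ^ q ∂P
      ≤ ∫⁻ x, ∫⁻ θ, ∫⁻ y, ‖f x y θ‖ₑ ^ q ∂P ∂ν ∂P := by
        refine lintegral_mono fun x => ?_
        calc ‖∫ θ, ∫ y, f x y θ ∂P ∂ν‖ₑ ^ q ≤ (∫⁻ θ, ∫⁻ y, ‖f x y θ‖ₑ ∂P ∂ν) ^ q := by
              refine ENNReal.rpow_le_rpow ?_ hq0
              refine (enorm_integral_le_lintegral_enorm _).trans ?_
              exact lintegral_mono fun θ => enorm_integral_le_lintegral_enorm _
          _ ≤ ∫⁻ θ, (∫⁻ y, ‖f x y θ‖ₑ ∂P) ^ q ∂ν := by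
              refine lintegral_rpow_le ?_ hq
              have : Measurable fun p : ℝ × Ω => ‖f x p.2 p.1‖ₑ :=
                hfe.comp (measurable_const.prodMk (measurable_snd.prodMk measurable_fst))
              exact this.lintegral_prod_right'.aemeasurable
          _ ≤ _ := by
              refine lintegral_mono fun θ => ?_
              refine lintegral_rpow_le ?_ hq
              have : Measurable fun y : Ω => ‖f x y θ‖ₑ :=
                hfe.comp (measurable_const.prodMk (measurable_id.prodMk measurable_const))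
              exact this.aemeasurable
    _ = ∫⁻ θ, ∫⁻ x, ∫⁻ y, ‖f x y θ‖ₑ ^ q ∂P ∂P ∂ν := by
        rw [lintegral_lintegral_swap]
        have h3 : Measurable fun p : (Ω × ℝ) × Ω => ‖f p.1.1 p.2 p.1.2‖ₑ ^ q :=
          hfq.comp (measurable_fst.fst.prodMk (measurable_snd.prodMk measurable_fst.snd))
        exact h3.lintegral_prod_right'.aemeasurable
    _ ≤ ∫⁻ θ, C ∂ν := lintegral_mono fun θ => hC θ
    _ = C := by simp

/-! ### Gaussian vectors -/

namespace IsIsonormal

lemma sum_ae (hW : IsIsonormal P W) {ι : Type*} (s : Finset ι) (t : ι → ℝ) (g : ι → H) :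
    W (∑ i ∈ s, t i • g i) =ᵐ[P] fun ω => ∑ i ∈ s, t i * W (g i) ω := by
  classical
  induction s using Finset.induction_on with
  | empty =>
    filter_upwards [hW.smul 0 (0 : H)] with ω h0
    simp only [zero_smul] at h0
    simp [h0]
  | insert a s ha ih =>
    rw [Finset.sum_insert ha]
    filter_upwards [hW.add (t a • g a) (∑ i ∈ s, t i • g i), ih, hW.smul (t a) (g a)]
      with ω h1 h2 h3
    rw [h1, Pi.add_apply, h2, h3, Finset.sum_insert ha]
    simp

lemma measurable_vec (hW : IsIsonormal P W) {ι : Type*} (g : ι → H) :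
    Measurable (fun ω i => W (g i) ω) := measurable_pi_lambda _ fun i => hW.measurable _

lemma dual_vec (hW : IsIsonormal P W) {ι : Type*} [Fintype ι] [DecidableEq ι] (g : ι → H)
    (L : StrongDual ℝ (ι → ℝ)) :
    (fun ω => L (fun i => W (g i) ω)) =ᵐ[P]
      W (∑ i, (L (Pi.single i 1)) • g i) := by
  filter_upwards [hW.sum_ae Finset.univ (fun i => L (Pi.single i 1)) g] with ω h
  rw [h]
  have h1 : (fun i => W (g i) ω) = ∑ i, (W (g i) ω) • (Pi.single i (1 : ℝ) : ι → ℝ) := by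
    funext j
    simp [Finset.sum_apply, Pi.single_apply]
  conv_lhs => rw [h1, map_sum]
  refine Finset.sum_congr rfl fun i _ => ?_
  rw [map_smul, smul_eq_mul, mul_comm]

lemma isGaussian_vec (hW : IsIsonormal P W) {ι : Type*} [Fintype ι] (g : ι → H) :
    IsGaussian (P.map (fun ω i => W (g i) ω)) := by
  classical
  have hp := hW.isProbabilityMeasure
  refine isGaussian_of_map_eq_gaussianReal fun L => ?_
  refine ⟨0, Real.toNNReal (‖∑ i, (L (Pi.single i 1)) • g i‖ ^ 2), ?_⟩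
  rw [Measure.map_map (by fun_prop) (hW.measurable_vec g), ← hW.law]
  exact Measure.map_congr (hW.dual_vec g L)

lemma dual_vec_integral (hW : IsIsonormal P W) {ι : Type*} [Fintype ι] (g : ι → H)
    (L : StrongDual ℝ (ι → ℝ)) : (P.map (fun ω i => W (g i) ω))[L] = 0 := by
  classical
  rw [integral_map (hW.measurable_vec g).aemeasurable (by fun_prop),
    integral_congr_ae (hW.dual_vec g L)]
  have h1 := integral_map (μ := P) (φ := W (∑ i, (L (Pi.single i 1)) • g i))
    (hW.measurable _).aemeasurable (f := fun x : ℝ => x) (by fun_prop)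
  rw [hW.law, integral_id_gaussianReal] at h1
  exact h1.symm

/-- rotation invariance -/
lemma rotation_lintegral (hW : IsIsonormal P W) {ι : Type*} [Fintype ι] (g : ι → H) (θ : ℝ)
    {Φ : (ι → ℝ) × (ι → ℝ) → ℝ≥0∞} (hΦ : Measurable Φ) :
    ∫⁻ x, ∫⁻ y, Φ (fun i => cos θ * W (g i) x + sin θ * W (g i) y,
        fun i => -sin θ * W (g i) x + cos θ * W (g i) y) ∂P ∂P =
      ∫⁻ x, ∫⁻ y, Φ (fun i => W (g i) x, fun i => W (g i) y) ∂P ∂P := by
  have hp := hW.isProbabilityMeasure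
  have hm := hW.measurable_vec g
  have hgauss := hW.isGaussian_vec g
  have hrot := IsGaussian.map_rotation_eq_self_of_forall_strongDual_eq_zero
    (μ := P.map (fun ω i => W (g i) ω)) (hW.dual_vec_integral g) θ
  have e1 : ∀ Ψ : (ι → ℝ) × (ι → ℝ) → ℝ≥0∞, Measurable Ψ →
      ∫⁻ x, ∫⁻ y, Ψ (fun i => W (g i) x, fun i => W (g i) y) ∂P ∂P =
      ∫⁻ z, Ψ z ∂((P.map (fun ω i => W (g i) ω)).prod (P.map (fun ω i => W (g i) ω))) := by
    intro Ψ hΨ
    rw [lintegral_prod _ hΨ.aemeasurable, lintegral_map (hΨ.lintegral_prod_right') hm]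
    refine lintegral_congr fun x => ?_
    rw [lintegral_map (f := fun y => Ψ (fun i => W (g i) x, y))
      (hΨ.comp (measurable_const.prodMk measurable_id)) hm]
  rw [e1 Φ hΦ]
  conv_rhs => rw [← hrot]
  rw [lintegral_map hΦ (ContinuousLinearMap.rotation θ).continuous.measurable,
    ← e1 (fun a => Φ (ContinuousLinearMap.rotation θ a))
      (hΦ.comp (ContinuousLinearMap.rotation θ).continuous.measurable)]
  refine lintegral_congr fun x => lintegral_congr fun y => ?_
  congr 1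


lemma rotation_lintegral_fst (hW : IsIsonormal P W) {ι : Type*} [Fintype ι] (g : ι → H) (θ : ℝ)
    {Φ : (ι → ℝ) → ℝ≥0∞} (hΦ : Measurable Φ) :
    ∫⁻ x, ∫⁻ y, Φ (fun i => cos θ * W (g i) x + sin θ * W (g i) y) ∂P ∂P =
      ∫⁻ x, Φ (fun i => W (g i) x) ∂P := by
  have hp := hW.isProbabilityMeasure
  have h := hW.rotation_lintegral g θ (Φ := fun z => Φ z.1) (hΦ.comp measurable_fst)
  simpa using h

/-- absolute moments -/
lemma lintegral_W_rpow (hW : IsIsonormal P W) (u : H) {q : ℝ} (hq : 0 ≤ q) :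
    ∫⁻ ω, ‖W u ω‖ₑ ^ q ∂P = ‖u‖ₑ ^ q * ∫⁻ t, ‖t‖ₑ ^ q ∂(gaussianReal 0 1) := by
  have h1 : ∫⁻ ω, ‖W u ω‖ₑ ^ q ∂P = ∫⁻ t, ‖t‖ₑ ^ q ∂(gaussianReal 0 (Real.toNNReal (‖u‖ ^ 2))) := by
    rw [← hW.law u, lintegral_map (by fun_prop) (hW.measurable u)]
  rw [h1]
  have h2 : gaussianReal 0 (Real.toNNReal (‖u‖ ^ 2)) = (gaussianReal 0 1).map (‖u‖ * ·) := by
    rw [gaussianReal_map_const_mul]
    congr 1
    · simp
    · rw [mul_one]
      ext
      simp
  rw [h2, lintegral_map (by fun_prop) (by fun_prop), ← lintegral_const_mul _ (by fun_prop)]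
  refine lintegral_congr fun t => ?_
  rw [enorm_mul, ENNReal.mul_rpow_of_nonneg _ _ hq]
  simp

end IsIsonormal

/-- the absolute moment of order `q` of the standard Gaussian law -/
noncomputable def gmom (q : ℝ) : ℝ≥0∞ := ∫⁻ t, ‖t‖ₑ ^ q ∂(gaussianReal 0 1)

lemma gmom_lt_top {q : ℝ} (hq : 0 < q) : gmom q < ∞ := by
  have h := memLp_id_gaussianReal' (μ := 0) (v := 1) (ENNReal.ofReal q) (by simp)
  have h1 := h.2
  rw [eLpNorm_eq_lintegral_rpow_enorm_toReal (by simpa using hq) (by simp),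
    ENNReal.toReal_ofReal hq.le] at h1
  have h2 : (∫⁻ t, ‖t‖ₑ ^ q ∂(gaussianReal 0 1)) ^ (1 / q) < ∞ := h1
  rw [gmom]
  by_contra hc
  rw [not_lt, top_le_iff] at hc
  rw [hc, ENNReal.top_rpow_of_pos (by positivity)] at h2
  exact lt_irrefl _ h2

end Pool.Agent.Helper22.Mall
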