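import Pool.Agent.Helper22.Mall.Basic

/-! Exponential functionals separate square integrable random variables. -/

namespace Pool.Agent.Helper22.Mall

open MeasureTheory ProbabilityTheory Real Filter
open scoped ENNReal NNReal Topology InnerProductSpace

set_option linter.unusedSectionVars false
set_option linter.unusedVariables false

variable {H : Type*} [NormedAddCommGroup H] [InnerProductSpace ℝ H]
variable {Ω : Type*} [MeasurableSpace Ω]

/-- Up to null sets, every event belongs to the `σ`-algebra generated by `W`. -/
def Generates (P : Measure Ω) (W : H → Ω → ℝ) : Prop :=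
  ∀ s : Set Ω, MeasurableSet s → ∃ t : Set Ω,
    MeasurableSet[⨆ h, MeasurableSpace.comap (W h) inferInstance] t ∧ s =ᵐ[P] t

variable {P : Measure Ω} {W : H → Ω → ℝ}

/-- two finite measures, absolutely continuous with respect to `P`, with the same Laplace
transforms -/
lemma measure_eq_of_laplace (hW : IsIsonormal P W) (hgen : Generates P W)
    (μ ν : Measure Ω) [IsFiniteMeasure μ] [IsFiniteMeasure ν] (hμ : μ ≪ P) (hν : ν ≪ P)
    (hμi : ∀ h, Integrable (fun ω => exp (W h ω)) μ)
    (h : ∀ h, ∫ ω, exp (W h ω) ∂μ = ∫ ω, exp (W h ω) ∂ν) : μ = ν := by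
  -- all Laplace transforms in one direction
  have hmgf : ∀ g, mgf (W g) μ = mgf (W g) ν := by
    intro g
    funext t
    have h1 := h (t • g)
    have e1 : ∀ ρ : Measure Ω, ρ ≪ P → ∫ ω, exp (W (t • g) ω) ∂ρ = mgf (W g) ρ t := by
      intro ρ hρ
      refine integral_congr_ae ?_
      filter_upwards [hρ.ae_le (hW.smul t g)] with ω h2
      rw [h2]
      simp
    rwa [e1 μ hμ, e1 ν hν] at h1
  have huniv : μ Set.univ = ν Set.univ := by
    have h1 := congrFun (hmgf 0) 0
    simp only [mgf_zero'] at h1
    rwa [measureReal_def, measureReal_def,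
      ENNReal.toReal_eq_toReal_iff' (measure_ne_top _ _) (measure_ne_top _ _)] at h1
  have hzero : μ = 0 ↔ ν = 0 := by
    rw [← Measure.measure_univ_eq_zero, ← Measure.measure_univ_eq_zero, huniv]
  have hset : ∀ g, integrableExpSet (W g) μ = Set.univ := by
    intro g
    ext t
    simp only [integrableExpSet, Set.mem_ofPred_eq, Set.mem_univ, iff_true]
    refine (hμi (t • g)).congr ?_
    filter_upwards [hμ.ae_le (hW.smul t g)] with ω h2
    rw [h2]
    simp
  have hchar : ∀ g, ∫ ω, Complex.exp (W g ω * Complex.I) ∂μ =
      ∫ ω, Complex.exp (W g ω * Complex.I) ∂ν := by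
    intro g
    have h1 := eqOn_complexMGF_of_mgf' (hmgf g) hzero
    rw [hset g] at h1
    have h2 := h1 (x := Complex.I) (by simp)
    simp only [complexMGF] at h2
    simpa [mul_comm] using h2
  -- finite-dimensional laws
  have hfin : ∀ I : Finset H,
      μ.map (fun ω (i : I) => W i ω) = ν.map (fun ω (i : I) => W i ω) := by
    intro I
    have hmeas : Measurable (fun ω (i : I) => W i ω) :=
      measurable_pi_lambda _ fun i => hW.measurable i
    have hmeas' : Measurable (fun ω => (WithLp.toLp 2 (fun (i : I) => W i ω) :
        EuclideanSpace ℝ I)) := by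
      exact (WithLp.measurable_toLp 2 (I → ℝ)).comp hmeas
    have key : μ.map (fun ω => (WithLp.toLp 2 (fun (i : I) => W i ω) : EuclideanSpace ℝ I)) =
        ν.map (fun ω => (WithLp.toLp 2 (fun (i : I) => W i ω) : EuclideanSpace ℝ I)) := by
      have := Measure.isFiniteMeasure_map μ
        (fun ω => (WithLp.toLp 2 (fun (i : I) => W i ω) : EuclideanSpace ℝ I))
      have := Measure.isFiniteMeasure_map ν
        (fun ω => (WithLp.toLp 2 (fun (i : I) => W i ω) : EuclideanSpace ℝ I))
      refine Measure.ext_of_charFun ?_
      funext t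
      have e1 : ∀ ρ : Measure Ω, ρ ≪ P →
          charFun (ρ.map (fun ω => (WithLp.toLp 2 (fun (i : I) => W i ω) :
            EuclideanSpace ℝ I))) t =
          ∫ ω, Complex.exp (W (∑ i : I, t i • (i : H)) ω * Complex.I) ∂ρ := by
        intro ρ hρ
        rw [charFun_apply, integral_map hmeas'.aemeasurable]
        · refine integral_congr_ae ?_
          have hs : W (∑ i : I, t i • (i : H)) =ᵐ[P] fun ω => ∑ i : I, t i * W i ω := by
            have : ∀ s : Finset I, W (∑ i ∈ s, t i • (i : H)) =ᵐ[P]
                fun ω => ∑ i ∈ s, t i * W i ω := by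
              intro s
              classical
              induction s using Finset.induction_on with
              | empty =>
                filter_upwards [hW.smul 0 (0 : H)] with ω h0
                simp only [zero_smul] at h0
                simp [h0]
              | insert a s ha ih =>
                rw [Finset.sum_insert ha]
                filter_upwards [hW.add (t a • (a : H)) (∑ i ∈ s, t i • (i : H)), ih,
                  hW.smul (t a) a] with ω h1 h2 h3
                rw [h1, Pi.add_apply, h2, h3, Finset.sum_insert ha]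
                simp
            exact this Finset.univ
          filter_upwards [hρ.ae_le hs] with ω h1
          rw [h1]
          congr 2
        · have : Continuous fun x : EuclideanSpace ℝ I => Complex.exp (⟪x, t⟫_ℝ * Complex.I) := by
            fun_prop
          exact this.aestronglyMeasurable
      rw [e1 μ hμ, e1 ν hν]
      exact hchar _
    have h2 := congrArg (fun ρ => Measure.map (WithLp.ofLp (p := 2) (V := I → ℝ)) ρ) key
    simp only at h2
    rw [Measure.map_map (by fun_prop) hmeas', Measure.map_map (by fun_prop) hmeas'] at h2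
    exact h2
  -- the law of the whole family
  have hfull : μ.map (fun ω h => W h ω) = ν.map (fun ω h => W h ω) := by
    have hmeas : Measurable (fun ω (h : H) => W h ω) :=
      measurable_pi_lambda _ fun i => hW.measurable i
    have : ∀ I : Finset H, IsFiniteMeasure (μ.map (fun ω (i : I) => W i ω)) := fun I =>
      Measure.isFiniteMeasure_map μ _
    refine IsProjectiveLimit.unique (P := fun I : Finset H => μ.map (fun ω (i : I) => W i ω))
      (fun I => ?_) (fun I => ?_)
    · rw [Measure.map_map (by fun_prop) hmeas]
      rfl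
    · rw [Measure.map_map (by fun_prop) hmeas]
      exact (hfin I).symm
  -- all events
  ext s hs
  obtain ⟨t, ht, hst⟩ := hgen s hs
  have hcomap : (⨆ h, MeasurableSpace.comap (W h) inferInstance) =
      MeasurableSpace.comap (fun ω (h : H) => W h ω) MeasurableSpace.pi := by
    rw [MeasurableSpace.pi, MeasurableSpace.comap_iSup]
    simp only [MeasurableSpace.comap_comp]
    rfl
  rw [hcomap] at ht
  obtain ⟨T, hT, rfl⟩ := ht
  have hmeas : Measurable (fun ω (h : H) => W h ω) :=
    measurable_pi_lambda _ fun i => hW.measurable i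
  rw [measure_congr (hμ.ae_le hst), measure_congr (hν.ae_le hst),
    ← Measure.map_apply hmeas hT, ← Measure.map_apply hmeas hT, hfull]

/-- **Separation.** -/
theorem separation (hW : IsIsonormal P W) (hgen : Generates P W) {G : Ω → ℝ} (hG : MemLp G 2 P)
    (h : ∀ h, ∫ ω, G ω * exp (W h ω) ∂P = 0) : G =ᵐ[P] 0 := by
  have hprob := hW.isProbabilityMeasure
  have hGi : Integrable G P := hG.integrable (by norm_num)
  have hexp : ∀ h, MemLp (fun ω => exp (W h ω)) 2 P := fun h => (hW.allLp_exp h).memLp_two
  have hprod : ∀ h, Integrable (fun ω => G ω * exp (W h ω)) P := fun h =>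
    hG.integrable_mul (hexp h)
  set Gm : Ω → ℝ := hG.aestronglyMeasurable.mk G with hGm
  have hGG : G =ᵐ[P] Gm := hG.aestronglyMeasurable.ae_eq_mk
  have hGmm : Measurable Gm := hG.aestronglyMeasurable.stronglyMeasurable_mk.measurable
  have hmi : Integrable Gm P := hGi.congr hGG
  have hmprod : ∀ h, Integrable (fun ω => Gm ω * exp (W h ω)) P := fun h =>
    (hprod h).congr (by filter_upwards [hGG] with ω h1; rw [h1])
  have hm0 : ∀ h, ∫ ω, Gm ω * exp (W h ω) ∂P = 0 := fun k => by
    rw [← h k]
    refine integral_congr_ae ?_
    filter_upwards [hGG] with ω h1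
    rw [h1]
  set μ : Measure Ω := P.withDensity (fun ω => ENNReal.ofReal (Gm ω)) with hμ
  set ν : Measure Ω := P.withDensity (fun ω => ENNReal.ofReal (-Gm ω)) with hν
  have hμf : IsFiniteMeasure μ := isFiniteMeasure_withDensity_ofReal hmi.2
  have hνf : IsFiniteMeasure ν := isFiniteMeasure_withDensity_ofReal hmi.neg.2
  have hint : ∀ (f : Ω → ℝ) (F : Ω → ℝ), Measurable F →
      ∫ ω, f ω ∂(P.withDensity (fun ω => ENNReal.ofReal (F ω))) =
        ∫ ω, max (F ω) 0 * f ω ∂P := by
    intro f F hF
    rw [integral_withDensity_eq_integral_toReal_smul hF.ennreal_ofReal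
      (Filter.Eventually.of_forall fun _ => by simp)]
    refine integral_congr_ae (Filter.Eventually.of_forall fun ω => ?_)
    simp only [smul_eq_mul, ENNReal.toReal_ofReal']
  have hintb : ∀ (f : Ω → ℝ) (F : Ω → ℝ), Measurable F →
      (Integrable f (P.withDensity (fun ω => ENNReal.ofReal (F ω))) ↔
        Integrable (fun ω => max (F ω) 0 * f ω) P) := by
    intro f F hF
    rw [integrable_withDensity_iff_integrable_smul' hF.ennreal_ofReal
      (Filter.Eventually.of_forall fun _ => by simp)]
    simp only [smul_eq_mul, ENNReal.toReal_ofReal']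
  have hmax : ∀ h, Integrable (fun ω => max (Gm ω) 0 * exp (W h ω)) P := by
    intro h
    refine (hmprod h).mono ?_ (Filter.Eventually.of_forall fun ω => ?_)
    · exact ((hGmm.max measurable_const).mul (hW.measurable h).exp).aestronglyMeasurable
    · rw [norm_mul, norm_mul]
      refine mul_le_mul_of_nonneg_right ?_ (norm_nonneg _)
      rw [Real.norm_eq_abs, Real.norm_eq_abs, abs_of_nonneg (le_max_right _ _)]
      exact max_le (le_abs_self _) (abs_nonneg _)
  have hmax' : ∀ h, Integrable (fun ω => max (-Gm ω) 0 * exp (W h ω)) P := by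
    intro h
    refine (hmprod h).mono ?_ (Filter.Eventually.of_forall fun ω => ?_)
    · exact ((hGmm.neg.max measurable_const).mul (hW.measurable h).exp).aestronglyMeasurable
    · rw [norm_mul, norm_mul]
      refine mul_le_mul_of_nonneg_right ?_ (norm_nonneg _)
      rw [Real.norm_eq_abs, Real.norm_eq_abs, abs_of_nonneg (le_max_right _ _)]
      exact max_le (neg_le_abs _) (abs_nonneg _)
  have hμν : μ = ν := by
    refine measure_eq_of_laplace hW hgen μ ν (withDensity_absolutelyContinuous _ _)
      (withDensity_absolutelyContinuous _ _) (fun h => (hintb _ _ hGmm).2 (hmax h)) fun h => ?_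
    have e2 := hint (fun ω => exp (W h ω)) (fun ω => -Gm ω) hGmm.neg
    rw [hμ, hν, hint _ _ hGmm, e2]
    rw [← sub_eq_zero, ← integral_sub (hmax h) (hmax' h)]
    refine Eq.trans ?_ (hm0 h)
    refine integral_congr_ae (Filter.Eventually.of_forall fun ω => ?_)
    simp only
    rw [← sub_mul]
    congr 1
    rcases le_total (Gm ω) 0 with h1 | h1
    · rw [max_eq_right h1, max_eq_left (by linarith)]
      ring
    · rw [max_eq_left h1, max_eq_right (by linarith)]
      ring
  have hsets : ∀ s, MeasurableSet s → ∫ ω in s, Gm ω ∂P = 0 := by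
    intro s hs
    have h1 : μ.real s = ν.real s := by rw [hμν]
    have h2 : ∀ F : Ω → ℝ, Measurable F → Integrable F P →
        (P.withDensity (fun ω => ENNReal.ofReal (F ω))).real s = ∫ ω in s, max (F ω) 0 ∂P := by
      intro F hF hFi
      rw [measureReal_def, withDensity_apply _ hs]
      have h3 : (fun ω => ENNReal.ofReal (F ω)) = fun ω => ENNReal.ofReal (max (F ω) 0) := by
        funext ω
        rcases le_total (F ω) 0 with h1 | h1
        · rw [max_eq_right h1, ENNReal.ofReal_of_nonpos h1, ENNReal.ofReal_zero]
        · rw [max_eq_left h1]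
      rw [h3, integral_eq_lintegral_of_nonneg_ae (f := fun ω => max (F ω) 0)
        (Filter.Eventually.of_forall fun _ => le_max_right _ _)
        (hF.max measurable_const).aestronglyMeasurable]
    have e3 := h2 (fun ω => -Gm ω) hGmm.neg hmi.neg
    rw [hμ, hν, h2 _ hGmm hmi, e3] at h1
    have hp : Integrable (fun ω => max (Gm ω) 0) P := hmi.pos_part
    have hn : Integrable (fun ω => max (-Gm ω) 0) P := hmi.neg_part
    rw [← sub_eq_zero, ← integral_sub hp.integrableOn hn.integrableOn] at h1
    refine Eq.trans (Eq.symm ?_) h1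
    refine integral_congr_ae (Filter.Eventually.of_forall fun ω => ?_)
    simp only
    rcases le_total (Gm ω) 0 with h1 | h1
    · rw [max_eq_right h1, max_eq_left (by linarith)]
      ring
    · rw [max_eq_left h1, max_eq_right (by linarith)]
      ring
  have := hmi.ae_eq_zero_of_forall_setIntegral_eq_zero (fun s hs _ => hsets s hs)
  exact hGG.trans this

end Pool.Agent.Helper22.Mall
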