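import Pool.Agent.Helper22.Mall.NonDec

/-! The same statement for functions and processes instead of classes of functions. -/

namespace Pool.Agent.Helper22.Mall.Wiener

open MeasureTheory ProbabilityTheory Real Filter
open scoped ENNReal NNReal Topology InnerProductSpace

set_option linter.unusedSectionVars false
set_option linter.unusedVariables false

variable {n : ℕ} {Ω : Type*} [MeasurableSpace Ω]

/-- `h ∈ L²([0,1]; ℝⁿ)`; `h` represents its primitive `t ↦ ∫₀ᵗ h`, an element of the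
Cameron-Martin space `H` -/
def SqInt (h : ℝ → Fin n → ℝ) : Prop := MemLp h 2 (volume.restrict (Set.Icc 0 1))

/-- the scalar product `∫₀¹ h(t)·k(t) dt` of `H` -/
noncomputable def ip (h k : ℝ → Fin n → ℝ) : ℝ := ∫ t in Set.Icc (0 : ℝ) 1, ∑ i, h t i * k t i

/-- `W` is the Wiener integral `W(h) = ∫₀¹ h(t)·dB(t)` of an `n`-dimensional Brownian motion `B`
on `(Ω, P)`: `W` is linear and `W(h)` is Gaussian with mean `0` and variance `∫₀¹ |h|²`. -/
structure IsWienerIntegral (P : Measure Ω) (W : (ℝ → Fin n → ℝ) → Ω → ℝ) : Prop where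
  measurable : ∀ h, SqInt h → Measurable (W h)
  add : ∀ h k, SqInt h → SqInt k → W (h + k) =ᵐ[P] W h + W k
  smul : ∀ (c : ℝ) (h), SqInt h → W (c • h) =ᵐ[P] c • W h
  law : ∀ h, SqInt h → P.map (W h) = gaussianReal 0 (ip h h).toNNReal

/-- Up to null sets, every event belongs to the `σ`-algebra generated by the `W(h)`. -/
def Generates (P : Measure Ω) (W : (ℝ → Fin n → ℝ) → Ω → ℝ) : Prop :=
  ∀ s : Set Ω, MeasurableSet s → ∃ t : Set Ω,
    MeasurableSet[⨆ (h : ℝ → Fin n → ℝ) (_ : SqInt h), MeasurableSpace.comap (W h) inferInstance] t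
      ∧ s =ᵐ[P] t

/-- `G = (1 - L)^k F`, where the Ornstein-Uhlenbeck operator `L` multiplies the `m`-th Wiener chaos
(the closed span of the functionals `He_m(W(h))`, `‖h‖ = 1`, `He_m` the Hermite polynomial)
by `-m`. -/
def IsPow (P : Measure Ω) (W : (ℝ → Fin n → ℝ) → Ω → ℝ) (k : ℕ) (F G : Ω → ℝ) : Prop :=
  ∀ (m : ℕ) (h : ℝ → Fin n → ℝ), SqInt h → ip h h = 1 →
    ∫ ω, G ω * (Polynomial.hermite m).aeval (W h ω) ∂P =
      ((m : ℝ) + 1) ^ k * ∫ ω, F ω * (Polynomial.hermite m).aeval (W h ω) ∂P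

/-- `F ∈ 𝔻^∞`: all `(1 - L)^k F` exist and belong to all `L^p`, `p < ∞`. -/
def IsSmooth (P : Measure Ω) (W : (ℝ → Fin n → ℝ) → Ω → ℝ) (F : Ω → ℝ) : Prop :=
  MemLp F 2 P ∧ ∀ k : ℕ, ∃ G : Ω → ℝ, (∀ p : ℝ≥0, MemLp G p P) ∧ IsPow P W k F G

/-- A `𝔻^∞`-derivation: a linear map `𝔻^∞ → 𝔻^∞` (given on representatives) which is continuous
for the topology defined by the norms `‖(1 - L)^k F‖_{L^p}` and satisfies the Leibniz rule. -/
structure IsDerivation (P : Measure Ω) (W : (ℝ → Fin n → ℝ) → Ω → ℝ)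
    (δ : (Ω → ℝ) → Ω → ℝ) : Prop where
  congr : ∀ F F', IsSmooth P W F → F =ᵐ[P] F' → δ F =ᵐ[P] δ F'
  smooth : ∀ F, IsSmooth P W F → IsSmooth P W (δ F)
  add : ∀ F G, IsSmooth P W F → IsSmooth P W G → δ (F + G) =ᵐ[P] δ F + δ G
  smul : ∀ (c : ℝ) (F), IsSmooth P W F → δ (c • F) =ᵐ[P] c • δ F
  continuous : ∀ (k : ℕ) (p : ℝ≥0), 1 ≤ p → ∃ (m : ℕ) (q C : ℝ≥0), 1 ≤ q ∧
    ∀ F G G', IsSmooth P W F → MemLp G 2 P → MemLp G' 2 P → IsPow P W k (δ F) G →
      IsPow P W m F G' → eLpNorm G p P ≤ C * eLpNorm G' q P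
  leibniz : ∀ F G, IsSmooth P W F → IsSmooth P W G → IsSmooth P W (F * G) →
    δ (F * G) =ᵐ[P] F * δ G + G * δ F

/-- the process `G` belongs to `L²(Ω × [0,1]; ℝⁿ)`, that is to `L²(Ω; H)` -/
def SqIntProcess (P : Measure Ω) (G : Ω → ℝ → Fin n → ℝ) : Prop :=
  MemLp (fun p : Ω × ℝ => G p.1 p.2) 2 (P.prod (volume.restrict (Set.Icc 0 1)))

/-- `G = grad F` (the Malliavin derivative), in the weak form
`E[⟨G, k⟩ Φ] = E[F (W(k) Φ - ⟨grad Φ, k⟩)]` for all `k ∈ H` and all functionals `Φ = φ(W(h))`,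
`h ∈ H`, `φ` a polynomial, for which `grad Φ = φ'(W(h)) h`. -/
def IsGrad (P : Measure Ω) (W : (ℝ → Fin n → ℝ) → Ω → ℝ) (F : Ω → ℝ)
    (G : Ω → ℝ → Fin n → ℝ) : Prop :=
  ∀ (k h : ℝ → Fin n → ℝ) (φ : Polynomial ℝ), SqInt k → SqInt h →
    ∫ ω, ip (G ω) k * φ.eval (W h ω) ∂P =
      ∫ ω, F ω * (W k ω * φ.eval (W h ω) - ip h k * φ.derivative.eval (W h ω)) ∂P

/-- `D = div V`, where `div` is the adjoint of `grad`: `E[D Φ] = E[⟨V, grad Φ⟩]` for all
functionals `Φ = φ(W(h))`, `h ∈ H`, `φ` a polynomial. -/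
def IsDiv (P : Measure Ω) (W : (ℝ → Fin n → ℝ) → Ω → ℝ) (V : Ω → ℝ → Fin n → ℝ)
    (D : Ω → ℝ) : Prop :=
  ∀ (h : ℝ → Fin n → ℝ) (φ : Polynomial ℝ), SqInt h →
    ∫ ω, D ω * φ.eval (W h ω) ∂P = ∫ ω, ip (V ω) h * φ.derivative.eval (W h ω) ∂P

/-- `δ` is the sum of a vector field `X` and of an operator `div A grad`:
`δ F = ⟨grad F, X⟩ + div (A grad F)` for all `F ∈ 𝔻^∞`. Of the vector field only square
integrability is required, and of the process `A` only that it takes values in the antisymmetric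
matrices and that `div (A grad F)` exists. -/
def IsDecomposable (P : Measure Ω) (W : (ℝ → Fin n → ℝ) → Ω → ℝ)
    (δ : (Ω → ℝ) → Ω → ℝ) : Prop :=
  ∃ (X : Ω → ℝ → Fin n → ℝ) (A : Ω → ℝ → Matrix (Fin n) (Fin n) ℝ),
    SqIntProcess P X ∧ (∀ ω t, (A ω t).transpose = -A ω t) ∧
      ∀ F, IsSmooth P W F → ∃ (G : Ω → ℝ → Fin n → ℝ) (D : Ω → ℝ),
        SqIntProcess P G ∧ IsGrad P W F G ∧ IsDiv P W (fun ω t => (A ω t).mulVec (G ω t)) D ∧
          δ F =ᵐ[P] fun ω => ip (G ω) (X ω) + D ω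

/-! ### Functions and classes of functions -/

/-- the function of a class -/
noncomputable def toFn (h : CM n) : ℝ → Fin n → ℝ := fun t i => h t i

lemma toFn_sqInt (h : CM n) : SqInt (toFn h) := by
  have h1 := (EuclideanSpace.equiv (Fin n) ℝ).toContinuousLinearMap.comp_memLp h
  exact h1

lemma memLp_lift {h : ℝ → Fin n → ℝ} (hh : SqInt h) :
    MemLp (fun t => WithLp.toLp 2 (h t)) 2 (volume.restrict (Set.Icc (0 : ℝ) 1)) := by
  have h1 := ((EuclideanSpace.equiv (Fin n) ℝ).symm.toContinuousLinearMap).comp_memLp' hh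
  exact h1

/-- the class of a function -/
noncomputable def ofFn {h : ℝ → Fin n → ℝ} (hh : SqInt h) : CM n := (memLp_lift hh).toLp _

lemma toFn_ofFn {h : ℝ → Fin n → ℝ} (hh : SqInt h) :
    toFn (ofFn hh) =ᵐ[volume.restrict (Set.Icc (0 : ℝ) 1)] h := by
  filter_upwards [(memLp_lift hh).coeFn_toLp] with t ht
  funext i
  rw [toFn, ofFn, ht]

lemma ip_congr {h k h' k' : ℝ → Fin n → ℝ} (h1 : h =ᵐ[volume.restrict (Set.Icc (0 : ℝ) 1)] h')
    (h2 : k =ᵐ[volume.restrict (Set.Icc (0 : ℝ) 1)] k') : ip h k = ip h' k' := by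
  refine integral_congr_ae ?_
  filter_upwards [h1, h2] with t e1 e2
  rw [e1, e2]

lemma ip_toFn (h k : CM n) : ip (toFn h) (toFn k) = ⟪h, k⟫_ℝ := by
  rw [L2.inner_def]
  refine integral_congr_ae (Filter.Eventually.of_forall fun t => ?_)
  simp only [toFn, PiLp.inner_apply]
  refine Finset.sum_congr rfl fun i _ => ?_
  simp [mul_comm]

lemma ip_ofFn {h k : ℝ → Fin n → ℝ} (hh : SqInt h) (hk : SqInt k) :
    ⟪ofFn hh, ofFn hk⟫_ℝ = ip h k := by
  rw [← ip_toFn]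
  exact ip_congr (toFn_ofFn hh) (toFn_ofFn hk)

lemma ip_ofFn_left {h : ℝ → Fin n → ℝ} (hh : SqInt h) (k : CM n) :
    ⟪ofFn hh, k⟫_ℝ = ip h (toFn k) := by
  rw [← ip_toFn]
  exact ip_congr (toFn_ofFn hh) (Filter.EventuallyEq.refl _ _)

end Pool.Agent.Helper22.Mall.Wiener
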