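import Pool.Agent.Helper22.Mall.Bounds

/-! `L^q` bound for `div A ∇ (1+N)⁻²`. -/

namespace Pool.Agent.Helper22.Mall

open MeasureTheory ProbabilityTheory Real Filter
open scoped ENNReal NNReal Topology InnerProductSpace

set_option linter.unusedSectionVars false
set_option linter.unusedVariables false

variable {H : Type*} [NormedAddCommGroup H] [InnerProductSpace ℝ H]
variable {Ω : Type*} [MeasurableSpace Ω]
variable {P : Measure Ω} {W : H → Ω → ℝ}

namespace IsIsonormal

/-- the integrand before integrating over `y` and `φ` -/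
noncomputable def Gk (W : H → Ω → ℝ) (A : H →L[ℝ] H) (h : H) (x : Ω) (θ : ℝ) (y : Ω) (φ : ℝ) : ℝ :=
  sin φ * (ex W (cos φ * cos (-θ)) h x * ex W (cos φ * sin (-θ)) h y) *
    (sin θ * W (A h) x + cos θ * W (A h) y)

lemma kr_mul (hW : IsIsonormal P W) (A : H →L[ℝ] H) (h : H) (x : Ω) (θ : ℝ) (y : Ω) :
    kr (‖h‖ ^ 2) (cos (-θ) * W h x + sin (-θ) * W h y) *
      (-sin (-θ) * W (A h) x + cos (-θ) * W (A h) y) = ∫ φ, Gk W A h x θ y φ ∂νc := by
  rw [kr, ← integral_mul_const]
  refine integral_congr_ae (Filter.Eventually.of_forall fun φ => ?_)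
  simp only [Gk]
  rw [ex_rot, cos_neg, sin_neg, neg_neg]

lemma measurable_Gk (hW : IsIsonormal P W) (A : H →L[ℝ] H) (h : H) {α : Type*} [MeasurableSpace α]
    {u v : α → Ω} {w z : α → ℝ} (hu : Measurable u) (hv : Measurable v) (hw : Measurable w)
    (hz : Measurable z) : Measurable fun p => Gk W A h (u p) (w p) (v p) (z p) := by
  have h1 := hW.measurable h
  have h2 := hW.measurable (A h)
  unfold Gk ex
  fun_prop

lemma integrable_Gk (hW : IsIsonormal P W) (A : H →L[ℝ] H) (h : H) (x : Ω) (θ : ℝ) :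
    Integrable (fun p : Ω × ℝ => Gk W A h x θ p.1 p.2) (P.prod νc) := by
  have hp := hW.isProbabilityMeasure
  have h1 : Integrable (fun y => exp |W h x| * (exp |W h y| * (|W (A h) x| + |W (A h) y|))) P := by
    refine Integrable.const_mul ?_ _
    have e : (fun y => exp |W h y| * (|W (A h) x| + |W (A h) y|)) =
        fun y => exp |W h y| * |W (A h) x| + exp |W h y| * |W (A h) y| := by
      funext y; ring
    rw [e]
    refine (((hW.allLp_exp_abs h).integrable).mul_const _).add ?_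
    have h2 : AllLp P (fun y => |W (A h) y|) := fun p => (hW.allLp_W (A h) p).abs
    exact ((hW.allLp_exp_abs h).mul h2).integrable
  refine (h1.comp_fst νc).mono' ?_ (Filter.Eventually.of_forall fun p => ?_)
  · exact (hW.measurable_Gk A h measurable_const measurable_fst measurable_const
      measurable_snd).aestronglyMeasurable
  · simp only [Gk]
    have b : ∀ a b : ℝ, |a| ≤ 1 → |b| ≤ 1 → |a * b| ≤ 1 := fun a b ha hb => by
      rw [abs_mul]; exact mul_le_one₀ ha (abs_nonneg _) hb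
    have b1 : ex W (cos p.2 * cos (-θ)) h x ≤ exp |W h x| :=
      ex_le (b _ _ (abs_cos_le_one _) (abs_cos_le_one _)) h x
    have b2 : ex W (cos p.2 * sin (-θ)) h p.1 ≤ exp |W h p.1| :=
      ex_le (b _ _ (abs_cos_le_one _) (abs_sin_le_one _)) h p.1
    have b3 : |sin θ * W (A h) x + cos θ * W (A h) p.1| ≤ |W (A h) x| + |W (A h) p.1| := by
      refine (abs_add_le _ _).trans (add_le_add ?_ ?_)
      · rw [abs_mul]
        exact mul_le_of_le_one_left (abs_nonneg _) (abs_sin_le_one θ)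
      · rw [abs_mul]
        exact mul_le_of_le_one_left (abs_nonneg _) (abs_cos_le_one θ)
    rw [Real.norm_eq_abs, abs_mul, abs_mul, abs_mul, abs_of_pos (ex_pos _ _ _),
      abs_of_pos (ex_pos _ _ _)]
    calc |sin p.2| * (ex W (cos p.2 * cos (-θ)) h x * ex W (cos p.2 * sin (-θ)) h p.1) *
          |sin θ * W (A h) x + cos θ * W (A h) p.1|
        ≤ 1 * (exp |W h x| * exp |W h p.1|) * (|W (A h) x| + |W (A h) p.1|) := by
          refine mul_le_mul (mul_le_mul (abs_sin_le_one _) (mul_le_mul b1 b2 (ex_pos _ _ _).le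
            (exp_pos _).le) (mul_pos (ex_pos _ _ _) (ex_pos _ _ _)).le zero_le_one) b3
            (abs_nonneg _) (by positivity)
      _ = _ := by ring

lemma integral_Gk (hW : IsIsonormal P W) (A : H →L[ℝ] H) (hA : ∀ h, ⟪A h, h⟫_ℝ = 0) (h : H)
    (x : Ω) (θ φ : ℝ) :
    ∫ y, Gk W A h x θ y φ ∂P =
      sin θ * W (A h) x * (sin φ * ex W (cos θ * cos φ) h x) := by
  have hp := hW.isProbabilityMeasure
  have e : (fun y => Gk W A h x θ y φ) = fun y =>
      (sin φ * ex W (cos θ * cos φ) h x * (sin θ * W (A h) x)) * ex W (cos φ * sin (-θ)) h y +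
      (sin φ * ex W (cos θ * cos φ) h x * cos θ) *
        (W (A h) y * ex W (cos φ * sin (-θ)) h y) := by
    funext y
    simp only [Gk, cos_neg, mul_comm (cos φ) (cos θ)]
    ring
  rw [e, integral_add (((hW.allLp_ex _ h).integrable).const_mul _)
    ((hW.integrable_W_mul_ex (A h) _ h).const_mul _), integral_const_mul, integral_const_mul,
    hW.integral_ex, hW.integral_W_mul_ex', hA]
  ring

lemma integral_kr (hW : IsIsonormal P W) (A : H →L[ℝ] H) (hA : ∀ h, ⟪A h, h⟫_ℝ = 0) (h : H)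
    (x : Ω) (θ : ℝ) :
    ∫ y, kr (‖h‖ ^ 2) (cos (-θ) * W h x + sin (-θ) * W h y) *
      (-sin (-θ) * W (A h) x + cos (-θ) * W (A h) y) ∂P =
      W (A h) x * (sin θ * ∫ φ, sin φ * ex W (cos θ * cos φ) h x ∂νc) := by
  have hp := hW.isProbabilityMeasure
  simp_rw [hW.kr_mul A h x θ]
  rw [integral_integral_swap (hW.integrable_Gk A h x θ)]
  simp_rw [hW.integral_Gk A hA h x θ]
  rw [integral_const_mul]
  ring

/-- the integrand of the representation of `div A ∇ (1+N)⁻² F` -/
noncomputable def ft (W : H → Ω → ℝ) (A : H →L[ℝ] H) (s : Finset H) (a : H → ℝ) (x y : Ω)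
    (θ : ℝ) : ℝ :=
  ∑ h ∈ s, a h * (kr (‖h‖ ^ 2) (cos (-θ) * W h x + sin (-θ) * W h y) *
      (-sin (-θ) * W (A h) x + cos (-θ) * W (A h) y))

lemma measurable_ft (hW : IsIsonormal P W) (A : H →L[ℝ] H) (s : Finset H) (a : H → ℝ) :
    Measurable fun z : Ω × Ω × ℝ => ft W A s a z.1 z.2.1 z.2.2 := by
  unfold ft
  refine Finset.measurable_sum _ fun h _ => ?_
  have h1 := hW.measurable h
  have h2 := hW.measurable (A h)
  have h3 : Measurable fun z : Ω × Ω × ℝ =>
      kr (‖h‖ ^ 2) (cos (-z.2.2) * W h z.1 + sin (-z.2.2) * W h z.2.1) := by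
    refine (kr_measurable _).comp ?_
    fun_prop
  refine Measurable.const_mul (h3.mul ?_) _
  fun_prop

lemma integral_ft (hW : IsIsonormal P W) (A : H →L[ℝ] H) (hA : ∀ h, ⟪A h, h⟫_ℝ = 0)
    (s : Finset H) (a : H → ℝ) (x : Ω) :
    ∫ θ, ∫ y, ft W A s a x y θ ∂P ∂νc = ∑ h ∈ s, a h * tf W A h x := by
  have hp := hW.isProbabilityMeasure
  have e1 : ∀ θ, ∫ y, ft W A s a x y θ ∂P =
      ∑ h ∈ s, a h * (W (A h) x * (sin θ * ∫ φ, sin φ * ex W (cos θ * cos φ) h x ∂νc)) := by
    intro θ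
    simp only [ft]
    rw [integral_finsetSum]
    · refine Finset.sum_congr rfl fun h _ => ?_
      rw [integral_const_mul, hW.integral_kr A hA]
    · intro h _
      refine Integrable.const_mul ?_ _
      simp_rw [hW.kr_mul A h x θ]
      exact (hW.integrable_Gk A h x θ).integral_prod_left
  simp_rw [e1]
  rw [integral_finsetSum]
  · refine Finset.sum_congr rfl fun h _ => ?_
    rw [integral_const_mul, integral_const_mul, tf]
  · intro h _
    refine Integrable.const_mul (Integrable.const_mul ?_ _) _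
    have hm : Measurable fun p : ℝ × ℝ => sin p.2 * ex W (cos p.1 * cos p.2) h x := by
      unfold ex
      fun_prop
    have hb : ∀ θ φ, ‖sin φ * ex W (cos θ * cos φ) h x‖ ≤ exp |W h x| := by
      intro θ φ
      rw [norm_mul, Real.norm_of_nonneg (ex_pos _ _ _).le, Real.norm_eq_abs]
      calc |sin φ| * ex W (cos θ * cos φ) h x ≤ 1 * exp |W h x| := by
            refine mul_le_mul (abs_sin_le_one φ) (ex_le ?_ h x) (ex_pos _ _ _).le zero_le_one
            rw [abs_mul]
            exact mul_le_one₀ (abs_cos_le_one _) (abs_nonneg _) (abs_cos_le_one _)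
        _ = _ := one_mul _
    refine (integrable_const (exp |W h x|)).mono' ?_ (Filter.Eventually.of_forall fun θ => ?_)
    · exact (measurable_sin.mul
        (hm.stronglyMeasurable.integral_prod_right' (ν := νc)).measurable).aestronglyMeasurable
    · rw [norm_mul]
      calc ‖sin θ‖ * ‖∫ φ, sin φ * ex W (cos θ * cos φ) h x ∂νc‖ ≤ 1 * exp |W h x| := by
            refine mul_le_mul (abs_sin_le_one θ) ?_ (norm_nonneg _) zero_le_one
            have := norm_integral_le_of_norm_le_const (μ := νc)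
              (Filter.Eventually.of_forall (hb θ))
            simpa using this
        _ = _ := one_mul _

lemma lintegral_ft (hW : IsIsonormal P W) (A : H →L[ℝ] H) (s : Finset H) (a : H → ℝ) {q : ℝ}
    (hq : 0 ≤ q) (θ : ℝ) :
    ∫⁻ x, ∫⁻ y, ‖ft W A s a x y θ‖ₑ ^ q ∂P ∂P =
      ∫⁻ x, ‖A (Kv W s a x)‖ₑ ^ q * gmom q ∂P := by
  have hp := hW.isProbabilityMeasure
  have hΦ : Measurable fun z : (s ⊕ s → ℝ) × (s ⊕ s → ℝ) =>
      ‖∑ h : s, a h * (kr (‖(h : H)‖ ^ 2) (z.1 (Sum.inl h)) * z.2 (Sum.inr h))‖ₑ ^ q := by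
    refine (Measurable.enorm ?_).pow_const q
    refine Finset.measurable_sum _ fun h _ => ?_
    refine Measurable.const_mul (Measurable.mul ((kr_measurable _).comp ?_) ?_) _ <;> fun_prop
  have h1 := hW.rotation_lintegral (Sum.elim (fun h : s => (h : H)) (fun h : s => A h)) (-θ) hΦ
  simp only [Sum.elim_inl, Sum.elim_inr] at h1
  have e1 : ∀ x y, ft W A s a x y θ = ∑ h : s, a h *
      (kr (‖(h : H)‖ ^ 2) (cos (-θ) * W (h : H) x + sin (-θ) * W (h : H) y) *
      (-sin (-θ) * W (A h) x + cos (-θ) * W (A h) y)) := by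
    intro x y
    rw [ft, ← Finset.sum_coe_sort s]
  simp_rw [e1]
  rw [h1]
  refine lintegral_congr fun x => ?_
  rw [gmom, ← hW.lintegral_W_rpow _ hq]
  refine lintegral_congr_ae ?_
  have h2 := hW.sum_ae s (fun h => a h * kf W h x) (fun h => A h)
  have h3 : A (Kv W s a x) = ∑ h ∈ s, (a h * kf W h x) • A h := by
    rw [Kv, map_sum]
    simp
  rw [h3]
  filter_upwards [h2] with y h4
  rw [h4, ← Finset.sum_coe_sort s (fun h => a h * kf W h x * W (A h) y)]
  congr 2
  refine Finset.sum_congr rfl fun h _ => ?_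
  rw [kf]
  ring

/-- **`div A ∇ (1+N)⁻²` is bounded in `L^q`**, on exponential combinations. -/
theorem tf_bound (hW : IsIsonormal P W) (A : H →L[ℝ] H) (hA : ∀ h, ⟪A h, h⟫_ℝ = 0)
    (s : Finset H) (a : H → ℝ) {q q' : ℝ} (hq : q'.HolderConjugate q) :
    ∫⁻ x, ‖∑ h ∈ s, a h * tf W A h x‖ₑ ^ q ∂P ≤
      (gmom q * ‖A‖ₑ ^ q * gmom q' ^ (q / q')) * ∫⁻ x, ‖∑ h ∈ s, a h * ex W 1 h x‖ₑ ^ q ∂P := by
  have hp := hW.isProbabilityMeasure
  have hq1 : 1 < q := hq.symm.lt
  have hq0 : 0 < q := by linarith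
  have h1 := avg_bound (P := P) (ν := νc) (q := q) (f := fun x y θ => ft W A s a x y θ)
    (hW.measurable_ft A s a) hq1.le (fun θ => (hW.lintegral_ft A s a hq0.le θ).le)
  simp only [hW.integral_ft A hA] at h1
  refine h1.trans ?_
  calc ∫⁻ x, ‖A (Kv W s a x)‖ₑ ^ q * gmom q ∂P
      ≤ ∫⁻ x, (gmom q * ‖A‖ₑ ^ q) * ‖Kv W s a x‖ₑ ^ q ∂P := by
        refine lintegral_mono fun x => ?_
        have h2 : ‖A (Kv W s a x)‖ₑ ≤ ‖A‖ₑ * ‖Kv W s a x‖ₑ := by
          rw [← ofReal_norm, ← ofReal_norm, ← ofReal_norm, ← ENNReal.ofReal_mul (norm_nonneg _)]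
          exact ENNReal.ofReal_le_ofReal (A.le_opNorm _)
        calc ‖A (Kv W s a x)‖ₑ ^ q * gmom q ≤ (‖A‖ₑ * ‖Kv W s a x‖ₑ) ^ q * gmom q := by
              gcongr
          _ = _ := by
              rw [ENNReal.mul_rpow_of_nonneg _ _ hq0.le]
              ring
    _ = (gmom q * ‖A‖ₑ ^ q) * ∫⁻ x, ‖Kv W s a x‖ₑ ^ q ∂P := by
        rw [lintegral_const_mul']
        exact ENNReal.mul_ne_top (gmom_lt_top hq0).ne
          (ENNReal.rpow_ne_top_of_nonneg hq0.le (by simp))
    _ ≤ (gmom q * ‖A‖ₑ ^ q) * (gmom q' ^ (q / q') *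
          ∫⁻ x, ‖∑ h ∈ s, a h * ex W 1 h x‖ₑ ^ q ∂P) := by
        gcongr
        exact hW.Kv_bound s a hq
    _ = _ := by ring

end IsIsonormal

end Pool.Agent.Helper22.Mall
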