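import Pool.Agent.Helper22.Mall.Statement

/-! Transfer of the main theorem to functions and processes. -/

namespace Pool.Agent.Helper22.Mall.Wiener

open MeasureTheory ProbabilityTheory Real Filter
open scoped ENNReal NNReal Topology InnerProductSpace

set_option linter.unusedSectionVars false
set_option linter.unusedVariables false

variable {n : ℕ} {Ω : Type*} [MeasurableSpace Ω] {P : Measure Ω} {W : (ℝ → Fin n → ℝ) → Ω → ℝ}

lemma W_congr (hW : IsWienerIntegral P W) {h k : ℝ → Fin n → ℝ} (hh : SqInt h) (hk : SqInt k)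
    (e : h =ᵐ[volume.restrict (Set.Icc (0 : ℝ) 1)] k) : W h =ᵐ[P] W k := by
  have h1 : SqInt (h - k) := MemLp.sub hh hk
  have h2 := hW.add k (h - k) hk h1
  rw [add_sub_cancel] at h2
  have h3 : ip (h - k) (h - k) = 0 := by
    have : ip (h - k) (h - k) = ip (0 : ℝ → Fin n → ℝ) 0 := by
      have e' : h - k =ᵐ[volume.restrict (Set.Icc (0 : ℝ) 1)] (0 : ℝ → Fin n → ℝ) := by
        filter_upwards [e] with t ht
        rw [Pi.sub_apply, ht, sub_self, Pi.zero_apply]
      exact ip_congr e' e'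
    rw [this]
    simp [ip]
  have h4 := hW.law (h - k) h1
  rw [h3, Real.toNNReal_zero, gaussianReal_zero_var] at h4
  have h5 : ∀ᵐ y ∂(P.map (W (h - k))), y = 0 := by
    rw [h4]
    exact (ae_dirac_iff (measurableSet_singleton (0 : ℝ))).2 rfl
  have h6 := ae_of_ae_map (hW.measurable _ h1).aemeasurable h5
  filter_upwards [h2, h6] with ω e1 e2
  rw [e1, Pi.add_apply, e2, add_zero]

/-- the Wiener integral on classes of functions -/
noncomputable def cls (W : (ℝ → Fin n → ℝ) → Ω → ℝ) : CM n → Ω → ℝ := fun h => W (toFn h)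

lemma iso (hW : IsWienerIntegral P W) : IsIsonormal P (cls W) where
  measurable h := hW.measurable _ (toFn_sqInt h)
  add h k := by
    have h1 : toFn (h + k) =ᵐ[volume.restrict (Set.Icc (0 : ℝ) 1)] toFn h + toFn k := by
      filter_upwards [Lp.coeFn_add h k] with t ht
      funext i
      simp only [toFn, Pi.add_apply, ht, PiLp.add_apply]
    exact (W_congr hW (toFn_sqInt _) (MemLp.add (toFn_sqInt h) (toFn_sqInt k)) h1).trans
      (hW.add _ _ (toFn_sqInt h) (toFn_sqInt k))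
  smul c h := by
    have h1 : toFn (c • h) =ᵐ[volume.restrict (Set.Icc (0 : ℝ) 1)] c • toFn h := by
      filter_upwards [Lp.coeFn_smul c h] with t ht
      funext i
      simp only [toFn, Pi.smul_apply, ht, PiLp.smul_apply]
    exact (W_congr hW (toFn_sqInt _) (MemLp.const_smul (toFn_sqInt h) c) h1).trans
      (hW.smul _ _ (toFn_sqInt h))
  law h := by
    rw [cls, hW.law _ (toFn_sqInt h), ip_toFn, real_inner_self_eq_norm_sq]

lemma gen (hW : IsWienerIntegral P W) (hgen : Generates P W) : Mall.Generates P (cls W) := by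
  intro s hs
  obtain ⟨t, ht, hst⟩ := hgen s hs
  have h1 : (⨆ (h : ℝ → Fin n → ℝ) (_ : SqInt h), MeasurableSpace.comap (W h) inferInstance) ≤
      eventuallyMeasurableSpace (⨆ h, MeasurableSpace.comap (cls W h) inferInstance) (ae P) := by
    refine iSup_le fun h => iSup_le fun hh => ?_
    rintro _ ⟨B, hB, rfl⟩
    have h2 : MeasurableSet[⨆ h, MeasurableSpace.comap (cls W h) inferInstance]
        (cls W (ofFn hh) ⁻¹' B) := by
      have := le_iSup (fun h : CM n => MeasurableSpace.comap (cls W h) inferInstance) (ofFn hh)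
      exact this _ ⟨B, hB, rfl⟩
    refine ⟨_, h2, ?_⟩
    have h3 := W_congr hW (toFn_sqInt (ofFn hh)) hh (toFn_ofFn hh)
    filter_upwards [h3] with ω e
    change (W h ω ∈ B) = (W (toFn (ofFn hh)) ω ∈ B)
    rw [e]
  obtain ⟨t', ht', htt'⟩ := h1 _ ht
  exact ⟨t', ht', hst.trans htt'⟩

lemma isPow_iff (hW : IsWienerIntegral P W) {k : ℕ} {F G : Ω → ℝ} :
    IsPow P W k F G ↔ Mall.IsPow P (cls W) k F G := by
  constructor
  · intro h m v hv
    refine h m (toFn v) (toFn_sqInt v) ?_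
    rw [ip_toFn, real_inner_self_eq_norm_sq, hv, one_pow]
  · intro h m v hv hv1
    have h1 : ‖ofFn hv‖ = 1 := by
      have h2 := ip_ofFn hv hv
      rw [hv1, real_inner_self_eq_norm_sq] at h2
      exact (pow_eq_one_iff_of_nonneg (norm_nonneg _) two_ne_zero).1 h2
    have h2 := h m (ofFn hv) h1
    have h3 := W_congr hW (toFn_sqInt (ofFn hv)) hv (toFn_ofFn hv)
    have e : ∀ F : Ω → ℝ, ∫ ω, F ω * (Polynomial.hermite m).aeval (W v ω) ∂P =
        ∫ ω, F ω * He (cls W) m (ofFn hv) ω ∂P := by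
      intro F
      refine integral_congr_ae ?_
      filter_upwards [h3] with ω e
      rw [He, cls, e]
    rw [e, e, h2]

lemma isPow_congr {k : ℕ} {F G F' G' : Ω → ℝ} (hF : F =ᵐ[P] F') (hG : G =ᵐ[P] G')
    (h : IsPow P W k F G) : IsPow P W k F' G' := by
  intro m v hv hv1
  have e : ∀ {F F' : Ω → ℝ}, F =ᵐ[P] F' →
      ∫ ω, F' ω * (Polynomial.hermite m).aeval (W v ω) ∂P =
        ∫ ω, F ω * (Polynomial.hermite m).aeval (W v ω) ∂P := by
    intro F F' h1
    refine integral_congr_ae ?_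
    filter_upwards [h1] with ω e
    rw [e]
  rw [e hF, e hG, h m v hv hv1]

lemma smooth_lp (hW : IsWienerIntegral P W) {F : Ω → ℝ} (hF : IsSmooth P W F) :
    hF.1.toLp F ∈ Dinf (iso hW) := by
  intro k
  have hp := (iso hW).isProbabilityMeasure
  obtain ⟨G, h1, h2⟩ := hF.2 k
  have h3 : MemLp G 2 P := h1 2
  refine ⟨h3.toLp G, fun p => (h1 p).ae_eq h3.coeFn_toLp.symm, ?_⟩
  exact (isPow_iff hW).1 (isPow_congr hF.1.coeFn_toLp.symm h3.coeFn_toLp.symm h2)

lemma smooth_of_lp (hW : IsWienerIntegral P W) (F : Dinf (iso hW)) :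
    IsSmooth P W (F.1 : Ω → ℝ) := by
  refine ⟨Lp.memLp F.1, fun k => ?_⟩
  obtain ⟨G, h1, h2⟩ := F.2 k
  exact ⟨G, h1, (isPow_iff hW).2 h2⟩

lemma IsSmooth.congr {F F' : Ω → ℝ} (hF : IsSmooth P W F) (h : F =ᵐ[P] F') :
    IsSmooth P W F' := by
  refine ⟨hF.1.ae_eq h, fun k => ?_⟩
  obtain ⟨G, h1, h2⟩ := hF.2 k
  exact ⟨G, h1, isPow_congr h (Filter.EventuallyEq.refl _ _) h2⟩

/-- the class of a smooth functional -/
noncomputable def lift (hW : IsWienerIntegral P W) {F : Ω → ℝ} (hF : IsSmooth P W F) :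
    Dinf (iso hW) := ⟨hF.1.toLp F, smooth_lp hW hF⟩

open Classical in
/-- the operator on representatives -/
noncomputable def low (hW : IsWienerIntegral P W) (δ : Dinf (iso hW) →ₗ[ℝ] Dinf (iso hW))
    (F : Ω → ℝ) : Ω → ℝ :=
  if hF : IsSmooth P W F then (δ (lift hW hF)).1 else 0

lemma low_eq (hW : IsWienerIntegral P W) (δ : Dinf (iso hW) →ₗ[ℝ] Dinf (iso hW))
    {F : Ω → ℝ} (hF : IsSmooth P W F) : low hW δ F = (δ (lift hW hF)).1 := by
  rw [low, dif_pos hF]

lemma low_derivation (hW : IsWienerIntegral P W) {δ : Dinf (iso hW) →ₗ[ℝ] Dinf (iso hW)}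
    (hδ : Mall.IsDerivation (iso hW) δ) : IsDerivation P W (low hW δ) where
  congr F F' hF h := by
    rw [low_eq hW δ hF, low_eq hW δ (hF.congr h)]
    have : lift hW hF = lift hW (hF.congr h) := by
      refine Subtype.ext ?_
      exact (MemLp.toLp_eq_toLp_iff hF.1 (hF.congr h).1).2 h
    rw [this]
  smooth F hF := by
    rw [low_eq hW δ hF]
    exact smooth_of_lp hW _
  add F G hF hG := by
    have e : lift hW hF + lift hW hG = ⟨(hF.1.add hG.1).toLp _, by
        have := (lift hW hF + lift hW hG).2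
        exact this⟩ := rfl
    have hFG : IsSmooth P W (F + G) :=
      (smooth_of_lp hW (lift hW hF + lift hW hG)).congr (hF.1.add hG.1).coeFn_toLp
    have e2 : lift hW hFG = lift hW hF + lift hW hG := rfl
    rw [low_eq hW δ hFG, low_eq hW δ hF, low_eq hW δ hG, e2, map_add]
    exact Lp.coeFn_add _ _
  smul c F hF := by
    have hcF : IsSmooth P W (c • F) :=
      (smooth_of_lp hW (c • lift hW hF)).congr (hF.1.const_smul c).coeFn_toLp
    have e2 : lift hW hcF = c • lift hW hF := rfl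
    rw [low_eq hW δ hcF, low_eq hW δ hF, e2, map_smul]
    exact Lp.coeFn_smul _ _
  continuous k p hp := by
    obtain ⟨m, q, C, hq, h⟩ := hδ.continuous k p hp
    refine ⟨m, q, C, hq, fun F G G' hF hG hG' h1 h2 => ?_⟩
    rw [low_eq hW δ hF] at h1
    have h3 := h (lift hW hF) (hG.toLp G) (hG'.toLp G')
      ((isPow_iff hW).1 (isPow_congr (Filter.EventuallyEq.refl _ _) hG.coeFn_toLp.symm h1))
      ((isPow_iff hW).1 (isPow_congr hF.1.coeFn_toLp.symm hG'.coeFn_toLp.symm h2))
    rwa [eLpNorm_congr_ae hG.coeFn_toLp, eLpNorm_congr_ae hG'.coeFn_toLp] at h3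
  leibniz F G hF hG hFG := by
    rw [low_eq hW δ hFG, low_eq hW δ hF, low_eq hW δ hG]
    have h1 := hδ.leibniz (lift hW hF) (lift hW hG) (lift hW hFG) (by
      filter_upwards [hF.1.coeFn_toLp, hG.1.coeFn_toLp, hFG.1.coeFn_toLp] with ω e1 e2 e3
      change (hFG.1.toLp (F * G)) ω = (hF.1.toLp F) ω * (hG.1.toLp G) ω
      rw [e1, e2, e3, Pi.mul_apply])
    filter_upwards [h1, hF.1.coeFn_toLp, hG.1.coeFn_toLp] with ω e1 e2 e3
    rw [e1]
    simp only [Pi.add_apply, Pi.mul_apply]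
    change (hF.1.toLp F) ω * _ + (hG.1.toLp G) ω * _ = _
    rw [e2, e3]

end Pool.Agent.Helper22.Mall.Wiener
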